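import Pool.Agent.MP_ca1109_lc.Mpg.G0

/-!
# Circuits over an arbitrary finite basis

* `Basis`: finitely many Boolean functions of arbitrary arities.
* `BTest B s m T`: `T` is a function of `m` bits computed by a circuit with at most `s` gates, all
  taken from the basis `B`; `BAny B m T`: the same without a bound on the number of gates.
* `Affine`, `IsAnd`, `IsOr`, `SelfDual`, `Mono`, `Idem`, `Inter`, `CoInter`: properties of Boolean
  functions.
* `tau B`: the threshold of the basis `B`, one of `0`, `1/4`, `1/2`, `1`.
-/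

namespace Pool.Agent.MP_ca1109_lc.Post

open Pool.Agent.H66 Pool.Agent.MP_ca1109_lc.Mpg

/-- A finite basis: finitely many Boolean functions of arbitrary arities. -/
structure Basis where
  /-- the number of functions -/
  card : ℕ
  /-- the arities -/
  arity : Fin card → ℕ
  /-- the functions -/
  fn : ∀ i, (Fin (arity i) → Bool) → Bool

/-- Sequences of `n` gates from `B` over `m` inputs: the wires available to a gate are the `m` inputs
and the outputs of the previous gates. -/
inductive BGates (B : Basis) (m : ℕ) : ℕ → Type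
  | nil : BGates B m 0
  | snoc {n : ℕ} (C : BGates B m n) (i : Fin B.card) (w : Fin (B.arity i) → Fin (m + n)) :
      BGates B m (n + 1)

/-- The values of all wires (inputs and gate outputs). -/
def BGates.eval {B : Basis} {m : ℕ} (x : Fin m → Bool) :
    {n : ℕ} → BGates B m n → Fin (m + n) → Bool
  | _, .nil => x
  | _, .snoc C i w =>
      Fin.snoc (α := fun _ => Bool) (BGates.eval x C) (B.fn i fun j => BGates.eval x C (w j))

/-- `T` is computed by a circuit with at most `s` gates from `B`. -/
def BTest (B : Basis) (s m : ℕ) (T : (Fin m → Bool) → Bool) : Prop :=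
  ∃ n ≤ s, ∃ (C : BGates B m n) (w : Fin (m + n)), ∀ x, T x = C.eval x w

/-- `T` is computed by a circuit with gates from `B`, of any size. -/
def BAny (B : Basis) (m : ℕ) (T : (Fin m → Bool) → Bool) : Prop := ∃ s, BTest B s m T

/-! ## Properties of Boolean functions -/

/-- `f` is a polynomial of degree at most one over the field with two elements. -/
def Affine {r : ℕ} (f : (Fin r → Bool) → Bool) : Prop :=
  ∃ (a : Fin r → ZMod 2) (b : ZMod 2), ∀ x,
    (if f x then 1 else 0 : ZMod 2) = b + ∑ i, a i * (if x i then 1 else 0)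

/-- `f` is constantly false or the conjunction of a (possibly empty) set of variables. -/
def IsAnd {r : ℕ} (f : (Fin r → Bool) → Bool) : Prop :=
  (∀ x, f x = false) ∨ ∃ S : Finset (Fin r), ∀ x, f x = true ↔ ∀ i ∈ S, x i = true

/-- `f` is constantly true or the disjunction of a (possibly empty) set of variables. -/
def IsOr {r : ℕ} (f : (Fin r → Bool) → Bool) : Prop :=
  (∀ x, f x = true) ∨ ∃ S : Finset (Fin r), ∀ x, f x = true ↔ ∃ i ∈ S, x i = true

/-- Complementing all arguments complements the value. -/
def SelfDual {r : ℕ} (f : (Fin r → Bool) → Bool) : Prop := ∀ x, f (fun i => !(x i)) = !(f x)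

/-- `f` is monotone. -/
def Mono {r : ℕ} (f : (Fin r → Bool) → Bool) : Prop :=
  ∀ x y : Fin r → Bool, (∀ i, x i = true → y i = true) → f x = true → f y = true

/-- `f (0, ..., 0) = 0` and `f (1, ..., 1) = 1`. -/
def Idem {r : ℕ} (f : (Fin r → Bool) → Bool) : Prop :=
  f (fun _ => false) = false ∧ f (fun _ => true) = true

/-- Any two accepted points have a common coordinate `1`. -/
def Inter {r : ℕ} (f : (Fin r → Bool) → Bool) : Prop :=
  ∀ x y, f x = true → f y = true → ∃ i, x i = true ∧ y i = true

/-- Any two rejected points have a common coordinate `0`. -/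
def CoInter {r : ℕ} (f : (Fin r → Bool) → Bool) : Prop :=
  ∀ x y, f x = false → f y = false → ∃ i, x i = false ∧ y i = false

open Classical in
/-- The threshold of a basis. -/
noncomputable def tau (B : Basis) : ℝ :=
  if (∀ i, Affine (B.fn i)) ∨ (∀ i, IsAnd (B.fn i)) ∨ (∀ i, IsOr (B.fn i)) ∨
      ∀ i, SelfDual (B.fn i) then 0
  else if ((∀ i, Inter (B.fn i)) ∨ ∀ i, CoInter (B.fn i)) ∧
      ((∀ i, Mono (B.fn i)) ∨ ∀ i, Idem (B.fn i)) then 1 / 4
  else if ((∀ i, Inter (B.fn i)) ∨ ∀ i, CoInter (B.fn i)) ∨
      ((∀ i, Mono (B.fn i)) ∨ ∀ i, Idem (B.fn i)) then 1 / 2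
  else 1

end Pool.Agent.MP_ca1109_lc.Post
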