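import Pool.Agent.MP_ca1109_lc.Post.P9
import Pool.Agent.MP_ca1109_lc.Hyb.F3

/-!
# Bases of affine functions and of conjunctions

`Hyb.MixedTest 1 1 n T` (`Hyb/Defs.lean`): `T x = true ↔ F (fun _ => 0 < p x) (fun _ => P x = 0)`
where `P` is a sum of functions of at most one bit with values in an abelian group; take `p = 0`.
Membership in `lowDeg (Fin n) Bool Γ 1`: it is an additive subgroup which contains the functions of
one bit (`Mpg.junta_mem` with `T = {i}`) and the constants (`Mpg.lowDeg_const`), in `Mpg/A4.lean`;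
sums: `AddSubgroup.sum_mem`.
-/

namespace Pool.Agent.MP_ca1109_lc.Post

open Set Pool.Agent.H66 Pool.Agent.MP_ca1109_lc.Mpg

variable {B : Basis} {n : ℕ} {T : BF n}

/-- Sums of functions of one bit. -/
theorem p10_mem {R : Type} [AddCommGroup R] (b : R) (S : Finset (Fin n)) (g : Fin n → Bool → R) :
    (fun x : Fin n → Bool => b + ∑ i ∈ S, g i (x i)) ∈ lowDeg (Fin n) Bool R 1 := by
  have e : (fun x : Fin n → Bool => b + ∑ i ∈ S, g i (x i)) =
      (fun _ => b) + ∑ i ∈ S, fun x : Fin n → Bool => g i (x i) := by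
    funext x
    rw [Pi.add_apply, Finset.sum_apply]
  rw [e]
  refine AddSubgroup.add_mem _ (lowDeg_const b) (AddSubgroup.sum_mem _ fun i _ => ?_)
  refine junta_mem {i} (by simp) fun x y hxy => ?_
  show g i (x i) = g i (y i)
  rw [hxy i (by simp)]

/-- `Γ = ZMod 2`, `P x = b + ∑ i, a i * x i`, `F _ c = ¬ c 0`. -/
theorem Affine.mixed (h : Affine T) : Hyb.MixedTest 1 1 n T := by
  obtain ⟨a, b, hT⟩ := h
  refine ⟨fun _ _ => 0, fun _ => ZMod 2, fun _ => inferInstance,
    fun _ x => b + ∑ i, a i * (if x i then 1 else 0), fun _ c => ¬ c 0, fun _ => lowDeg_const 0,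
    fun _ => p10_mem b Finset.univ fun i c => a i * (if c then 1 else 0), fun x => ?_⟩
  show T x = true ↔ ¬ (b + ∑ i, a i * (if x i then 1 else 0) = 0)
  rw [← hT x]
  cases T x
  · simp
  · simp

/-- `Γ = ℤ`, `P x = ∑ i ∈ S, (1 - x i)`, `F _ c = c 0`; if `T` is constantly false, `F = False`. -/
theorem IsAnd.mixed (h : IsAnd T) : Hyb.MixedTest 1 1 n T := by
  rcases h with h | ⟨S, h⟩
  · refine ⟨fun _ _ => 0, fun _ => ℤ, fun _ => inferInstance, fun _ _ => 0, fun _ _ => False,
      fun _ => lowDeg_const 0, fun _ => lowDeg_const 0, fun x => ?_⟩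
    rw [h x]
    simp
  · refine ⟨fun _ _ => 0, fun _ => ℤ, fun _ => inferInstance,
      fun _ x => 0 + ∑ i ∈ S, (if x i then 0 else 1), fun _ c => c 0, fun _ => lowDeg_const 0,
      fun _ => p10_mem (0 : ℤ) S fun _ c => if c then 0 else 1, fun x => ?_⟩
    show T x = true ↔ (0 + ∑ i ∈ S, (if x i then (0 : ℤ) else 1)) = 0
    rw [h x, zero_add, Finset.sum_eq_zero_iff_of_nonneg (fun i _ => by split_ifs <;> norm_num)]
    refine forall₂_congr fun i _ => ?_
    cases x i
    · simp
    · simp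

/-- `BAny.affine`, `Hyb.logGen_mixed 1 1 he` (or the first part of `Hyb.mixed_generators`),
`LogGen.mono`. -/
theorem gen_affine (h : ∀ i, Affine (B.fn i)) {e : ℝ} (he : 0 < e) : LogGen (BAny B) e := by
  exact (Hyb.logGen_mixed 1 1 he).mono fun n T hT => Affine.mixed (BAny.affine h hT)

theorem gen_isAnd (h : ∀ i, IsAnd (B.fn i)) {e : ℝ} (he : 0 < e) : LogGen (BAny B) e := by
  exact (Hyb.logGen_mixed 1 1 he).mono fun n T hT => IsAnd.mixed (BAny.isAnd h hT)

end Pool.Agent.MP_ca1109_lc.Post
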