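import Pool.Agent.MP_ca1109_lc.Post.P1b

/-!
# Duality

`dl f x = !(f (!x))`; `B.dual` has the functions `dl (B.fn i)`.
-/

namespace Pool.Agent.MP_ca1109_lc.Post

variable {B : Basis} {r m s : ℕ} {f : BF r}

theorem dl_dl (f : BF r) : dl (dl f) = f := by
  funext x
  simp only [dl, Bool.not_not]

/-- the circuit with the dual gates -/
def p2_dual {B : Basis} {m : ℕ} : {n : ℕ} → BGates B m n → BGates B.dual m n
  | _, .nil => .nil
  | _, .snoc C i w => .snoc (B := B.dual) (p2_dual C) i w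

/-- back -/
def p2_undual {B : Basis} {m : ℕ} : {n : ℕ} → BGates B.dual m n → BGates B m n
  | _, .nil => .nil
  | _, .snoc C i w => .snoc (B := B) (p2_undual C) i w

theorem p2_dual_eval (x : Fin m → Bool) : ∀ {n : ℕ} (C : BGates B m n) (w : Fin (m + n)),
    (p2_dual C).eval x w = !(C.eval (fun i => !(x i)) w) := by
  intro n C
  induction C with
  | nil => intro w; exact (Bool.not_not _).symm
  | @snoc n C i w ih =>
    intro v
    induction v using Fin.lastCases with
    | last =>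
      rw [BGates.eval_snoc_last]
      refine (BGates.eval_snoc_last (B := B.dual) (p2_dual C) i w x).trans ?_
      have e : (fun j => !((p2_dual C).eval x (w j))) = fun j => C.eval (fun i => !(x i)) (w j) :=
        funext fun j => by rw [ih (w j), Bool.not_not]
      exact congrArg (fun g => !(B.fn i g)) e
    | cast v =>
      rw [BGates.eval_snoc_castSucc]
      exact (BGates.eval_snoc_castSucc (B := B.dual) (p2_dual C) i w x v).trans (ih v)

theorem p2_undual_eval (x : Fin m → Bool) : ∀ {n : ℕ} (C : BGates B.dual m n) (w : Fin (m + n)),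
    (p2_undual C).eval x w = !(C.eval (fun i => !(x i)) w) := by
  intro n C
  induction C with
  | nil => intro w; exact (Bool.not_not _).symm
  | @snoc n C i w ih =>
    intro v
    induction v using Fin.lastCases with
    | last =>
      rw [BGates.eval_snoc_last]
      refine (BGates.eval_snoc_last (B := B) (p2_undual C) i w x).trans ?_
      have e : (fun j => (p2_undual C).eval x (w j)) = fun j => !(C.eval (fun i => !(x i)) (w j)) :=
        funext fun j => ih (w j)
      exact (congrArg (fun g => B.fn i g) e).trans (Bool.not_not _).symm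
    | cast v =>
      rw [BGates.eval_snoc_castSucc]
      exact (BGates.eval_snoc_castSucc (B := B) (p2_undual C) i w x v).trans (ih v)

/-- Proof: the map `BGates B m n → BGates B.dual m n` which keeps the wires; by induction
`(dual C).eval x w = !(C.eval (fun i => !(x i)) w)`. (`B.dual.dual` and `B` differ only by
`dl (dl (B.fn i)) = B.fn i`; for `→` use the same map in the other direction, `BGates B.dual m n →
BGates B m n`, the types of gates and wires of the two bases agree definitionally.) -/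
theorem btest_dual {T : BF m} : BTest B.dual s m T ↔ BTest B s m (dl T) := by
  constructor
  · rintro ⟨n, hn, C, w, hC⟩
    refine ⟨n, hn, p2_undual C, w, fun x => ?_⟩
    rw [p2_undual_eval, ← hC]
    rfl
  · rintro ⟨n, hn, C, w, hC⟩
    refine ⟨n, hn, p2_dual C, w, fun x => ?_⟩
    rw [p2_dual_eval, ← hC]
    simp only [dl, Bool.not_not]

theorem cl_dual {g : BF r} : Cl B.dual r g ↔ Cl B r (dl g) :=
  exists_congr fun _ => btest_dual

theorem cl1_dual {u : Bool → Bool} : Cl1 B.dual u ↔ Cl1 B fun a => !(u (!a)) :=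
  cl_dual

theorem cl2_dual {u : Bool → Bool → Bool} : Cl2 B.dual u ↔ Cl2 B fun a b => !(u (!a) (!b)) :=
  cl_dual

theorem cl3_dual {u : Bool → Bool → Bool → Bool} :
    Cl3 B.dual u ↔ Cl3 B fun a b c => !(u (!a) (!b) (!c)) :=
  cl_dual

theorem p2_affine {f : BF r} (h : Affine f) : Affine (dl f) := by
  obtain ⟨a, b, h⟩ := h
  refine ⟨a, 1 - b - ∑ i, a i, fun x => ?_⟩
  have e1 : ∀ c : Bool, (if (!c) then 1 else 0 : ZMod 2) = 1 - (if c then 1 else 0) := by
    intro c; cases c <;> simp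
  have h' := h fun i => !(x i)
  rw [dl, e1, h']
  have e2 : ∑ i, a i * (if (!(x i)) then 1 else 0 : ZMod 2) =
      ∑ i, a i - ∑ i, a i * (if x i then 1 else 0) := by
    rw [← Finset.sum_sub_distrib]
    refine Finset.sum_congr rfl fun i _ => ?_
    rw [e1]; ring
  rw [e2]
  have h3 : ∀ z : ZMod 2, -z = z := by decide
  have h4 := h3 (∑ i, a i * (if x i then 1 else 0))
  linear_combination (0 : ZMod 2) * h4

theorem affine_dl : Affine (dl f) ↔ Affine f :=
  ⟨fun h => dl_dl f ▸ p2_affine h, p2_affine⟩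

theorem isAnd_dl : IsAnd (dl f) ↔ IsOr f := by
  have key : ∀ x, f x = !(dl f fun i => !(x i)) := fun x => by simp only [dl, Bool.not_not]
  constructor
  · rintro (h | ⟨S, hS⟩)
    · exact Or.inl fun x => by rw [key, h]; rfl
    · refine Or.inr ⟨S, fun x => ?_⟩
      rw [key, Bool.not_eq_true', ← Bool.not_eq_true, hS]
      simp
  · rintro (h | ⟨S, hS⟩)
    · exact Or.inl fun x => by rw [dl, h]; rfl
    · refine Or.inr ⟨S, fun x => ?_⟩
      rw [dl, Bool.not_eq_true', ← Bool.not_eq_true, hS]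
      simp

theorem isOr_dl : IsOr (dl f) ↔ IsAnd f := by
  rw [← isAnd_dl, dl_dl]

theorem p2_selfDual {f : BF r} (h : SelfDual f) : SelfDual (dl f) := by
  intro x
  simp only [dl, Bool.not_not]
  rw [h x]

theorem selfDual_dl : SelfDual (dl f) ↔ SelfDual f :=
  ⟨fun h => dl_dl f ▸ p2_selfDual h, p2_selfDual⟩

theorem p2_mono {f : BF r} (h : Mono f) : Mono (dl f) := by
  intro x y hxy hx
  simp only [dl, Bool.not_eq_true'] at hx ⊢
  by_contra hy
  rw [Bool.not_eq_false] at hy
  have := h (fun i => !(y i)) (fun i => !(x i)) (fun i hi => by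
    simp only [Bool.not_eq_true'] at hi ⊢
    by_contra hc
    rw [Bool.not_eq_false] at hc
    rw [hxy i hc] at hi
    exact Bool.noConfusion hi) hy
  rw [this] at hx
  exact Bool.noConfusion hx

theorem mono_dl : Mono (dl f) ↔ Mono f :=
  ⟨fun h => dl_dl f ▸ p2_mono h, p2_mono⟩

theorem p2_idem {f : BF r} (h : Idem f) : Idem (dl f) := by
  obtain ⟨h0, h1⟩ := h
  refine ⟨?_, ?_⟩
  · simp only [dl, Bool.not_false, h1, Bool.not_true]
  · simp only [dl, Bool.not_true, h0, Bool.not_false]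

theorem idem_dl : Idem (dl f) ↔ Idem f :=
  ⟨fun h => dl_dl f ▸ p2_idem h, p2_idem⟩

theorem inter_dl : Inter (dl f) ↔ CoInter f := by
  constructor
  · intro h x y hx hy
    obtain ⟨i, h1, h2⟩ := h (fun i => !(x i)) (fun i => !(y i))
      (by simp only [dl, Bool.not_not, hx, Bool.not_false])
      (by simp only [dl, Bool.not_not, hy, Bool.not_false])
    exact ⟨i, by simpa using h1, by simpa using h2⟩
  · intro h x y hx hy
    simp only [dl, Bool.not_eq_true'] at hx hy
    obtain ⟨i, h1, h2⟩ := h _ _ hx hy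
    exact ⟨i, by simpa using h1, by simpa using h2⟩

theorem coInter_dl : CoInter (dl f) ↔ Inter f := by
  rw [← inter_dl, dl_dl]

theorem tau_dual (B : Basis) : tau B.dual = tau B := by
  have a1 : (∀ i, Affine (B.dual.fn i)) ↔ ∀ i, Affine (B.fn i) := forall_congr' fun i => affine_dl
  have a2 : (∀ i, IsAnd (B.dual.fn i)) ↔ ∀ i, IsOr (B.fn i) := forall_congr' fun i => isAnd_dl
  have a3 : (∀ i, IsOr (B.dual.fn i)) ↔ ∀ i, IsAnd (B.fn i) := forall_congr' fun i => isOr_dl
  have a4 : (∀ i, SelfDual (B.dual.fn i)) ↔ ∀ i, SelfDual (B.fn i) :=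
    forall_congr' fun i => selfDual_dl
  have a5 : (∀ i, Mono (B.dual.fn i)) ↔ ∀ i, Mono (B.fn i) := forall_congr' fun i => mono_dl
  have a6 : (∀ i, Idem (B.dual.fn i)) ↔ ∀ i, Idem (B.fn i) := forall_congr' fun i => idem_dl
  have a7 : (∀ i, Inter (B.dual.fn i)) ↔ ∀ i, CoInter (B.fn i) := forall_congr' fun i => inter_dl
  have a8 : (∀ i, CoInter (B.dual.fn i)) ↔ ∀ i, Inter (B.fn i) := forall_congr' fun i => coInter_dl
  have b1 : ((∀ i, Affine (B.dual.fn i)) ∨ (∀ i, IsAnd (B.dual.fn i)) ∨ (∀ i, IsOr (B.dual.fn i)) ∨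
      ∀ i, SelfDual (B.dual.fn i)) ↔ ((∀ i, Affine (B.fn i)) ∨ (∀ i, IsAnd (B.fn i)) ∨
      (∀ i, IsOr (B.fn i)) ∨ ∀ i, SelfDual (B.fn i)) := by
    rw [a1, a2, a3, a4]
    exact ⟨fun h => h.elim Or.inl fun h => h.elim (fun h => Or.inr (Or.inr (Or.inl h)))
      fun h => h.elim (fun h => Or.inr (Or.inl h)) fun h => Or.inr (Or.inr (Or.inr h)),
      fun h => h.elim Or.inl fun h => h.elim (fun h => Or.inr (Or.inr (Or.inl h)))
      fun h => h.elim (fun h => Or.inr (Or.inl h)) fun h => Or.inr (Or.inr (Or.inr h))⟩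
  have b2 : ((∀ i, Inter (B.dual.fn i)) ∨ ∀ i, CoInter (B.dual.fn i)) ↔
      ((∀ i, Inter (B.fn i)) ∨ ∀ i, CoInter (B.fn i)) := by
    rw [a7, a8]; exact or_comm
  have b3 := or_congr a5 a6
  unfold tau
  by_cases c1 : (∀ i, Affine (B.fn i)) ∨ (∀ i, IsAnd (B.fn i)) ∨
      (∀ i, IsOr (B.fn i)) ∨ ∀ i, SelfDual (B.fn i)
  · rw [if_pos (b1.2 c1), if_pos c1]
  rw [if_neg fun h => c1 (b1.1 h), if_neg c1]
  by_cases c2 : ((∀ i, Inter (B.fn i)) ∨ ∀ i, CoInter (B.fn i)) ∧
      ((∀ i, Mono (B.fn i)) ∨ ∀ i, Idem (B.fn i))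
  · rw [if_pos ((and_congr b2 b3).2 c2), if_pos c2]
  rw [if_neg fun h => c2 ((and_congr b2 b3).1 h), if_neg c2]
  by_cases c3 : ((∀ i, Inter (B.fn i)) ∨ ∀ i, CoInter (B.fn i)) ∨
      ((∀ i, Mono (B.fn i)) ∨ ∀ i, Idem (B.fn i))
  · rw [if_pos ((or_congr b2 b3).2 c3), if_pos c3]
  rw [if_neg fun h => c3 ((or_congr b2 b3).1 h), if_neg c3]

end Pool.Agent.MP_ca1109_lc.Post
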