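import Pool.Agent.MP_ca1109_lc.Post.P7
import Pool.Agent.MP_ca1109_lc.MonoThreshold
import Pool.Agent.MP_ca1109_lc.Post.P2

/-!
# Passing to smaller output lengths, duality for generators
-/

namespace Pool.Agent.MP_ca1109_lc.Post

open Set Pool.Agent.H66 Pool.Agent.MP_ca1109_lc.Mpg

/-- The circuits over `B` of size at most `m ^ (1 / k)`. -/
def Small (B : Basis) (k m : ℕ) (T : (Fin m → Bool) → Bool) : Prop := ∃ s, s ^ k ≤ m ∧ BTest B s m T

/-- A generator which fools pairs of monotone circuits after its output is shortened to a root.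
Proof: `gen_of_pair` (`MonoThreshold.lean`) with `N M = ((L + 1) * (M + 1)) ^ k`,
`d M = D (N M)`, `G' M s = G (N M) s`. `M + 1 ≤ N M` as `0 < k`; `(L * (M + 1)) ^ k ≤ N M`, so the
tests in `BTest B (L * (M + 1)) (N M)` are in `Small B k (N M)`; `bits M l = res _ (bits (N M) l)`
holds by `rfl`. `N` tends to infinity. `D (N M) ≤ c * logb 2 (N M)` with
`logb 2 (N M) = k * (logb 2 (L + 1) + logb 2 (M + 1)) ≤ k * (logb 2 (L + 1) + 1 + logb 2 M) ≤
k * (logb 2 (L + 1) + 2) * logb 2 M` for `2 ≤ M`; replace `c` by `max c 0`. Polynomial time: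
`polyTime_pow`, `PolyTime.mul`, `PolyTime.add`, `PolyTime.const`, `.comp`, `.pair` (see
`polyTime_hyb` and `UFam.step` in `MonoStep.lean`). -/
theorem gen_of_key {B : Basis} {L k : ℕ} {e κ : ℝ} (hκ0 : 0 ≤ κ) (hκ1 : κ < 1) (hk : 0 < k)
    (key : ∀ᶠ M : ℕ in Filter.atTop, ∀ (N : ℕ) (hN : M + 1 ≤ N) (A : Type) [Fintype A]
      [Nonempty A] (G : A → Fin N → Bool),
      (∀ T, BTest B (L * (M + 1)) N T → |prob (fun a => T (G a)) - prob T| ≤ e) →
        FoolsPair M κ fun a => res (Nat.le_of_succ_le hN) (G a))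
    (h : LogGen (Small B k) e) : GenExists (fun _ _ => True) (1 / 8) := by
  obtain ⟨D, G, hD, hG, hl, c, hc⟩ := h
  have hNM : ∀ M : ℕ, M + 1 ≤ ((L + 1) * (M + 1)) ^ k := fun M => by
    have h1 : M + 1 ≤ (L + 1) * (M + 1) := Nat.le_mul_of_pos_left _ (Nat.succ_pos L)
    exact h1.trans (Nat.le_self_pow hk.ne' _)
  have hNt : Filter.Tendsto (fun M : ℕ => ((L + 1) * (M + 1)) ^ k) Filter.atTop Filter.atTop :=
    Filter.tendsto_atTop_mono (fun M => (Nat.le_succ M).trans (hNM M)) Filter.tendsto_id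
  have hp1 : ∀ {γ : Type} [Enc γ] {n : γ → ℕ}, PolyTime n →
      PolyTime fun c => ((L + 1) * (n c + 1)) ^ k := fun hn =>
    polyTime_pow k (PolyTime.mul (PolyTime.const (L + 1)) (PolyTime.add hn (PolyTime.const 1)))
  refine gen_of_pair hκ0 hκ1 (by norm_num) (d := fun M => D (((L + 1) * (M + 1)) ^ k))
    (G := fun M s => G (((L + 1) * (M + 1)) ^ k) s) (hD.comp (hp1 PolyTime.id))
    (hG.comp ((hp1 PolyTime.fst).pair PolyTime.snd))
    (c := max c 0 * (k * (Real.logb 2 ((L : ℝ) + 1) + 2))) ?_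
  filter_upwards [key, hNt.eventually hc, Filter.eventually_ge_atTop 2] with M hkey hM hM2
  refine ⟨?_, ?_⟩
  · have h1 := hM.1
    have hM2' : (2 : ℝ) ≤ M := by exact_mod_cast hM2
    have hL0 : (0 : ℝ) ≤ L := Nat.cast_nonneg L
    have h2 : Real.logb 2 (((((L + 1) * (M + 1)) ^ k : ℕ)) : ℝ) =
        k * (Real.logb 2 ((L : ℝ) + 1) + Real.logb 2 ((M : ℝ) + 1)) := by
      push_cast
      rw [Real.logb_pow, Real.logb_mul (by positivity) (by positivity)]
    have h3 : Real.logb 2 ((M : ℝ) + 1) ≤ 1 + Real.logb 2 M := by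
      have h4 : Real.logb 2 ((M : ℝ) + 1) ≤ Real.logb 2 (2 * M) :=
        Real.logb_le_logb_of_le (by norm_num) (by positivity) (by linarith)
      rwa [Real.logb_mul (by norm_num) (by positivity), Real.logb_self_eq_one (by norm_num)] at h4
    have h5 : 1 ≤ Real.logb 2 M := by
      have h6 : Real.logb 2 2 ≤ Real.logb 2 (M : ℝ) :=
        Real.logb_le_logb_of_le (by norm_num) (by norm_num) hM2'
      rwa [Real.logb_self_eq_one (by norm_num)] at h6
    have h7 : 0 ≤ Real.logb 2 ((L : ℝ) + 1) := Real.logb_nonneg (by norm_num) (by linarith)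
    have h8 : 0 ≤ Real.logb 2 ((M : ℝ) + 1) := Real.logb_nonneg (by norm_num) (by linarith)
    have hk0 : (0 : ℝ) ≤ k := Nat.cast_nonneg k
    have h9 : (k : ℝ) * (Real.logb 2 ((L : ℝ) + 1) + Real.logb 2 ((M : ℝ) + 1)) ≤
        k * ((Real.logb 2 ((L : ℝ) + 1) + 2) * Real.logb 2 M) := by
      refine mul_le_mul_of_nonneg_left ?_ hk0
      nlinarith
    calc (D (((L + 1) * (M + 1)) ^ k) : ℝ) ≤ c * Real.logb 2 (((((L + 1) * (M + 1)) ^ k : ℕ)) : ℝ) := h1
      _ = c * (k * (Real.logb 2 ((L : ℝ) + 1) + Real.logb 2 ((M : ℝ) + 1))) := by rw [h2]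
      _ ≤ max c 0 * (k * (Real.logb 2 ((L : ℝ) + 1) + Real.logb 2 ((M : ℝ) + 1))) :=
          mul_le_mul_of_nonneg_right (le_max_left _ _) (by positivity)
      _ ≤ max c 0 * (k * ((Real.logb 2 ((L : ℝ) + 1) + 2) * Real.logb 2 M)) :=
          mul_le_mul_of_nonneg_left h9 (le_max_right _ _)
      _ = max c 0 * (k * (Real.logb 2 ((L : ℝ) + 1) + 2)) * Real.logb 2 M := by ring
  · exact hkey (((L + 1) * (M + 1)) ^ k) (hNM M) (Fin (D (((L + 1) * (M + 1)) ^ k)) → Bool)
      (fun s => bits (((L + 1) * (M + 1)) ^ k) (G (((L + 1) * (M + 1)) ^ k) (List.ofFn s)))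
      (fun T hT => hM.2.2 T ⟨L * (M + 1), Nat.pow_le_pow_left
        (Nat.mul_le_mul_right _ (Nat.le_succ L)) k, hT⟩)

/-- Complementing the outputs of a generator.
Proof: `G' n s = (G n s).map (!·)` (`PolyTime.map`, `PolyTime.not`), for `s.length = D n` it has
length `n` and `bits n (G' n s) i = !(bits n (G n s) i)`. With `T' = dl T ∈ 𝒯 n`:
`prob (T ∘ G') = prob (!(T' ∘ G)) = 1 - prob (T' ∘ G)` and `prob T = 1 - prob T'` (`prob_not`,
`prob_equiv` for the complementation of all coordinates). -/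
theorem logGen_dual {𝒯 𝒯' : ∀ n : ℕ, ((Fin n → Bool) → Bool) → Prop}
    (h𝒯 : ∀ n T, 𝒯' n T → 𝒯 n (dl T)) {e : ℝ} (h : LogGen 𝒯 e) : LogGen 𝒯' e := by
  obtain ⟨D, G, hD, hG, hl, c, hc⟩ := h
  refine ⟨D, fun n s => (G n s).map fun b => !b, hD,
    PolyTime.map (f := fun _ b => !b) hG (PolyTime.not PolyTime.snd), fun n s hs => by
      rw [List.length_map]
      exact hl n s hs, c, ?_⟩
  filter_upwards [hc] with n hn
  refine ⟨hn.1, hn.2.1, fun T hT => ?_⟩
  have h1 : ∀ s : Fin (D n) → Bool, T (bits n ((G n (List.ofFn s)).map fun b => !b)) =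
      !(dl T (bits n (G n (List.ofFn s)))) := by
    intro s
    have h2 : bits n ((G n (List.ofFn s)).map fun b => !b) =
        fun i => !(bits n (G n (List.ofFn s)) i) := by
      funext i
      have h3 : (i : ℕ) < (G n (List.ofFn s)).length := by
        rw [hl n _ (List.length_ofFn)]
        exact i.2
      simp [bits, List.getD_eq_getElem?_getD, h3]
    rw [h2]
    simp [dl]
  have h4 : prob T = 1 - prob (dl T) := by
    have h5 := prob_equiv (Equiv.piCongrRight fun _ : Fin n => Equiv.boolNot) T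
    have h6 : prob (dl T) =
        1 - prob (fun x : Fin n → Bool => T ((Equiv.piCongrRight fun _ : Fin n => Equiv.boolNot) x)) := by
      rw [← prob_not]
      rfl
    rw [h6, h5]
    ring
  simp only [h1]
  rw [h4, prob_not]
  have h7 := hn.2.2 (dl T) (h𝒯 n T hT)
  rw [abs_sub_comm] at h7
  have h8 : 1 - prob (fun s : Fin (D n) → Bool => dl T (bits n (G n (List.ofFn s)))) - (1 - prob (dl T)) =
      prob (dl T) - prob (fun s : Fin (D n) → Bool => dl T (bits n (G n (List.ofFn s)))) := by ring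
  rw [h8]
  exact h7

/-- `btest_dual`, `dl_dl`, `logGen_dual`. -/
theorem small_dual {B : Basis} {k : ℕ} {e : ℝ} :
    LogGen (Small B.dual k) e ↔ LogGen (Small B k) e := by
  constructor
  · intro h
    refine logGen_dual (𝒯 := Small B.dual k) (fun n T hT => ?_) h
    obtain ⟨s, hs, hT'⟩ := hT
    refine ⟨s, hs, btest_dual.2 ?_⟩
    rw [dl_dl]
    exact hT'
  · intro h
    refine logGen_dual (𝒯 := Small B k) (fun n T hT => ?_) h
    obtain ⟨s, hs, hT'⟩ := hT
    exact ⟨s, hs, btest_dual.1 hT'⟩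

theorem any_dual {B : Basis} {e : ℝ} : LogGen (BAny B.dual) e ↔ LogGen (BAny B) e := by
  constructor
  · intro h
    refine logGen_dual (𝒯 := BAny B.dual) (fun n T hT => ?_) h
    obtain ⟨s, hT'⟩ := hT
    refine ⟨s, btest_dual.2 ?_⟩
    rw [dl_dl]
    exact hT'
  · intro h
    refine logGen_dual (𝒯 := BAny B) (fun n T hT => ?_) h
    obtain ⟨s, hT'⟩ := hT
    exact ⟨s, btest_dual.1 hT'⟩

end Pool.Agent.MP_ca1109_lc.Post
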