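import Pool.Agent.MP_ca1109_lc.Post.P6b
import Pool.Agent.MP_ca1109_lc.MonoBlock

/-!
# Generators which fool small circuits over a basis fool pairs of monotone circuits

`FoolsPair M κ G` (`MonoBlock.lean`): for all `S, P, Q` with `2 * S + 1 ≤ M` and
`Gets false (bas M) S {P}`, `Gets false (bas M) S {Q}`:
`prob (P ∘ G ∨ ¬ Q ∘ G) ≤ prob P + prob (¬ Q) + κ`. Below `r = res _`, `t` is the guard, the bit `M`
(or the OR of the first `M` bits), Pr is for a uniform point of the cube, PrG for a random output of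
`G`. Useful: `prob_not`, `prob_mono`, `prob_or_le`, `prob_nonneg`, `prob_le_one`, `prob_equiv`,
`prob_marginal` (MonoProb.lean, MonoBlock.lean).
-/

namespace Pool.Agent.MP_ca1109_lc.Post

open Set

variable {B : Basis} {K M N : ℕ} {e : ℝ} {A : Type} [Fintype A] [Nonempty A]

/-- The probability of a guarded test.
Proof: `prob_marginal` with `J = Fin (M + 1)`, `pos = Fin.castLE hN`, reduces to `N = M + 1`; there
`Fin.snocEquiv`/`Fin.consEquiv` or a direct count: `x ↦ (x M, r x)` is a bijection with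
`Bool × (Fin M → Bool)`. -/
theorem prob_guard (hN : M + 1 ≤ N) (f : BF M) :
    prob (fun x : Fin N → Bool => x ⟨M, hN⟩ && f (res (Nat.le_of_succ_le hN) x)) = prob f / 2 := by
  have h1 := prob_marginal (J := Fin (M + 1)) (Fin.castLE hN) (Fin.castLE_injective hN)
    (fun z : Fin (M + 1) → Bool => z (Fin.last M) && f fun i => z i.castSucc)
  have h2 : (fun x : Fin N → Bool => x ⟨M, hN⟩ && f (res (Nat.le_of_succ_le hN) x)) =
      fun y : Fin N → Bool => (fun z : Fin (M + 1) → Bool => z (Fin.last M) && f fun i => z i.castSucc)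
        fun j => y (Fin.castLE hN j) := rfl
  rw [h2, h1, ← prob_equiv (Fin.snocEquiv fun _ : Fin (M + 1) => Bool)]
  have h3 : (fun a : Bool × (Fin M → Bool) =>
      (fun z : Fin (M + 1) → Bool => z (Fin.last M) && f fun i => z i.castSucc)
        ((Fin.snocEquiv fun _ : Fin (M + 1) => Bool) a)) =
      fun a : Bool × (Fin M → Bool) => a.1 && f a.2 := by
    funext a
    show ((Fin.snoc (α := fun _ => Bool) a.2 a.1 (Fin.last M)) &&
      f fun i => Fin.snoc (α := fun _ => Bool) a.2 a.1 i.castSucc) = (a.1 && f a.2)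
    rw [Fin.snoc_last]
    congr 2
    funext i
    rw [Fin.snoc_castSucc]
  refine (congrArg prob h3).trans ?_
  have h4 : prob (fun a : Bool × (Fin M → Bool) => a.1 && f a.2) =
      avg (fun b : Bool => ind b) * avg (fun y : Fin M → Bool => ind (f y)) := by
    rw [prob_eq_avg, ← avg_prod_mul]
    congr 1
    funext a
    cases a.1 <;> simp [ind]
  rw [h4, ← prob_eq_avg f]
  have h5 : avg (fun b : Bool => ind b) = 1 / 2 := by
    simp [avg, ind]
  rw [h5]
  ring

/-- `prob_marginal`. -/
theorem prob_res (hN : M ≤ N) (f : BF M) :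
    prob (fun x : Fin N → Bool => f (res hN x)) = prob f :=
  prob_marginal (Fin.castLE hN) (Fin.castLE_injective hN) f

theorem p7_false : prob (fun _ : A => false) = 0 := by
  simp [prob]

/-- AND and OR: `PrG[P ∨ ¬Q] ≤ PrG[P] + PrG[¬Q] ≤ Pr[P] + Pr[¬Q] + 2 e` (`test_plain`; for constant
functions both probabilities agree, `prob_cst`). -/
theorem pair_plain (ha : BTest B K 2 fun x => x 0 && x 1) (ho : BTest B K 2 fun x => x 0 || x 1)
    (he : 0 ≤ e) (hN : M + 1 ≤ N) (G : A → Fin N → Bool)
    (hG : ∀ T, BTest B (4 * K * (M + 1)) N T → |prob (fun a => T (G a)) - prob T| ≤ e) :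
    FoolsPair M (2 * e) fun a => res (Nat.le_of_succ_le hN) (G a) := by
  have key : ∀ (S : ℕ) (R : BF M), 2 * S + 1 ≤ M → Gets false (bas M) S {R} →
      |prob (fun a => R (res (Nat.le_of_succ_le hN) (G a))) - prob R| ≤ e := by
    intro S R hS hR
    rcases test_plain ha ho (Nat.le_of_succ_le hN) hS hR with hc | ht
    · rw [prob_cst (fun a => res (Nat.le_of_succ_le hN) (G a)) hc, sub_self, abs_zero]
      exact he
    · have h1 := hG _ ht
      rwa [prob_res (Nat.le_of_succ_le hN) R] at h1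
  intro S P Q hS hP hQ
  have h1 := (abs_le.1 (key S P hS hP)).2
  have h2 := (abs_le.1 (key S Q hS hQ)).1
  have h3 := prob_or_le (fun a => P (res (Nat.le_of_succ_le hN) (G a)))
    (fun a => !(Q (res (Nat.le_of_succ_le hN) (G a))))
  have h4 := prob_not (fun a => Q (res (Nat.le_of_succ_le hN) (G a)))
  have h5 := prob_not Q
  linarith

/-- `x ∧ (y ∨ z)`: by `test_guard` and `prob_guard`, `PrG[Q ∧ ¬P] ≥ PrG[t ∧ Q] - PrG[t ∧ P] ≥
Pr[Q] / 2 - Pr[P] / 2 - 2 e` (the inequality `|PrG[t ∧ P] - Pr[t ∧ P]| ≤ e` is trivial if `P` is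
constantly false), so `PrG[P ∨ ¬Q] = 1 - PrG[Q ∧ ¬P] ≤ 1 - (1 - Pr[¬Q] - Pr[P]) / 2 + 2 e`, which is
at most `Pr[P] + Pr[¬Q] + 1 / 2 + 2 e`. -/
theorem pair_guard (hh : BTest B K 3 fun x => x 0 && (x 1 || x 2))
    (he : 0 ≤ e) (hN : M + 1 ≤ N) (G : A → Fin N → Bool)
    (hG : ∀ T, BTest B (4 * K * (M + 1)) N T → |prob (fun a => T (G a)) - prob T| ≤ e) :
    FoolsPair M (1 / 2 + 2 * e) fun a => res (Nat.le_of_succ_le hN) (G a) := by
  have key : ∀ (S : ℕ) (R : BF M), 2 * S + 1 ≤ M → Gets false (bas M) S {R} →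
      |prob (fun a => G a ⟨M, hN⟩ && R (res (Nat.le_of_succ_le hN) (G a))) - prob R / 2| ≤ e := by
    intro S R hS hR
    rcases test_guard hh hN hS hR with hc | ht
    · have h1 : (fun a => G a ⟨M, hN⟩ && R (res (Nat.le_of_succ_le hN) (G a))) =
          fun _ => false := by
        funext a
        rw [hc]
        simp
      have h2 : prob R = 0 := by
        rw [hc]
        exact p7_false
      rw [h1, p7_false, h2]
      simpa using he
    · have h1 := hG _ ht
      rwa [prob_guard hN R] at h1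
  intro S P Q hS hP hQ
  have h1 := (abs_le.1 (key S P hS hP)).2
  have h2 := (abs_le.1 (key S Q hS hQ)).1
  have h3 := prob_not (fun a => P (res (Nat.le_of_succ_le hN) (G a)) ||
    !(Q (res (Nat.le_of_succ_le hN) (G a))))
  have h4 : prob (fun a => G a ⟨M, hN⟩ && Q (res (Nat.le_of_succ_le hN) (G a))) ≤
      prob (fun a => !(P (res (Nat.le_of_succ_le hN) (G a)) ||
        !(Q (res (Nat.le_of_succ_le hN) (G a))))) +
      prob (fun a => G a ⟨M, hN⟩ && P (res (Nat.le_of_succ_le hN) (G a))) := by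
    refine le_trans (prob_mono fun a => ?_) (prob_or_le _ _)
    cases G a ⟨M, hN⟩ <;> cases Q (res (Nat.le_of_succ_le hN) (G a)) <;>
      cases P (res (Nat.le_of_succ_le hN) (G a)) <;> simp
  have h5 := prob_not Q
  have h6 := prob_le_one Q
  have h7 := prob_nonneg P
  show prob (fun a => P (res (Nat.le_of_succ_le hN) (G a)) ||
    !(Q (res (Nat.le_of_succ_le hN) (G a)))) ≤ _
  linarith

/-- `x ∧ (y ∨ z)` and `x ∧ ¬y`: if `Q` is constantly false, then the right-hand side is at least
`Pr[¬Q] = 1`. Otherwise by `test_andnot`, `prob_guard` (with `f = Q ∧ ¬P`), `PrG[Q ∧ ¬P] ≥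
PrG[t ∧ Q ∧ ¬P] ≥ Pr[Q ∧ ¬P] / 2 - e`, so `PrG[P ∨ ¬Q] ≤ 1 - Pr[Q ∧ ¬P] / 2 + e =
1 / 2 + Pr[P ∨ ¬Q] / 2 + e ≤ 1 / 2 + e + Pr[P] + Pr[¬Q]`. -/
theorem pair_andnot (hh : BTest B K 3 fun x => x 0 && (x 1 || x 2))
    (hd : BTest B K 2 fun x => x 0 && !(x 1)) (he : 0 ≤ e) (hN : M + 1 ≤ N)
    (G : A → Fin N → Bool)
    (hG : ∀ T, BTest B (4 * K * (M + 1)) N T → |prob (fun a => T (G a)) - prob T| ≤ e) :
    FoolsPair M (1 / 2 + e) fun a => res (Nat.le_of_succ_le hN) (G a) := by
  intro S P Q hS hP hQ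
  have h3 := prob_not (fun a => P (res (Nat.le_of_succ_le hN) (G a)) ||
    !(Q (res (Nat.le_of_succ_le hN) (G a))))
  have h5 := prob_not Q
  have h7 := prob_nonneg P
  show prob (fun a => P (res (Nat.le_of_succ_le hN) (G a)) ||
    !(Q (res (Nat.le_of_succ_le hN) (G a)))) ≤ _
  rcases test_andnot hh hd hN hS hP hQ with hc | ht
  · have h1 : prob Q = 0 := by
      rw [hc]
      exact p7_false
    have h2 := prob_le_one (fun a => P (res (Nat.le_of_succ_le hN) (G a)) ||
      !(Q (res (Nat.le_of_succ_le hN) (G a))))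
    linarith
  · have h1 := (abs_le.1 (hG _ ht)).1
    have h2 := prob_guard hN (fun y => Q y && !(P y))
    have h4 : prob (fun a => G a ⟨M, hN⟩ && (Q (res (Nat.le_of_succ_le hN) (G a)) &&
        !(P (res (Nat.le_of_succ_le hN) (G a))))) ≤
        prob (fun a => !(P (res (Nat.le_of_succ_le hN) (G a)) ||
        !(Q (res (Nat.le_of_succ_le hN) (G a))))) := by
      refine prob_mono fun a => ?_
      cases G a ⟨M, hN⟩ <;> cases Q (res (Nat.le_of_succ_le hN) (G a)) <;>
        cases P (res (Nat.le_of_succ_le hN) (G a)) <;> simp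
    have h6 := prob_not (fun y => Q y && !(P y))
    have h8 : prob (fun y => !(Q y && !(P y))) ≤ prob P + prob (fun y => !(Q y)) := by
      refine le_trans (prob_mono fun y => ?_) (prob_or_le _ _)
      cases Q y <;> cases P y <;> simp
    have h9 := prob_nonneg (fun y => !(Q y))
    linarith

/-- OR, `x ∧ (y ∨ z)` and `x ∧ ¬y`: as `pair_andnot`, with `test_full`; now
`PrG[Q ∧ ¬P] ≥ PrG[t ∧ Q ∧ ¬P] ≥ Pr[t ∧ Q ∧ ¬P] - e ≥ Pr[Q ∧ ¬P] - Pr[¬t] - e`, and
`Pr[¬t] = (1 / 2) ^ M` (only the all-zero point of the cube of the first `M` bits, `prob_res`). -/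
theorem pair_full (ho : BTest B K 2 fun x => x 0 || x 1)
    (hh : BTest B K 3 fun x => x 0 && (x 1 || x 2)) (hd : BTest B K 2 fun x => x 0 && !(x 1))
    (he : 0 ≤ e) (hN : M + 1 ≤ N) (G : A → Fin N → Bool)
    (hG : ∀ T, BTest B (4 * K * (M + 1)) N T → |prob (fun a => T (G a)) - prob T| ≤ e) :
    FoolsPair M (e + (1 / 2) ^ M) fun a => res (Nat.le_of_succ_le hN) (G a) := by
  intro S P Q hS hP hQ
  have hM : M ≤ N := Nat.le_of_succ_le hN
  have h3 := prob_not (fun a => P (res hM (G a)) || !(Q (res hM (G a))))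
  have h5 := prob_not Q
  have h7 := prob_nonneg P
  have h10 : (0 : ℝ) ≤ (1 / 2) ^ M := by positivity
  show prob (fun a => P (res hM (G a)) || !(Q (res hM (G a)))) ≤ _
  rcases test_full ho hh hd hM hS hP hQ with hc | ht
  · have h1 : prob Q = 0 := by
      rw [hc]
      exact p7_false
    have h2 := prob_le_one (fun a => P (res hM (G a)) || !(Q (res hM (G a))))
    linarith
  · have h1 := (abs_le.1 (hG _ ht)).1
    have h2 := prob_res hM (fun y => decide (∃ i, y i = true) && (Q y && !(P y)))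
    have h4 : prob (fun a => decide (∃ i, res hM (G a) i = true) && (Q (res hM (G a)) &&
        !(P (res hM (G a))))) ≤
        prob (fun a => !(P (res hM (G a)) || !(Q (res hM (G a))))) := by
      refine prob_mono fun a => ?_
      cases decide (∃ i, res hM (G a) i = true) <;> cases Q (res hM (G a)) <;>
        cases P (res hM (G a)) <;> simp
    have h6 := prob_not (fun y => Q y && !(P y))
    have h8 : prob (fun y => !(Q y && !(P y))) ≤ prob P + prob (fun y => !(Q y)) := by
      refine le_trans (prob_mono fun y => ?_) (prob_or_le _ _)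
      cases Q y <;> cases P y <;> simp
    have h9 : prob (fun y => Q y && !(P y)) ≤
        prob (fun y => decide (∃ i, y i = true) && (Q y && !(P y))) +
        prob (fun y : Fin M → Bool => !(decide (∃ i, y i = true))) := by
      refine le_trans (prob_mono fun y => ?_) (prob_or_le _ _)
      cases decide (∃ i, y i = true) <;> cases Q y <;> cases P y <;> simp
    have h11 : prob (fun y : Fin M → Bool => !(decide (∃ i, y i = true))) = (1 / 2) ^ M := by
      have h12 : (Finset.univ.filter fun y : Fin M → Bool =>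
          (!(decide (∃ i, y i = true))) = true) = {fun _ => false} := by
        ext y
        simp only [Finset.mem_filter, Finset.mem_univ, true_and, Finset.mem_singleton,
          Bool.not_eq_true', decide_eq_false_iff_not, not_exists, Bool.not_eq_true]
        exact ⟨fun h => funext h, fun h i => by rw [h]⟩
      rw [prob, h12, Finset.card_singleton, Fintype.card_fun, Fintype.card_bool, Fintype.card_fin]
      push_cast
      rw [div_pow, one_pow]
    rw [h11] at h9
    have h13 : prob (fun x : Fin N → Bool => decide (∃ i, res hM x i = true) && (Q (res hM x) &&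
        !(P (res hM x)))) = prob (fun y => decide (∃ i, y i = true) && (Q y && !(P y))) := h2
    rw [h13] at h1
    linarith

end Pool.Agent.MP_ca1109_lc.Post
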