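import Pool.Agent.MP_ca1109_lc.Post.P1
import Pool.Agent.MP_ca1109_lc.MonoThreshold

/-!
# Generators against all circuits fool the circuits over every basis
-/

namespace Pool.Agent.MP_ca1109_lc.Post

open Set Pool.Agent.H66 Pool.Agent.MP_ca1109_lc.Mpg

/-- the literal `x i = a i` -/
def p11_lit {r : ℕ} (a : Fin r → Bool) (i : Fin r) : BF r := fun x => if a i = true then x i else !(x i)

/-- the literals of `a` -/
def p11_lits {r : ℕ} (a : Fin r → Bool) : List (BF r) := (List.finRange r).map (p11_lit a)

theorem p11_lits_length {r : ℕ} (a : Fin r → Bool) : (p11_lits a).length = r := by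
  rw [p11_lits, List.length_map, List.length_finRange]

/-- the conjunction of the literals of `a` -/
def p11_mt {r : ℕ} (a : Fin r → Bool) : BF r := fun x => (p11_lits a).all fun f => f x

theorem p11_lit_iff {r : ℕ} (a : Fin r → Bool) (i : Fin r) (x : Fin r → Bool) : p11_lit a i x = true ↔ a i = x i := by
  unfold p11_lit
  cases a i <;> cases x i <;> simp

theorem p11_mt_iff {r : ℕ} (a x : Fin r → Bool) : p11_mt a x = true ↔ a = x := by
  unfold p11_mt p11_lits
  rw [List.all_eq_true]
  constructor
  · intro h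
    funext i
    exact (p11_lit_iff a i x).1 (h _ (List.mem_map.2 ⟨i, List.mem_finRange i, rfl⟩))
  · rintro rfl f hf
    obtain ⟨i, -, rfl⟩ := List.mem_map.1 hf
    exact (p11_lit_iff a i a).2 rfl

/-- the coordinates, their negations and the constants -/
def p11_F (r : ℕ) : Set (BF r) := (⋃ i : Fin r, insert (fun x : Fin r → Bool => !(x i)) (bas r)) ∪ bas r

theorem p11_gets_F (r : ℕ) : Gets true (bas r) 0 (p11_F r) := by
  have h1 : Gets true (bas r) (Fintype.card (Fin r) * 0)
      (⋃ i : Fin r, insert (fun x : Fin r → Bool => !(x i)) (bas r)) :=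
    Gets.iUnion 0 _ (fun i => (Gets.refl true (bas r)).not rfl (inp_mem_bas i))
  exact (h1.union (Gets.refl true (bas r))).weaken subset_rfl (by omega) subset_rfl

theorem p11_lit_mem {r : ℕ} (a : Fin r → Bool) (i : Fin r) : p11_lit a i ∈ p11_F r := by
  unfold p11_lit p11_F
  by_cases h : a i = true
  · right
    simp only [h, if_true]
    exact inp_mem_bas i
  · left
    rw [mem_iUnion]
    refine ⟨i, ?_⟩
    simp only [h]
    exact mem_insert _ _

theorem p11_gets_mt {r : ℕ} (a : Fin r → Bool) : Gets true (bas r) r {p11_mt a} := by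
  have h := Gets.list_and (neg := true) (B := bas r) (F := p11_F r) (p11_lits a) (fun f hf => by
    obtain ⟨i, -, rfl⟩ := List.mem_map.1 hf
    exact p11_lit_mem a i) (Or.inr true_mem_bas) (p11_gets_F r)
  exact h.weaken subset_rfl (by rw [p11_lits_length]; omega) subset_rfl

/-- Every Boolean function is obtained with AND, OR and NOT gates from its arguments and the
constants. Proof: `g` is the disjunction over the accepted points `a` of the conjunctions over `i` of
`x i = a i` (`Gets.list`, `Gets.list_and`, `Gets.not`, `Gets.union`, `MonoDer.lean`). -/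
theorem gets_any {r : ℕ} (g : BF r) : ∃ K, Gets true (bas r) K {g} := by
  classical
  have h3 : Gets true (bas r) (Fintype.card (Fin r → Bool) * r) (⋃ a : Fin r → Bool, {p11_mt a}) :=
    Gets.iUnion r _ (fun a => p11_gets_mt a)
  have h4 := h3.union (Gets.refl true (bas r))
  have h5 := Gets.list (((Finset.univ.filter fun a => g a = true).toList).map p11_mt) (fun f hf => by
    obtain ⟨a, -, rfl⟩ := List.mem_map.1 hf
    exact Or.inl (mem_iUnion.2 ⟨a, rfl⟩)) (Or.inr false_mem_bas) h4
  have e : (fun x => (((Finset.univ.filter fun a => g a = true).toList).map p11_mt).any fun f => f x) = g := by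
    funext x
    rw [Bool.eq_iff_iff, List.any_eq_true]
    constructor
    · rintro ⟨f, hf, hx⟩
      obtain ⟨a, ha, rfl⟩ := List.mem_map.1 hf
      rw [p11_mt_iff] at hx
      rw [Finset.mem_toList, Finset.mem_filter] at ha
      rw [← hx]
      exact ha.2
    · intro hx
      refine ⟨p11_mt x, List.mem_map.2 ⟨x, ?_, rfl⟩, (p11_mt_iff x x).2 rfl⟩
      rw [Finset.mem_toList, Finset.mem_filter]
      exact ⟨Finset.mem_univ _, hx⟩
  rw [e] at h5
  exact ⟨_, h5⟩

theorem p11_gates {B : Basis} {K : ℕ} (hK : ∀ i, Gets true (bas (B.arity i)) K {B.fn i}) {m : ℕ} :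
    ∀ {n : ℕ} (C : BGates B m n),
      Gets true (bas m) (K * n) (bas m ∪ range fun w : Fin (m + n) => fun x => C.eval x w)
  | _, .nil => by
    refine Gets.of_subset ?_
    rintro f (hf | ⟨w, rfl⟩)
    · exact hf
    · exact inp_mem_bas w
  | _, .snoc (n := n) C i w => by
    have ih := p11_gates hK C
    have h1 := (hK i).pull (fun x : Fin m → Bool => fun j => C.eval x (w j))
    have h2 : Gets true (bas m ∪ (bas m ∪ range fun w : Fin (m + n) => fun x => C.eval x w)) K
        ((fun f : BF (B.arity i) => fun x : Fin m → Bool => f (fun j => C.eval x (w j))) '' {B.fn i}) := by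
      refine h1.weaken ?_ le_rfl subset_rfl
      rintro _ ⟨f, hf, rfl⟩
      rcases hf with ⟨j, rfl⟩ | (hf | hf)
      · exact Or.inr (Or.inr ⟨w j, rfl⟩)
      · left
        rw [hf]
        exact false_mem_bas
      · left
        rw [mem_singleton_iff.1 hf]
        exact true_mem_bas
    have h3 := ih.trans h2
    refine h3.weaken subset_rfl (by rw [Nat.mul_add, Nat.mul_one]) ?_
    rintro f (hf | ⟨v, rfl⟩)
    · exact Or.inl (Or.inl hf)
    · refine Fin.lastCases (motive := fun v : Fin (m + n + 1) => (fun x =>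
        (BGates.snoc C i w).eval x v) ∈ (bas m ∪ (bas m ∪ range fun w : Fin (m + n) => fun x => C.eval x w)) ∪
        ((fun f : BF (B.arity i) => fun x : Fin m → Bool => f (fun j => C.eval x (w j))) '' {B.fn i}))
        ?_ (fun v => ?_) v
      · right
        refine ⟨B.fn i, rfl, ?_⟩
        funext x
        exact (BGates.eval_snoc_last C i w x).symm
      · left; right; right
        refine ⟨v, ?_⟩
        funext x
        exact (BGates.eval_snoc_castSucc C i w x v).symm

/-- Every basis is simulated at a constant cost. Proof: let `K` be the maximum of the costs of the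
functions `B.fn i` (`gets_any`). For `C : BGates B m n` show by induction
`Gets true (bas m) (K * n) (bas m ∪ range fun w : Fin (m + n) => fun x => C.eval x w)`; for a gate
`i, w` pull the derivation of `B.fn i` along `φ x = fun j => C.eval x (w j)` (`Gets.pull`), which
turns `bas (B.arity i)` into functions which are already computed. -/
theorem gets_btest (B : Basis) :
    ∃ K, ∀ (m s : ℕ) (T : BF m), BTest B s m T → Gets true (bas m) (K * s) {T} := by
  classical
  have hch : ∀ i, ∃ K, Gets true (bas (B.arity i)) K {B.fn i} := fun i => gets_any (B.fn i)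
  choose Ki hKi using hch
  have hK : ∀ i, Gets true (bas (B.arity i)) (Finset.univ.sup Ki) {B.fn i} := fun i =>
    (hKi i).weaken subset_rfl (Finset.le_sup (Finset.mem_univ i)) subset_rfl
  refine ⟨Finset.univ.sup Ki, ?_⟩
  rintro m s T ⟨n, hn, C, w, hT⟩
  refine (p11_gates hK C).weaken subset_rfl (Nat.mul_le_mul_left _ hn) ?_
  rw [singleton_subset_iff]
  exact Or.inr ⟨w, funext fun x => (hT x).symm⟩

/-- A function given by a derivation with NOT gates is constant or computed by a circuit. -/
theorem p11_circuit {m s : ℕ} {f : BF m} (h : Gets true (bas m) s {f}) :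
    f ∈ cst (Fin m → Bool) ∨ ∃ C : Circuit m, C.size ≤ s ∧ ∀ x, C.eval x = f x := by
  obtain ⟨s₁, h1, F₁, h2, h3⟩ := h
  obtain ⟨n, C, h4, -, h6⟩ := h3.gates
  rcases h6 f (h2 rfl) with hc | ⟨w, hw⟩
  · exact Or.inl hc
  · exact Or.inr ⟨⟨n, C, w⟩, h4.trans h1, hw⟩

/-- the number of bits of the large generator -/
def p11_N (K k m : ℕ) : ℕ := (K + 1) * (m + 1) ^ (k + 1)

theorem p11_le (K k m : ℕ) : m ≤ p11_N K k m := by
  unfold p11_N
  calc m ≤ m + 1 := Nat.le_succ m
    _ = 1 * (m + 1) ^ 1 := by ring
    _ ≤ (K + 1) * (m + 1) ^ (k + 1) :=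
      Nat.mul_le_mul (by omega) (Nat.pow_le_pow_right (Nat.succ_pos m) (by omega))

theorem p11_le' (K k m : ℕ) : K * m ^ k ≤ p11_N K k m := by
  unfold p11_N
  refine Nat.mul_le_mul (by omega) ?_
  exact (Nat.pow_le_pow_left (Nat.le_succ m) k).trans (Nat.pow_le_pow_right (Nat.succ_pos m) (by omega))

theorem p11_pow (K k m : ℕ) (hm : 2 ≤ m) (hK : K + 1 ≤ m) : p11_N K k m ≤ m ^ (2 * k + 3) := by
  unfold p11_N
  calc (K + 1) * (m + 1) ^ (k + 1) ≤ m * (m ^ 2) ^ (k + 1) :=
        Nat.mul_le_mul hK (Nat.pow_le_pow_left (by nlinarith) _)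
    _ = m ^ (2 * k + 3) := by rw [← pow_mul, ← pow_succ']; congr 1

theorem p11_poly (K k : ℕ) : PolyTime (p11_N K k) := by
  have h := PolyTime.polyEval (Polynomial.C (K + 1) * (Polynomial.X + 1) ^ (k + 1)) (PolyTime.id (α := ℕ))
  refine h.of_eq fun m => ?_
  simp [p11_N]

theorem p11_log (c : ℝ) (hc : 0 ≤ c) : ∀ᶠ m : ℕ in Filter.atTop, c * Real.logb 2 m < m := by
  have h1 := Real.isLittleO_log_id_atTop
  have hl2 : 0 < Real.log 2 := Real.log_pos (by norm_num)
  have h2 : ∀ᶠ x : ℝ in Filter.atTop, ‖Real.log x‖ ≤ (Real.log 2 / (2 * (c + 1))) * ‖id x‖ :=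
    h1.def (by positivity)
  have h3 := tendsto_natCast_atTop_atTop (R := ℝ) |>.eventually h2
  filter_upwards [h3, Filter.eventually_ge_atTop 1] with m hm hm1
  have hm1' : (1 : ℝ) ≤ m := by exact_mod_cast hm1
  rw [id, Real.norm_of_nonneg (Real.log_nonneg hm1'), Real.norm_of_nonneg (by linarith)] at hm
  have e : c * Real.logb 2 m = c * Real.log m / Real.log 2 := by
    unfold Real.logb
    ring
  rw [e, div_lt_iff₀ hl2]
  have h4 : c * Real.log m ≤ c * (Real.log 2 / (2 * (c + 1)) * m) := mul_le_mul_of_nonneg_left hm hc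
  refine h4.trans_lt ?_
  have h5 : c * (Real.log 2 / (2 * (c + 1)) * m) = (m * Real.log 2) * (c / (2 * (c + 1))) := by ring
  have h6 : c / (2 * (c + 1)) < 1 := by
    rw [div_lt_one (by positivity)]
    linarith
  rw [h5]
  have h7 : 0 < (m : ℝ) * Real.log 2 := by positivity
  calc (m * Real.log 2) * (c / (2 * (c + 1))) < (m * Real.log 2) * 1 := mul_lt_mul_of_pos_left h6 h7
    _ = m * Real.log 2 := mul_one _

/-- the first `m` bits of the output of the large generator -/
def p11_G (G : ℕ → List Bool → List Bool) (K k m : ℕ) (s : List Bool) : List Bool :=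
  (List.range m).map fun i => (G (p11_N K k m) s).getD i false

theorem p11_G_poly {G : ℕ → List Bool → List Bool} (hG : PolyTime (fun p : ℕ × List Bool => G p.1 p.2)) (K k : ℕ) :
    PolyTime (fun p : ℕ × List Bool => p11_G G K k p.1 p.2) := by
  have h1 : PolyTime (fun p : ℕ × List Bool => G (p11_N K k p.1) p.2) :=
    hG.comp (((p11_poly K k).comp PolyTime.fst).pair PolyTime.snd)
  exact PolyTime.map (f := fun (p : ℕ × List Bool) (i : ℕ) => (G (p11_N K k p.1) p.2).getD i false)
    (PolyTime.range PolyTime.fst) (PolyTime.getD PolyTime.snd (h1.comp PolyTime.fst) false)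

theorem p11_bits (G : ℕ → List Bool → List Bool) (K k m : ℕ) (s : List Bool) :
    bits m (p11_G G K k m s) = fun i => bits (p11_N K k m) (G (p11_N K k m) s) (Fin.castLE (p11_le K k m) i) := by
  funext i
  unfold bits p11_G
  rw [List.getD_eq_getElem?_getD, List.getElem?_map, List.getElem?_range i.2]
  rfl

/-- A generator against all circuits gives generators against the circuits of polynomial size over
every basis.
Proof: by `threshold` (parts 1, twice) we have `(d, G)` for `GenExists (fun _ _ => True) ε` with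
`ε = min e (1 / 2)`. Let `K` be as in `gets_btest`, `N m = (K + 1) * (m + 1) ^ (k + 1)`, so
`m ≤ N m` and `K * m ^ k ≤ N m`. Take `D m = d (N m)`, `G' m s = (G (N m) s).take m`. If
`BTest B (m ^ k) m T` then `fun x => T (first m bits of x)` is (`Gets.pull`, `Der.gates` with
`neg = true`) constant or computed by a circuit of size at most `K * m ^ k ≤ N m` on `N m` inputs,
so it is fooled up to `ε`; `bits m (G' m s)` are the first `m` bits of `bits (N m) (G (N m) s)`, and
`prob_marginal`. `D m ≤ c' * logb 2 m` as in `gen_of_key`, and `c' * logb 2 m < m` for large `m`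
(`pow_le_of_logb` and the argument in `UFam.gen`, or `Real.isLittleO_log_id_atTop`). Polynomial time
of `take`: `PolyTime.map` over `List.range m` of `getD`, or a lemma of
`Pool/Agent/Lib/helper66`. -/
theorem gen_large (h : GenExists (fun _ _ => True) (1 / 8)) (B : Basis) (k : ℕ) {e : ℝ}
    (he : 0 < e) : LogGen (fun m T => BTest B (m ^ k) m T) e := by
  obtain ⟨ε, hε⟩ : ∃ ε : ℝ, ε = min e (1 / 2) := ⟨_, rfl⟩
  have hε0 : 0 < ε := by rw [hε]; exact lt_min he (by norm_num)
  have hε1 : ε < 1 := by rw [hε]; exact lt_of_le_of_lt (min_le_right _ _) (by norm_num)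
  have hεe : ε ≤ e := by rw [hε]; exact min_le_left _ _
  have h1 : GenExists (fun _ C => C.nots ≤ 1) (1 / 8) :=
    (threshold.1 (1 / 8) (1 / 8) (by norm_num) (by norm_num) (by norm_num) (by norm_num)).2 h
  obtain ⟨d, G, hd, hG, hl, c, hc⟩ :=
    (threshold.1 (1 / 8) ε (by norm_num) (by norm_num) hε0 hε1).1 h1
  obtain ⟨K, hK⟩ := gets_btest B
  refine ⟨fun m => d (p11_N K k m), p11_G G K k, hd.comp (p11_poly K k), p11_G_poly hG K k, ?_,
    |c| * (2 * k + 3), ?_⟩
  · intro m s _
    rw [p11_G, List.length_map, List.length_range]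
  have hN : Filter.Tendsto (p11_N K k) Filter.atTop Filter.atTop :=
    Filter.tendsto_atTop_mono (p11_le K k) Filter.tendsto_id
  filter_upwards [hN.eventually hc, p11_log (|c| * (2 * k + 3)) (by positivity), Filter.eventually_ge_atTop 2,
    Filter.eventually_ge_atTop (K + 1)] with m hm hlog hm2 hmK
  obtain ⟨hm1, -, hm3⟩ := hm
  have hm0 : (1 : ℝ) < m := by exact_mod_cast hm2
  have hbound : (d (p11_N K k m) : ℝ) ≤ |c| * (2 * k + 3) * Real.logb 2 m := by
    have h2 : (p11_N K k m : ℝ) ≤ (m : ℝ) ^ (2 * k + 3) := by exact_mod_cast p11_pow K k m hm2 hmK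
    have h3 : (0 : ℝ) < (p11_N K k m : ℝ) := by
      have : 0 < p11_N K k m := lt_of_lt_of_le (by omega) (p11_le K k m)
      exact_mod_cast this
    have h4 := Real.logb_le_logb_of_le (by norm_num : (1 : ℝ) < 2) h3 h2
    rw [Real.logb_pow] at h4
    have h5 : 1 ≤ (p11_N K k m : ℝ) := by
      have : 1 ≤ p11_N K k m := le_trans (by omega) (p11_le K k m)
      exact_mod_cast this
    have h6 : 0 ≤ Real.logb 2 (p11_N K k m) := Real.logb_nonneg (by norm_num) h5
    calc (d (p11_N K k m) : ℝ) ≤ c * Real.logb 2 (p11_N K k m) := hm1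
      _ ≤ |c| * Real.logb 2 (p11_N K k m) := mul_le_mul_of_nonneg_right (le_abs_self c) h6
      _ ≤ |c| * (((2 * k + 3 : ℕ) : ℝ) * Real.logb 2 m) := mul_le_mul_of_nonneg_left h4 (abs_nonneg c)
      _ = |c| * (2 * k + 3) * Real.logb 2 m := by push_cast; ring
  refine ⟨hbound, ?_, ?_⟩
  · have h2 : (d (p11_N K k m) : ℝ) < (m : ℝ) := lt_of_le_of_lt hbound hlog
    exact_mod_cast h2
  · intro T hT
    have hg := hK m (m ^ k) T hT
    have hg2 := hg.pull (fun x : Fin (p11_N K k m) → Bool => fun i : Fin m => x (Fin.castLE (p11_le K k m) i))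
    have hg3 : Gets true (bas (p11_N K k m)) (K * m ^ k)
        {fun x : Fin (p11_N K k m) → Bool => T (fun i : Fin m => x (Fin.castLE (p11_le K k m) i))} := by
      refine hg2.weaken ?_ le_rfl ?_
      · rintro _ ⟨f, hf, rfl⟩
        rcases hf with ⟨j, rfl⟩ | (hf | hf)
        · exact inp_mem_bas _
        · rw [hf]
          exact false_mem_bas
        · rw [mem_singleton_iff.1 hf]
          exact true_mem_bas
      · rw [image_singleton]
    have e1 : prob (fun s : Fin (d (p11_N K k m)) → Bool => T (bits m (p11_G G K k m (List.ofFn s)))) =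
        prob (fun s : Fin (d (p11_N K k m)) → Bool => (fun x : Fin (p11_N K k m) → Bool =>
          T (fun i : Fin m => x (Fin.castLE (p11_le K k m) i))) (bits (p11_N K k m) (G (p11_N K k m) (List.ofFn s)))) := by
      simp only [p11_bits]
    have e2 : prob T = prob (fun x : Fin (p11_N K k m) → Bool => T (fun i : Fin m => x (Fin.castLE (p11_le K k m) i))) :=
      (prob_marginal (fun i : Fin m => Fin.castLE (p11_le K k m) i) (Fin.castLE_injective _) T).symm
    show |prob (fun s : Fin (d (p11_N K k m)) → Bool => T (bits m (p11_G G K k m (List.ofFn s)))) - prob T| ≤ e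
    rw [e1, e2]
    generalize (fun x : Fin (p11_N K k m) → Bool => T (fun i : Fin m => x (Fin.castLE (p11_le K k m) i))) = T' at hg3 ⊢
    have hconst : ∀ (A : Type) [Fintype A] [Nonempty A], prob (fun _ : A => true) = 1 := by
      intro A _ _
      unfold prob
      rw [Finset.filter_true_of_mem (fun _ _ => rfl), Finset.card_univ]
      exact div_self (Nat.cast_ne_zero.2 Fintype.card_ne_zero)
    have hconst' : ∀ (A : Type) [Fintype A], prob (fun _ : A => false) = 0 := by
      intro A _
      unfold prob
      rw [Finset.filter_false_of_mem (fun _ _ => Bool.false_ne_true), Finset.card_empty, Nat.cast_zero, zero_div]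
    rcases p11_circuit hg3 with (hf | hf) | ⟨C, hC1, hC2⟩
    · rw [hf, hconst', hconst', sub_zero, abs_zero]
      exact he.le
    · rw [mem_singleton_iff.1 hf, hconst, hconst, sub_self, abs_zero]
      exact he.le
    · have h7 := hm3 C trivial (hC1.trans (p11_le' K k m))
      unfold advantage at h7
      simp only [hC2] at h7
      exact h7.trans hεe

end Pool.Agent.MP_ca1109_lc.Post
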