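import Pool.Agent.MP_ca1109_lc.Post.P1b

/-!
# Properties inherited by circuits

All proofs: `BGates.induct`, i.e. the property holds for the coordinates and is preserved by
composition.
-/

namespace Pool.Agent.MP_ca1109_lc.Post

variable {B : Basis} {m : ℕ} {T : BF m}

theorem c1_induct (P : BF m → Prop) (h0 : ∀ i, P fun x => x i)
    (h1 : ∀ i (g : Fin (B.arity i) → BF m), (∀ j, P (g j)) → P fun x => B.fn i fun j => g j x)
    (hT : BAny B m T) : P T := by
  obtain ⟨s, n, _, C, w, hw⟩ := hT
  have h2 := BGates.induct P h0 h1 C w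
  have h3 : T = fun x => C.eval x w := funext hw
  rw [h3]
  exact h2

/-- A composition of affine functions is affine. -/
theorem BAny.affine (h : ∀ i, Affine (B.fn i)) (hT : BAny B m T) : Affine T := by
  refine c1_induct (B := B) Affine (fun i => ?_) (fun i g hg => ?_) hT
  · refine ⟨fun j => if j = i then 1 else 0, 0, fun x => ?_⟩
    rw [zero_add, Finset.sum_eq_single i]
    · simp
    · intro j _ hj
      show (if j = i then (1 : ZMod 2) else 0) * _ = 0
      rw [if_neg hj, zero_mul]
    · intro hi
      exact absurd (Finset.mem_univ i) hi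
  · obtain ⟨a, b, hab⟩ := h i
    choose c d hcd using hg
    refine ⟨fun k => ∑ j, a j * c j k, b + ∑ j, a j * d j, fun x => ?_⟩
    rw [hab]
    have h1 : ∑ j, a j * (if g j x then 1 else 0 : ZMod 2) =
        ∑ j, a j * d j + ∑ k, (∑ j, a j * c j k) * (if x k then 1 else 0 : ZMod 2) := by
      simp only [hcd, mul_add, Finset.sum_add_distrib, Finset.mul_sum, Finset.sum_mul]
      congr 1
      rw [Finset.sum_comm]
      refine Finset.sum_congr rfl fun k _ => Finset.sum_congr rfl fun j _ => ?_
      rw [mul_assoc]
    rw [h1, add_assoc]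

/-- A conjunction (over `S`) of conjunctions (over `S j`) is the conjunction over the union of the
`S j`, `j ∈ S`; if one of them is constantly false, so is the composition. -/
theorem BAny.isAnd (h : ∀ i, IsAnd (B.fn i)) (hT : BAny B m T) : IsAnd T := by
  classical
  refine c1_induct (B := B) IsAnd (fun i => ?_) (fun i g hg => ?_) hT
  · refine Or.inr ⟨{i}, fun x => ?_⟩
    simp
  · rcases h i with h1 | ⟨S, hS⟩
    · exact Or.inl fun x => h1 _
    · by_cases h2 : ∃ j ∈ S, ∀ x, g j x = false
      · obtain ⟨j, hj, hj2⟩ := h2
        refine Or.inl fun x => ?_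
        rw [Bool.eq_false_iff]
        intro hx
        have h3 := (hS _).1 hx j hj
        rw [hj2 x] at h3
        exact Bool.false_ne_true h3
      · push Not at h2
        have h3 : ∀ j, ∃ R : Finset (Fin m), j ∈ S → ∀ x, g j x = true ↔ ∀ k ∈ R, x k = true := by
          intro j
          by_cases hj : j ∈ S
          · obtain ⟨x, hx⟩ := h2 j hj
            rcases hg j with h4 | ⟨R, hR⟩
            · exact absurd (h4 x) hx
            · exact ⟨R, fun _ => hR⟩
          · exact ⟨∅, fun h => absurd h hj⟩
        choose R hR using h3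
        refine Or.inr ⟨S.biUnion R, fun x => ?_⟩
        rw [hS]
        constructor
        · intro h4 k hk
          obtain ⟨j, hj, hjk⟩ := Finset.mem_biUnion.1 hk
          exact (hR j hj x).1 (h4 j hj) k hjk
        · intro h4 j hj
          exact (hR j hj x).2 fun k hk => h4 k (Finset.mem_biUnion.2 ⟨j, hj, hk⟩)

theorem BAny.selfDual (h : ∀ i, SelfDual (B.fn i)) (hT : BAny B m T) : SelfDual T := by
  refine c1_induct (B := B) SelfDual (fun i => ?_) (fun i g hg => ?_) hT
  · intro x
    rfl
  · intro x
    show (B.fn i fun j => g j fun k => !(x k)) = !(B.fn i fun j => g j x)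
    rw [← h i]
    congr 1
    funext j
    exact hg j x

theorem BAny.mono (h : ∀ i, Mono (B.fn i)) (hT : BAny B m T) : Mono T := by
  refine c1_induct (B := B) Mono (fun i => ?_) (fun i g hg => ?_) hT
  · intro x y hxy hx
    exact hxy i hx
  · intro x y hxy hx
    exact h i _ _ (fun j hj => hg j x y hxy hj) hx

theorem BAny.idem (h : ∀ i, Idem (B.fn i)) (hT : BAny B m T) : Idem T := by
  refine c1_induct (B := B) Idem (fun i => ?_) (fun i g hg => ?_) hT
  · exact ⟨rfl, rfl⟩
  · constructor
    · show (B.fn i fun j => g j fun _ => false) = false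
      rw [show (fun j => g j fun _ => false) = fun _ => false from funext fun j => (hg j).1]
      exact (h i).1
    · show (B.fn i fun j => g j fun _ => true) = true
      rw [show (fun j => g j fun _ => true) = fun _ => true from funext fun j => (hg j).2]
      exact (h i).2

/-- If `f (g x) = f (g y) = 1` then `g j x = g j y = 1` for some `j` as `f` is intersecting, hence
`x i = y i = 1` for some `i` as `g j` is intersecting. -/
theorem BAny.inter (h : ∀ i, Inter (B.fn i)) (hT : BAny B m T) : Inter T := by
  refine c1_induct (B := B) Inter (fun i => ?_) (fun i g hg => ?_) hT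
  · intro x y hx hy
    exact ⟨i, hx, hy⟩
  · intro x y hx hy
    obtain ⟨j, hj1, hj2⟩ := h i _ _ hx hy
    exact hg j x y hj1 hj2

end Pool.Agent.MP_ca1109_lc.Post
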