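import Pool.Agent.MP_ca1109_lc.Post.Defs

/-!
# Circuits over an arbitrary finite basis: auxiliary definitions
-/

namespace Pool.Agent.MP_ca1109_lc.Post

open Pool.Agent.H66 Pool.Agent.MP_ca1109_lc.Mpg

/-- Straight-line computations over the basis `B`. -/
inductive BDer (B : Basis) {α : Type*} (base : Set (α → Bool)) : ℕ → Set (α → Bool) → Prop
  | base : BDer B base 0 base
  | gate {s : ℕ} {F : Set (α → Bool)} (h : BDer B base s F) (i : Fin B.card)
      (f : Fin (B.arity i) → α → Bool) (hf : ∀ j, f j ∈ F) :
      BDer B base (s + 1) (insert (fun x => B.fn i fun j => f j x) F)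

/-- At most `s` gates from `B` give at least the functions of `F`. -/
def BGets (B : Basis) {α : Type*} (base : Set (α → Bool)) (s : ℕ) (F : Set (α → Bool)) : Prop :=
  ∃ s' ≤ s, ∃ F', F ⊆ F' ∧ BDer B base s' F'

/-- The function `g` is computed by some circuit over `B`: it belongs to the clone of `B`. -/
def Cl (B : Basis) (r : ℕ) (g : (Fin r → Bool) → Bool) : Prop := BAny B r g

/-- Unary functions of the clone. -/
def Cl1 (B : Basis) (u : Bool → Bool) : Prop := Cl B 1 fun x => u (x 0)

/-- Binary functions of the clone. -/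
def Cl2 (B : Basis) (u : Bool → Bool → Bool) : Prop := Cl B 2 fun x => u (x 0) (x 1)

/-- Ternary functions of the clone. -/
def Cl3 (B : Basis) (u : Bool → Bool → Bool → Bool) : Prop := Cl B 3 fun x => u (x 0) (x 1) (x 2)

/-- The dual function. -/
def dl {r : ℕ} (f : (Fin r → Bool) → Bool) : (Fin r → Bool) → Bool :=
  fun x => !(f fun i => !(x i))

/-- The dual basis. -/
def Basis.dual (B : Basis) : Basis where
  card := B.card
  arity := B.arity
  fn i := dl (B.fn i)

end Pool.Agent.MP_ca1109_lc.Post
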