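import Pool.Agent.MP_ca1109_lc.Post.Defs2

/-!
# Derivations over a basis

Model: `Pool/Agent/MP_ca1109_lc/MonoDer.lean` (the same calculus for AND, OR, NOT gates) and
`MonoCirc.lean` (`Der.gates`, `gates_gets`); the proofs there can be copied almost literally.
-/

namespace Pool.Agent.MP_ca1109_lc.Post

open Set

variable {B : Basis} {α β : Type*} {base base' F F' : Set (α → Bool)} {s s' : ℕ}

theorem BDer.base_subset (h : BDer B base s F) : base ⊆ F := by
  induction h with
  | base => exact subset_rfl
  | gate _ _ _ _ ih => exact ih.trans (subset_insert _ _)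

theorem BDer.append (h : BDer B base s F) (h' : BDer B F s' F') : BDer B base (s + s') F' := by
  induction h' with
  | base => exact h
  | gate _ i f hf ih => exact ih.gate i f hf

theorem BDer.union (h : BDer B base s F) (base' : Set (α → Bool)) :
    BDer B (base ∪ base') s (F ∪ base') := by
  induction h with
  | base => exact BDer.base
  | gate _ i f hf ih =>
    rw [insert_union]
    exact ih.gate i f fun j => Or.inl (hf j)

theorem BGets.refl (B : Basis) (base : Set (α → Bool)) : BGets B base 0 base :=
  ⟨0, le_rfl, base, subset_rfl, BDer.base⟩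

theorem BGets.weaken (h : BGets B base s F) (hB : base ⊆ base') (hs : s ≤ s') (hF : F' ⊆ F) :
    BGets B base' s' F' := by
  obtain ⟨s₁, h1, F₁, h2, h3⟩ := h
  refine ⟨s₁, h1.trans hs, F₁ ∪ base', (hF.trans h2).trans subset_union_left, ?_⟩
  have h4 := h3.union base'
  rwa [union_eq_self_of_subset_left hB] at h4

theorem BGets.trans' (h : BGets B base s F) (h' : BGets B (base ∪ F) s' F') :
    BGets B base (s + s') (base ∪ F ∪ F') := by
  obtain ⟨s₁, h1, F₁, h2, h3⟩ := h
  obtain ⟨s₂, h4, F₂, h5, h6⟩ := h'
  have h7 : base ∪ F ⊆ F₁ := union_subset h3.base_subset h2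
  have h8 := h6.union F₁
  rw [union_eq_self_of_subset_left h7] at h8
  refine ⟨s₁ + s₂, Nat.add_le_add h1 h4, F₂ ∪ F₁, ?_, h3.append h8⟩
  exact union_subset (h7.trans subset_union_right) (h5.trans subset_union_left)

theorem BGets.union (h : BGets B base s F) (h' : BGets B base s' F') :
    BGets B base (s + s') (F ∪ F') :=
  (h.trans' (h'.weaken subset_union_left le_rfl subset_rfl)).weaken subset_rfl le_rfl
    (union_subset_union_left _ subset_union_right)

theorem p1_biUnion {ι : Type*} (T : Finset ι) (c : ι → ℕ) (F : ι → Set (α → Bool))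
    (h : ∀ i ∈ T, BGets B base (c i) (F i)) : BGets B base (∑ i ∈ T, c i) (⋃ i ∈ T, F i) := by
  classical
  induction T using Finset.induction_on with
  | empty =>
    refine (BGets.refl B base).weaken subset_rfl (by simp) ?_
    simp
  | insert i T hi ih =>
    rw [Finset.sum_insert hi, Finset.set_biUnion_insert]
    exact (h i (Finset.mem_insert_self _ _)).union
      (ih fun j hj => h j (Finset.mem_insert_of_mem hj))

theorem BGets.iUnion {ι : Type*} [Fintype ι] (c : ℕ) (F : ι → Set (α → Bool))
    (h : ∀ i, BGets B base c (F i)) : BGets B base (Fintype.card ι * c) (⋃ i, F i) := by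
  have h1 := p1_biUnion (Finset.univ : Finset ι) (fun _ => c) F fun i _ => h i
  simpa using h1

theorem BGates.eval_snoc_last {m n : ℕ} (C : BGates B m n) (i : Fin B.card)
    (w : Fin (B.arity i) → Fin (m + n)) (x : Fin m → Bool) :
    (BGates.snoc C i w).eval x (Fin.last _) = B.fn i fun j => C.eval x (w j) := by
  show Fin.snoc (α := fun _ => Bool) (BGates.eval x C)
    (B.fn i fun j => BGates.eval x C (w j)) (Fin.last _) = _
  rw [Fin.snoc_last]

theorem BGates.eval_snoc_castSucc {m n : ℕ} (C : BGates B m n) (i : Fin B.card)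
    (w : Fin (B.arity i) → Fin (m + n)) (x : Fin m → Bool) (v : Fin (m + n)) :
    (BGates.snoc C i w).eval x v.castSucc = C.eval x v := by
  show Fin.snoc (α := fun _ => Bool) (BGates.eval x C)
    (B.fn i fun j => BGates.eval x C (w j)) v.castSucc = _
  rw [Fin.snoc_castSucc]

theorem p1_gates {r n : ℕ} (C : BGates B r n) (f : Fin r → α → Bool) (hf : ∀ j, f j ∈ F) :
    BGets B F n (F ∪ range fun w : Fin (r + n) => fun x => C.eval (fun j => f j x) w) := by
  induction C with
  | nil =>
    refine (BGets.refl B F).weaken subset_rfl le_rfl ?_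
    refine union_subset subset_rfl ?_
    rintro _ ⟨w, rfl⟩
    exact hf w
  | @snoc n C i w ih =>
    obtain ⟨s₁, h1, F₁, h2, h3⟩ := ih
    refine ⟨s₁ + 1, Nat.add_le_add_right h1 1, _, ?_,
      h3.gate i (fun j => fun x => C.eval (fun j => f j x) (w j))
        fun j => h2 (Or.inr ⟨w j, rfl⟩)⟩
    rintro g (hg | ⟨v, rfl⟩)
    · exact Or.inr (h2 (Or.inl hg))
    · refine Fin.lastCases (motive := fun v : Fin (r + n + 1) =>
        (fun x => (BGates.snoc C i w).eval (fun j => f j x) v) ∈ insert
          (fun x => B.fn i fun j => (fun j => fun x => C.eval (fun j => f j x) (w j)) j x) F₁)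
        ?_ (fun v => ?_) v
      · left
        funext x
        exact BGates.eval_snoc_last C i w _
      · right
        have : (fun x => (BGates.snoc C i w).eval (fun j => f j x) v.castSucc) =
            fun x => C.eval (fun j => f j x) v := by
          funext x
          exact BGates.eval_snoc_castSucc C i w _ v
        rw [this]
        exact h2 (Or.inr ⟨v, rfl⟩)

theorem p1_der {m : ℕ} {F : Set (BF m)} (h : BDer B (inp m) s F) :
    ∃ C : BGates B m s, ∀ f ∈ F, ∃ w, ∀ x, f x = C.eval x w := by
  induction h with
  | base =>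
    refine ⟨.nil, ?_⟩
    rintro _ ⟨i, rfl⟩
    exact ⟨i, fun x => rfl⟩
  | @gate s F h i f hf ih =>
    obtain ⟨C, hC⟩ := ih
    choose w hw using fun j => hC (f j) (hf j)
    refine ⟨.snoc C i w, ?_⟩
    rintro g (rfl | hg)
    · refine ⟨Fin.last _, fun x => ?_⟩
      rw [BGates.eval_snoc_last]
      exact congrArg (B.fn i) (funext fun j => hw j x)
    · obtain ⟨v, hv⟩ := hC g hg
      refine ⟨v.castSucc, fun x => ?_⟩
      rw [BGates.eval_snoc_castSucc]
      exact hv x

/-- Substitution: a function computed by `K` gates from its arguments may be applied to functions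
which are already computed.
Proof: for a sequence of gates `C : BGates B r n` show by induction on `C` that
`BGets B F n (F ∪ range fun w : Fin (r + n) => fun x => C.eval (fun j => f j x) w)`
(`nil`: the wires are the `f j ∈ F`; `snoc`: one gate applied to members of the set). Then compose
with `h` (`BGets.trans'`). -/
theorem BGets.subst {K r : ℕ} {g : BF r} (hg : BTest B K r g) (h : BGets B base s F)
    (f : Fin r → α → Bool) (hf : ∀ j, f j ∈ F) :
    BGets B base (s + K) (insert (fun x => g fun j => f j x) F) := by
  obtain ⟨n, hn, C, w, hw⟩ := hg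
  have h1 := p1_gates C f hf
  have h2 := h.trans' (h1.weaken subset_union_right hn subset_rfl)
  refine h2.weaken subset_rfl le_rfl ?_
  rintro u (rfl | hu)
  · refine Or.inr (Or.inr ⟨w, ?_⟩)
    funext x
    exact (hw _).symm
  · exact Or.inr (Or.inl hu)

/-- Circuits and derivations.
Proof. `→`: `BGets.subst` with `F = base = inp m`, `f j = fun x => x j`. `←`: by induction on
`BDer B (inp m) s F` there is `C : BGates B m s` such that every member of `F` is
`fun x => C.eval x w` for some wire `w` (`base`: `nil`; `gate`: `snoc`). -/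
theorem btest_iff {m : ℕ} {T : BF m} : BTest B s m T ↔ BGets B (inp m) s {T} := by
  constructor
  · intro h
    have h1 := BGets.subst h (BGets.refl B (inp m)) (fun j => fun x : Fin m → Bool => x j)
      fun j => ⟨j, rfl⟩
    rw [Nat.zero_add] at h1
    refine h1.weaken subset_rfl le_rfl ?_
    rintro _ rfl
    exact Or.inl rfl
  · rintro ⟨n, hn, F', h1, h2⟩
    obtain ⟨C, hC⟩ := p1_der h2
    obtain ⟨w, hw⟩ := hC T (h1 rfl)
    exact ⟨n, hn, C, w, hw⟩

theorem BTest.mono {m : ℕ} {T : BF m} (h : BTest B s m T) (hs : s ≤ s') : BTest B s' m T := by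
  obtain ⟨n, hn, C, w, hw⟩ := h
  exact ⟨n, hn.trans hs, C, w, hw⟩

end Pool.Agent.MP_ca1109_lc.Post
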