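import Pool.Agent.MP_ca1109_lc.Post.P5
import Pool.Agent.MP_ca1109_lc.Post.P8
import Pool.Agent.MP_ca1109_lc.Post.P10
import Pool.Agent.MP_ca1109_lc.Post.P11

/-!
# The dichotomy
-/

namespace Pool.Agent.MP_ca1109_lc.Post

open Set Pool.Agent.H66 Pool.Agent.MP_ca1109_lc.Mpg

variable {B : Basis} {k : ℕ} {e : ℝ}

/-! ## Hard bases -/

theorem gen_of_plain (ha : Cl2 B fun a b => a && b) (ho : Cl2 B fun a b => a || b) (hk : 0 < k)
    (he : 0 < e) (he' : e < 1 / 2) (h : LogGen (Small B k) e) :
    GenExists (fun _ _ => True) (1 / 8) := by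
  obtain ⟨K₁, h1⟩ := ha
  obtain ⟨K₂, h2⟩ := ho
  have h1' := h1.mono (le_max_left K₁ K₂)
  have h2' := h2.mono (le_max_right K₁ K₂)
  refine gen_of_key (B := B) (L := 4 * max K₁ K₂) (κ := 2 * e) (by positivity) (by linarith) hk
    (Filter.Eventually.of_forall ?_) h
  intro M N hN A _ _ G hG
  exact pair_plain h1' h2' he.le hN G hG

theorem gen_of_guard (hh : Cl3 B fun a b c => a && (b || c)) (hk : 0 < k)
    (he : 0 < e) (he' : e < 1 / 4) (h : LogGen (Small B k) e) :
    GenExists (fun _ _ => True) (1 / 8) := by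
  obtain ⟨K, h1⟩ := hh
  refine gen_of_key (B := B) (L := 4 * K) (κ := 1 / 2 + 2 * e) (by positivity) (by linarith) hk
    (Filter.Eventually.of_forall ?_) h
  intro M N hN A _ _ G hG
  exact pair_guard h1 he.le hN G hG

theorem gen_of_andnot (hh : Cl3 B fun a b c => a && (b || c)) (hd : Cl2 B fun a b => a && !b)
    (hk : 0 < k) (he : 0 < e) (he' : e < 1 / 2) (h : LogGen (Small B k) e) :
    GenExists (fun _ _ => True) (1 / 8) := by
  obtain ⟨K₁, h1⟩ := hh
  obtain ⟨K₂, h2⟩ := hd
  have h1' := h1.mono (le_max_left K₁ K₂)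
  have h2' := h2.mono (le_max_right K₁ K₂)
  refine gen_of_key (B := B) (L := 4 * max K₁ K₂) (κ := 1 / 2 + e) (by positivity) (by linarith)
    hk (Filter.Eventually.of_forall ?_) h
  intro M N hN A _ _ G hG
  exact pair_andnot h1' h2' he.le hN G hG

theorem gen_of_full (ho : Cl2 B fun a b => a || b) (hh : Cl3 B fun a b c => a && (b || c))
    (hd : Cl2 B fun a b => a && !b) (hk : 0 < k) (he : 0 < e) (he' : e < 1)
    (h : LogGen (Small B k) e) : GenExists (fun _ _ => True) (1 / 8) := by
  obtain ⟨K₀, h0⟩ := ho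
  obtain ⟨K₁, h1⟩ := hh
  obtain ⟨K₂, h2⟩ := hd
  have h0' := h0.mono (le_max_left K₀ (max K₁ K₂))
  have h1' := h1.mono ((le_max_left K₁ K₂).trans (le_max_right K₀ (max K₁ K₂)))
  have h2' := h2.mono ((le_max_right K₁ K₂).trans (le_max_right K₀ (max K₁ K₂)))
  refine gen_of_key (B := B) (L := 4 * max K₀ (max K₁ K₂)) (κ := (1 + e) / 2) (by positivity)
    (by linarith) hk ?_ h
  have hlim : Filter.Tendsto (fun M : ℕ => (1 / 2 : ℝ) ^ M) Filter.atTop (nhds 0) :=
    tendsto_pow_atTop_nhds_zero_of_lt_one (by norm_num) (by norm_num)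
  filter_upwards [hlim.eventually (gt_mem_nhds (show (0 : ℝ) < (1 - e) / 2 by linarith))] with M hM
  intro N hN A _ _ G hG S P Q hS hP hQ
  have h3 := pair_full h0' h1' h2' he.le hN G hG S P Q hS hP hQ
  linarith

theorem Small.of_dual (h : LogGen (Small B k) e) : LogGen (Small B.dual k) e := small_dual.2 h

theorem hard_gen (hk : 0 < k) (he : 0 < e) (he' : e < tau B) (h : LogGen (Small B k) e) :
    GenExists (fun _ _ => True) (1 / 8) := by
  classical
  have hB : Hard B := by
    by_contra hc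
    have : tau B = 0 := by
      unfold tau
      rw [if_pos]
      by_contra hn
      push Not at hn
      obtain ⟨h1, h2, h3, h4⟩ := hn
      exact hc ⟨not_forall.2 h1, not_forall.2 h2, not_forall.2 h3, not_forall.2 h4⟩
    linarith
  have hneg : ¬ ((∀ i, Affine (B.fn i)) ∨ (∀ i, IsAnd (B.fn i)) ∨ (∀ i, IsOr (B.fn i)) ∨
      ∀ i, SelfDual (B.fn i)) := by
    rintro (h1 | h1 | h1 | h1)
    · exact hB.aff h1
    · exact hB.and h1
    · exact hB.or h1
    · exact hB.sd h1
  have hd3 : (Cl3 B fun a b c => a || (b && c)) → Cl3 B.dual fun a b c => a && (b || c) :=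
    fun hh => cl3_dual.2 (hh.congr fun a b c => by cases a <;> cases b <;> cases c <;> rfl)
  by_cases hi : (∀ i, Inter (B.fn i)) ∨ ∀ i, CoInter (B.fn i)
  · by_cases hm : (∀ i, Mono (B.fn i)) ∨ ∀ i, Idem (B.fn i)
    · have ht : tau B = 1 / 4 := by
        unfold tau
        rw [if_neg hneg, if_pos ⟨hi, hm⟩]
      rw [ht] at he'
      rcases hB.post with hh | hh
      · exact gen_of_guard hh hk he he' h
      · exact gen_of_guard (hd3 hh) hk he he' (Small.of_dual h)
    · have ht : tau B = 1 / 2 := by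
        unfold tau
        rw [if_neg hneg, if_neg (fun h' => hm h'.2), if_pos (Or.inl hi)]
      rw [ht] at he'
      rw [not_or] at hm
      rcases hi with hi | hi
      · exact gen_of_andnot (hB.of_inter hi) (hB.andnot hi hm.1 hm.2) hk he he' h
      · have hi' : ∀ i, Inter (B.dual.fn i) := fun i => inter_dl.2 (hi i)
        exact gen_of_andnot (hB.dual.of_inter hi') (hB.dual.andnot hi'
          (fun h' => hm.1 fun i => mono_dl.1 (h' i)) fun h' => hm.2 fun i => idem_dl.1 (h' i))
          hk he he' (Small.of_dual h)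
  · rw [not_or] at hi
    obtain ⟨ha, ho⟩ := hB.and_or hi.1 hi.2
    by_cases hm : (∀ i, Mono (B.fn i)) ∨ ∀ i, Idem (B.fn i)
    · have ht : tau B = 1 / 2 := by
        unfold tau
        rw [if_neg hneg, if_neg (fun h' => (not_or.2 hi) h'.1), if_pos (Or.inr hm)]
      rw [ht] at he'
      exact gen_of_plain ha ho hk he he' h
    · have ht : tau B = 1 := by
        unfold tau
        rw [if_neg hneg, if_neg (fun h' => hm h'.2), if_neg (fun h' => h'.elim (not_or.2 hi) hm)]
      rw [ht] at he'
      rw [not_or] at hm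
      rcases hB.full hi.1 hi.2 hm.1 hm.2 with hd | hd
      · exact gen_of_full ho (h_of_and_or ha ho) hd hk he he' h
      · have ha' : Cl2 B.dual fun a b => a && b :=
          cl2_dual.2 (ho.congr fun a b => by cases a <;> cases b <;> rfl)
        have ho' : Cl2 B.dual fun a b => a || b :=
          cl2_dual.2 (ha.congr fun a b => by cases a <;> cases b <;> rfl)
        have hd' : Cl2 B.dual fun a b => a && !b :=
          cl2_dual.2 (hd.congr fun a b => by cases a <;> cases b <;> rfl)
        exact gen_of_full ho' (h_of_and_or ha' ho') hd' hk he he' (Small.of_dual h)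

/-! ## Easy bases -/

theorem easy_gen (he : 0 < e) (he' : tau B ≤ e) : LogGen (BAny B) e := by
  classical
  unfold tau at he'
  split_ifs at he' with h1 h2 h3
  · rcases h1 with h1 | h1 | h1 | h1
    · exact gen_affine h1 he
    · exact gen_isAnd h1 he
    · exact any_dual.1 (gen_isAnd (B := B.dual) (fun i => isAnd_dl.2 (h1 i)) he)
    · exact gen_selfDual h1 he.le
  · obtain ⟨hi | hi, hm⟩ := h2
    · exact gen_quarter hi hm he'
    · refine any_dual.1 (gen_quarter (B := B.dual) (fun i => inter_dl.2 (hi i)) ?_ he')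
      exact hm.imp (fun hm i => mono_dl.2 (hm i)) fun hm i => idem_dl.2 (hm i)
  · rcases h3 with (hi | hi) | hm
    · exact gen_half_inter hi he'
    · exact any_dual.1 (gen_half_inter (B := B.dual) (fun i => inter_dl.2 (hi i)) he')
    · exact gen_half hm he'
  · exact gen_any_one B he'

theorem dichotomy (B : Basis) (e : ℝ) (he : 0 < e) :
    (tau B ≤ e → LogGen (BAny B) e) ∧
    (e < tau B → ∀ k : ℕ, 0 < k →
      (LogGen (fun m T => ∃ s, s ^ k ≤ m ∧ BTest B s m T) e ↔
        GenExists (fun _ _ => True) (1 / 8)) ∧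
      (LogGen (fun m T => BTest B (m ^ k) m T) e ↔ GenExists (fun _ _ => True) (1 / 8))) := by
  refine ⟨easy_gen he, fun he' k hk => ⟨⟨fun h => hard_gen hk he he' h, fun h => ?_⟩,
    fun h => hard_gen hk he he' (h.mono ?_), fun h => gen_large h B k he⟩⟩
  · refine (gen_large h B 1 he).mono ?_
    rintro n T ⟨s, hs, hT⟩
    refine hT.mono ?_
    rw [pow_one]
    exact (Nat.le_self_pow hk.ne' s).trans hs
  · rintro n T ⟨s, hs, hT⟩
    refine hT.mono ?_
    exact ((Nat.le_self_pow hk.ne' s).trans hs).trans (Nat.le_self_pow hk.ne' n)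

end Pool.Agent.MP_ca1109_lc.Post
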