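import Pool.Agent.MP_ca1109_lc.Post.P1

/-!
# The clone of a basis

`Cl B r g` says that some circuit over `B` computes `g` (`BAny B r g`, i.e. `∃ s, BTest B s r g`).
-/

namespace Pool.Agent.MP_ca1109_lc.Post

open Set

variable {B : Basis}

/-- A wire of the empty circuit. -/
theorem Cl.proj (B : Basis) {r : ℕ} (i : Fin r) : Cl B r fun x => x i :=
  ⟨0, 0, le_rfl, .nil, i, fun _ => rfl⟩

/-- One gate. -/
theorem Cl.fn (B : Basis) (i : Fin B.card) : Cl B (B.arity i) (B.fn i) :=
  ⟨1, 1, le_rfl, .snoc .nil i (fun j => j), Fin.last _, fun x =>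
    (BGates.eval_snoc_last (.nil : BGates B (B.arity i) 0) i (fun j => j) x).symm⟩

/-- Proof: `btest_iff`; the functions `f j` are obtained with finitely many gates
(`BGets.iUnion` for `⋃ j, {f j}` after passing to the maximum of the sizes, `Finset.univ.sup`), then
`BGets.subst`. -/
theorem Cl.comp {r n : ℕ} {g : BF r} (hg : Cl B r g) {f : Fin r → BF n} (hf : ∀ j, Cl B n (f j)) :
    Cl B n fun x => g fun j => f j x := by
  obtain ⟨K, hK⟩ := hg
  choose t ht using hf
  have h1 : ∀ j, BGets B (inp n) (Finset.univ.sup t) ({f j} : Set (BF n)) := fun j =>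
    btest_iff.1 ((ht j).mono (Finset.le_sup (Finset.mem_univ j)))
  have h2 := BGets.iUnion (Finset.univ.sup t) (fun j => ({f j} : Set (BF n))) h1
  have h3 := BGets.subst hK h2 f fun j => mem_iUnion.2 ⟨j, rfl⟩
  exact ⟨_, btest_iff.2 (h3.weaken subset_rfl le_rfl (singleton_subset_iff.2 (mem_insert _ _)))⟩

/-- Identification of variables. -/
theorem Cl.minor {r n : ℕ} {g : BF r} (hg : Cl B r g) (l : Fin r → Fin n) :
    Cl B n fun y => g fun i => y (l i) :=
  Cl.comp hg (f := fun i y => y (l i)) fun i => Cl.proj B (l i)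

theorem Cl.app1 {n : ℕ} {u : Bool → Bool} (hu : Cl1 B u) {f : BF n} (hf : Cl B n f) :
    Cl B n fun x => u (f x) :=
  Cl.comp (g := fun x : Fin 1 → Bool => u (x 0)) hu (f := fun _ => f) fun _ => hf

theorem Cl.app2 {n : ℕ} {u : Bool → Bool → Bool} (hu : Cl2 B u) {f g : BF n} (hf : Cl B n f)
    (hg : Cl B n g) : Cl B n fun x => u (f x) (g x) :=
  Cl.comp (g := fun x : Fin 2 → Bool => u (x 0) (x 1)) hu (f := ![f, g]) fun j => by
    fin_cases j
    · exact hf
    · exact hg

theorem Cl.app3 {n : ℕ} {u : Bool → Bool → Bool → Bool} (hu : Cl3 B u) {f g k : BF n}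
    (hf : Cl B n f) (hg : Cl B n g) (hk : Cl B n k) : Cl B n fun x => u (f x) (g x) (k x) :=
  Cl.comp (g := fun x : Fin 3 → Bool => u (x 0) (x 1) (x 2)) hu (f := ![f, g, k]) fun j => by
    fin_cases j
    · exact hf
    · exact hg
    · exact hk

/-- Every wire of a circuit has a property which holds for the variables and is inherited through
the gates. -/
theorem BGates.induct {m : ℕ} (P : BF m → Prop) (h0 : ∀ i, P fun x => x i)
    (h1 : ∀ i (g : Fin (B.arity i) → BF m), (∀ j, P (g j)) → P fun x => B.fn i fun j => g j x) :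
    ∀ {n : ℕ} (C : BGates B m n) (w : Fin (m + n)), P fun x => C.eval x w := by
  intro n C
  induction C with
  | nil => exact fun w => h0 w
  | @snoc n C i w ih =>
    intro v
    induction v using Fin.lastCases with
    | last =>
      have e : (fun x => (BGates.snoc C i w).eval x (Fin.last (m + n))) =
          fun x => B.fn i fun j => C.eval x (w j) := funext fun x => BGates.eval_snoc_last C i w x
      exact e ▸ h1 i (fun j x => C.eval x (w j)) fun j => ih (w j)
    | cast v =>
      have e : (fun x => (BGates.snoc C i w).eval x v.castSucc) =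
          fun x => C.eval x v := funext fun x => BGates.eval_snoc_castSucc C i w x v
      exact e ▸ ih v

end Pool.Agent.MP_ca1109_lc.Post
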