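import Pool.Agent.MP_ca1109_lc.Post.P2

/-!
# Clone lemmas: bases with AND

Write `f(x : a, y : b, ...)` for the function of `a, b, ...` obtained from `f` by identification of
variables (`Cl.minor`, `Cl.comp`): every coordinate `i` of `f` receives one of finitely many
functions of the new variables, according to the values `x i`, `y i` of given points.
-/

namespace Pool.Agent.MP_ca1109_lc.Post

variable {B : Basis} {r : ℕ} {f : BF r}

theorem p3_cl1 {u u' : Bool → Bool} (h : Cl1 B u) (e : ∀ a, u a = u' a) : Cl1 B u' := by
  have : u = u' := funext e
  rw [← this]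
  exact h

theorem p3_cl2 {u u' : Bool → Bool → Bool} (h : Cl2 B u) (e : ∀ a b, u a b = u' a b) : Cl2 B u' := by
  have : u = u' := funext fun a => funext fun b => e a b
  rw [← this]
  exact h

theorem p3_cl3 {u u' : Bool → Bool → Bool → Bool} (h : Cl3 B u) (e : ∀ a b c, u a b c = u' a b c) : Cl3 B u' := by
  have : u = u' := funext fun a => funext fun b => funext fun c => e a b c
  rw [← this]
  exact h

/-- substitution of functions of two variables -/
theorem p3_comp2 (hf : Cl B r f) (g : Fin r → Bool → Bool → Bool) (hg : ∀ i, Cl2 B (g i)) :
    Cl2 B fun a b => f fun i => g i a b :=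
  Cl.comp hf (f := fun i x => g i (x 0) (x 1)) hg

/-- substitution of functions of three variables -/
theorem p3_comp3 (hf : Cl B r f) (g : Fin r → Bool → Bool → Bool → Bool) (hg : ∀ i, Cl3 B (g i)) :
    Cl3 B fun a b c => f fun i => g i a b c :=
  Cl.comp hf (f := fun i x => g i (x 0) (x 1) (x 2)) hg

/-- Identifying all variables of a function which is not idempotent.
Proof: `u a = f (fun _ => a)` (`Cl.minor` with `l = fun _ => 0`); `u` is one of the four unary
functions and not the identity. -/
theorem unary_of_not_idem (hf : Cl B r f) (h : ¬ Idem f) :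
    Cl1 B (fun _ => false) ∨ Cl1 B (fun _ => true) ∨ Cl1 B (fun a => !a) := by
  have hu : Cl1 B (fun a => f fun _ => a) := Cl.minor hf (n := 1) (fun _ => 0)
  rcases h0 : f (fun _ => false) with _ | _
  · rcases h1 : f (fun _ => true) with _ | _
    · left
      exact p3_cl1 hu (fun a => by cases a; exacts [h0, h1])
    · exact absurd ⟨h0, h1⟩ h
  · rcases h1 : f (fun _ => true) with _ | _
    · right; right
      exact p3_cl1 hu (fun a => by cases a; exacts [h0, h1])
    · right; left
      exact p3_cl1 hu (fun a => by cases a; exacts [h0, h1])

/-- Idempotent functions which are not self-dual.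
Proof: there is `x` with `f x = f (!x) =: v`. Let `g a b = f (fun i => if x i then a else b)`
(`Cl.minor`). Then `g 0 0 = 0`, `g 1 1 = 1`, `g 1 0 = g 0 1 = v`: AND if `v = 0`, OR if `v = 1`. -/
theorem and_or_of_idem (hf : Cl B r f) (h1 : Idem f) (h2 : ¬ SelfDual f) :
    Cl2 B (fun a b => a && b) ∨ Cl2 B (fun a b => a || b) := by
  unfold SelfDual at h2
  rw [not_forall] at h2
  obtain ⟨x, hx⟩ := h2
  have hx' : f (fun i => !(x i)) = f x := by
    rcases h3 : f (fun i => !(x i)) with _ | _ <;> rcases h4 : f x with _ | _ <;> rw [h3, h4] at hx <;> simp at hx ⊢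
  have hg : Cl2 B (fun a b => f fun i => if x i = true then a else b) := by
    apply p3_comp2 hf (fun i a b => if x i = true then a else b)
    intro i
    by_cases hi : x i = true
    · exact p3_cl2 (u := fun a _ => a) (Cl.proj B (r := 2) 0) (fun a b => by rw [if_pos hi])
    · exact p3_cl2 (u := fun _ b => b) (Cl.proj B (r := 2) 1) (fun a b => by rw [if_neg hi])
  have e00 : (f fun i => if x i = true then false else false) = false := by
    have : (fun i => if x i = true then false else false) = fun _ : Fin r => false := by
      funext i; rw [ite_self]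
    rw [this]
    exact h1.1
  have e11 : (f fun i => if x i = true then true else true) = true := by
    have : (fun i => if x i = true then true else true) = fun _ : Fin r => true := by
      funext i; rw [ite_self]
    rw [this]
    exact h1.2
  have e10 : (f fun i => if x i = true then true else false) = f x := by
    have : (fun i => if x i = true then true else false) = x := by
      funext i
      cases x i <;> rfl
    rw [this]
  have e01 : (f fun i => if x i = true then false else true) = f x := by
    have : (fun i => if x i = true then false else true) = fun i => !(x i) := by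
      funext i
      cases x i <;> rfl
    rw [this]
    exact hx'
  rcases hv : f x with _ | _
  · left
    rw [hv] at e10 e01
    refine p3_cl2 hg (fun a b => ?_)
    cases a <;> cases b
    · exact e00
    · exact e01
    · exact e10
    · exact e11
  · right
    rw [hv] at e10 e01
    refine p3_cl2 hg (fun a b => ?_)
    cases a <;> cases b
    · exact e00
    · exact e01
    · exact e10
    · exact e11

/-- AND and an idempotent function which is not a conjunction give `x ∧ (y ∨ z)`.
Proof. First: one of the following holds. (α) there are `x, y` with `f x = f y = 1` and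
`f (x ∧ y) = 0` (coordinatewise conjunction); (β) there are `x ≤ y` with `f x = 1`, `f y = 0`.
Otherwise the set of accepted points, which contains the all-one point, is closed under `∧` and
upwards closed, so `f` is the conjunction over `S = {i : z i = 1 for all accepted z}`: the
coordinatewise conjunction of all accepted points is accepted (`Finset` induction), and every point
above it is accepted.
(α): let `k d b c = f (i ↦ d if x i, y i; b ∧ d if x i, ¬ y i; c ∧ d if ¬ x i, y i; b ∧ c ∧ d if
¬ x i, ¬ y i)`. If `d = 0` the argument is all-zero, `k = 0`. If `d = 1`: `(b, c) = (0, 0)` gives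
`f (x ∧ y) = 0`, `(1, 0)` gives `f x = 1`, `(0, 1)` gives `f y = 1`, `(1, 1)` gives
`f (1 .. 1) = 1`. So `k d b c = d ∧ (b ∨ c)`.
(β): let `k d b a = f (i ↦ d if x i; b ∧ d if ¬ x i, y i; a ∧ b ∧ d if ¬ y i)`. Then
`k d b a = d ∧ (¬ b ∨ a)`, and `k d (k d b a) a = d ∧ (b ∨ a)`. -/
theorem h_of_and (ha : Cl2 B (fun a b => a && b)) (hf : Cl B r f) (h1 : Idem f) (h2 : ¬ IsAnd f) :
    Cl3 B fun a b c => a && (b || c) := by
  have p0 : Cl3 B (fun d _ _ => d) := Cl.proj B (r := 3) 0
  have p1 : Cl3 B (fun _ b _ => b) := Cl.proj B (r := 3) 1
  have p2 : Cl3 B (fun _ _ c => c) := Cl.proj B (r := 3) 2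
  have p01 : Cl3 B (fun d b _ => b && d) := Cl.app2 ha p1 p0
  have p02 : Cl3 B (fun d _ c => c && d) := Cl.app2 ha p2 p0
  have p012 : Cl3 B (fun d b c => b && (c && d)) := Cl.app2 ha p1 p02
  have p012' : Cl3 B (fun d b c => c && (b && d)) := Cl.app2 ha p2 p01
  by_cases hα : ∃ x y : Fin r → Bool, f x = true ∧ f y = true ∧ f (fun i => x i && y i) = false
  · obtain ⟨x, y, hx, hy, hxy⟩ := hα
    have hk : Cl3 B (fun d b c => f fun i => if x i = true then (if y i = true then d else b && d)
        else (if y i = true then c && d else b && (c && d))) := by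
      apply p3_comp3 hf (fun i d b c => if x i = true then (if y i = true then d else b && d)
        else (if y i = true then c && d else b && (c && d)))
      intro i
      by_cases hi : x i = true <;> by_cases hj : y i = true
      · exact p3_cl3 p0 (fun d b c => by rw [if_pos hi, if_pos hj])
      · exact p3_cl3 p01 (fun d b c => by rw [if_pos hi, if_neg hj])
      · exact p3_cl3 p02 (fun d b c => by rw [if_neg hi, if_pos hj])
      · exact p3_cl3 p012 (fun d b c => by rw [if_neg hi, if_neg hj])
    refine p3_cl3 hk (fun d b c => ?_)
    have key : ∀ z : Fin r → Bool, (∀ i, (if x i = true then (if y i = true then d else b && d)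
        else (if y i = true then c && d else b && (c && d))) = z i) →
        (f fun i => if x i = true then (if y i = true then d else b && d)
        else (if y i = true then c && d else b && (c && d))) = f z := by
      intro z hz
      exact congrArg f (funext hz)
    cases d
    · rw [key (fun _ => false) (fun i => by cases x i <;> cases y i <;> cases b <;> cases c <;> rfl), h1.1, Bool.false_and]
    · cases b <;> cases c
      · rw [key (fun i => x i && y i) (fun i => by cases x i <;> cases y i <;> rfl), hxy]
        rfl
      · rw [key y (fun i => by cases x i <;> cases y i <;> rfl), hy]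
        rfl
      · rw [key x (fun i => by cases x i <;> cases y i <;> rfl), hx]
        rfl
      · rw [key (fun _ => true) (fun i => by cases x i <;> cases y i <;> rfl), h1.2]
        rfl
  by_cases hβ : ∃ x y : Fin r → Bool, (∀ i, x i = true → y i = true) ∧ f x = true ∧ f y = false
  · obtain ⟨x, y, hle, hx, hy⟩ := hβ
    have hk : Cl3 B (fun d b a => f fun i => if x i = true then d
        else (if y i = true then b && d else a && (b && d))) := by
      apply p3_comp3 hf (fun i d b a => if x i = true then d
        else (if y i = true then b && d else a && (b && d)))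
      intro i
      by_cases hi : x i = true
      · exact p3_cl3 p0 (fun d b c => by rw [if_pos hi])
      · by_cases hj : y i = true
        · exact p3_cl3 p01 (fun d b c => by rw [if_neg hi, if_pos hj])
        · exact p3_cl3 p012' (fun d b c => by rw [if_neg hi, if_neg hj])
    have hk' : Cl3 B (fun d b a => d && (!b || a)) := by
      refine p3_cl3 hk (fun d b a => ?_)
      have key : ∀ z : Fin r → Bool, (∀ i, (if x i = true then d
          else (if y i = true then b && d else a && (b && d))) = z i) →
          (f fun i => if x i = true then d
          else (if y i = true then b && d else a && (b && d))) = f z := by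
        intro z hz
        exact congrArg f (funext hz)
      cases d
      · rw [key (fun _ => false) (fun i => by cases x i <;> cases y i <;> cases b <;> cases a <;> rfl), h1.1, Bool.false_and]
      · cases b
        · rw [key x (fun i => by cases x i <;> cases y i <;> cases a <;> rfl), hx]
          rfl
        · cases a
          · rw [key y (fun i => ?_), hy]
            · rfl
            · have h3 := hle i
              cases hxi : x i <;> cases hyi : y i
              · rfl
              · rfl
              · rw [hyi] at h3
                exact absurd (h3 hxi) Bool.false_ne_true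
              · rfl
          · rw [key (fun _ => true) (fun i => by cases x i <;> cases y i <;> rfl), h1.2]
            rfl
    have h3 : Cl3 B (fun d b a => d && (!(d && (!b || a)) || a)) := Cl.app3 hk' p0 hk' p2
    exact p3_cl3 h3 (fun a b c => by cases a <;> cases b <;> cases c <;> rfl)
  -- otherwise `f` is a conjunction
  exfalso
  apply h2
  right
  have hα' : ∀ x y : Fin r → Bool, f x = true → f y = true → f (fun i => x i && y i) = true := by
    intro x y hx hy
    by_contra h3
    rw [Bool.not_eq_true] at h3
    exact hα ⟨x, y, hx, hy, h3⟩
  have hβ' : ∀ x y : Fin r → Bool, (∀ i, x i = true → y i = true) → f x = true → f y = true := by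
    intro x y hle hx
    by_contra h3
    rw [Bool.not_eq_true] at h3
    exact hβ ⟨x, y, hle, hx, h3⟩
  classical
  have hm : ∀ T : Finset (Fin r → Bool), (∀ z ∈ T, f z = true) → f (fun i => decide (∀ z ∈ T, z i = true)) = true := by
    intro T
    induction T using Finset.induction_on with
    | empty =>
      intro _
      have : (fun i : Fin r => decide (∀ z ∈ (∅ : Finset (Fin r → Bool)), z i = true)) = fun _ => true := by
        funext i
        rw [decide_eq_true_iff]
        intro z hz
        exact absurd hz (Finset.notMem_empty z)
      rw [this]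
      exact h1.2
    | insert z0 T hz0 ih =>
      intro hT
      have h3 := hα' z0 _ (hT z0 (Finset.mem_insert_self _ _)) (ih fun z hz => hT z (Finset.mem_insert_of_mem hz))
      have : (fun i : Fin r => decide (∀ z ∈ insert z0 T, z i = true)) = fun i => z0 i && decide (∀ z ∈ T, z i = true) := by
        funext i
        rw [Bool.eq_iff_iff, decide_eq_true_iff, Bool.and_eq_true, decide_eq_true_iff, Finset.forall_mem_insert]
      rw [this]
      exact h3
  refine ⟨Finset.univ.filter fun i => ∀ z, f z = true → z i = true, fun x => ?_⟩
  constructor
  · intro hx i hi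
    rw [Finset.mem_filter] at hi
    exact hi.2 x hx
  · intro hx
    refine hβ' _ x ?_ (hm (Finset.univ.filter fun z => f z = true) fun z hz => (Finset.mem_filter.1 hz).2)
    intro i hi
    rw [decide_eq_true_iff] at hi
    apply hx i
    rw [Finset.mem_filter]
    refine ⟨Finset.mem_univ _, fun z hz => hi z ?_⟩
    rw [Finset.mem_filter]
    exact ⟨Finset.mem_univ _, hz⟩

/-- OR and an idempotent function which is not a disjunction give `x ∨ (y ∧ z)`.
Proof: `h_of_and` for `B.dual` and `dl f` (`cl2_dual`, `cl_dual`, `idem_dl`, `isAnd_dl`,
`cl3_dual`, `dl_dl`). -/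
theorem h_of_or (ha : Cl2 B (fun a b => a || b)) (hf : Cl B r f) (h1 : Idem f) (h2 : ¬ IsOr f) :
    Cl3 B fun a b c => a || (b && c) := by
  have a1 : Cl2 B.dual (fun a b => a && b) :=
    cl2_dual.2 (p3_cl2 ha (fun a b => by cases a <;> cases b <;> rfl))
  have a2 : Cl B.dual r (dl f) := by
    rw [cl_dual, dl_dl]
    exact hf
  have a3 := h_of_and a1 a2 (idem_dl.2 h1) (fun h => h2 (isAnd_dl.1 h))
  exact p3_cl3 (cl3_dual.1 a3) (fun a b c => by cases a <;> cases b <;> cases c <;> rfl)

/-- `x ∧ ¬y` gives `x ∧ (y ∨ z) = x ∧ ¬ ((x ∧ ¬ y) ∧ ¬ z)`. -/
theorem h_of_andnot (ha : Cl2 B (fun a b => a && !b)) : Cl3 B fun a b c => a && (b || c) := by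
  have p0 : Cl3 B (fun d _ _ => d) := Cl.proj B (r := 3) 0
  have p1 : Cl3 B (fun _ b _ => b) := Cl.proj B (r := 3) 1
  have p2 : Cl3 B (fun _ _ c => c) := Cl.proj B (r := 3) 2
  have h1 : Cl3 B (fun a b _ => a && !b) := Cl.app2 ha p0 p1
  have h2 : Cl3 B (fun a b c => (a && !b) && !c) := Cl.app2 ha h1 p2
  have h3 : Cl3 B (fun a b c => a && !((a && !b) && !c)) := Cl.app2 ha p0 h2
  exact p3_cl3 h3 (fun a b c => by cases a <;> cases b <;> cases c <;> rfl)

/-- AND and a function `f` with `f (0..0) = 0` which is not a conjunction give `x ∧ (y ∨ z)`.
Proof: if `f (1..1) = 1`, this is `h_of_and`. Otherwise there is `x` with `f x = 1` (else `f` is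
constantly false), and `k a b = f (i ↦ a if x i; a ∧ b if ¬ x i)` satisfies `k 0 b = f 0 = 0`,
`k 1 0 = f x = 1`, `k 1 1 = f (1..1) = 0`, so `k a b = a ∧ ¬ b`; use `h_of_andnot`. -/
theorem h_of_and_zero (ha : Cl2 B (fun a b => a && b)) (hf : Cl B r f)
    (h1 : f (fun _ => false) = false) (h2 : ¬ IsAnd f) : Cl3 B fun a b c => a && (b || c) := by
  by_cases h3 : f (fun _ => true) = true
  · exact h_of_and ha hf ⟨h1, h3⟩ h2
  rw [Bool.not_eq_true] at h3
  by_cases h4 : ∃ x, f x = true
  · obtain ⟨x, hx⟩ := h4
    have q0 : Cl2 B (fun a _ => a) := Cl.proj B (r := 2) 0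
    have hk : Cl2 B (fun a b => f fun i => if x i = true then a else a && b) := by
      apply p3_comp2 hf (fun i a b => if x i = true then a else a && b)
      intro i
      by_cases hi : x i = true
      · exact p3_cl2 q0 (fun a b => by rw [if_pos hi])
      · exact p3_cl2 ha (fun a b => by rw [if_neg hi])
    apply h_of_andnot
    refine p3_cl2 hk (fun a b => ?_)
    have key : ∀ z : Fin r → Bool, (∀ i, (if x i = true then a else a && b) = z i) →
        (f fun i => if x i = true then a else a && b) = f z := by
      intro z hz
      exact congrArg f (funext hz)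
    cases a
    · rw [key (fun _ => false) (fun i => by cases x i <;> cases b <;> rfl), h1, Bool.false_and]
    · cases b
      · rw [key x (fun i => by cases x i <;> rfl), hx]
        rfl
      · rw [key (fun _ => true) (fun i => by cases x i <;> rfl), h3]
        rfl
  · exfalso
    apply h2
    left
    intro x
    rw [← Bool.not_eq_true]
    intro hx
    exact h4 ⟨x, hx⟩

end Pool.Agent.MP_ca1109_lc.Post
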