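import Pool.Agent.MP_ca1109_lc.Post.P2

/-!
# Clone lemmas: bases with both constants or negation
-/

namespace Pool.Agent.MP_ca1109_lc.Post

variable {B : Basis} {r : ℕ} {f : BF r}

theorem p4_diff (H : ∀ (x : Fin r → Bool) (i j : Fin r), i ≠ j → x i = false → x j = false →
    (f x ^^ f (Function.update x i true) ^^ f (Function.update x j true) ^^
      f (Function.update (Function.update x i true) j true)) = false) (j : Fin r) :
    ∀ (S : Finset (Fin r)) (y : Fin r → Bool), (∀ i, i ∉ S → y i = false) → y j = false →
      (f (Function.update y j true) ^^ f y) =
        (f (Function.update (fun _ => false) j true) ^^ f fun _ => false) := by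
  intro S
  induction S using Finset.induction_on with
  | empty =>
    intro y hy _
    have e : y = fun _ => false := funext fun i => hy i (by simp)
    rw [e]
  | insert i S hi ih =>
    intro y hy hj
    cases hyi : y i with
    | false =>
      refine ih y (fun k hk => ?_) hj
      by_cases hki : k = i
      · rw [hki]
        exact hyi
      · exact hy k (by simp [hki, hk])
    | true =>
      have hij : i ≠ j := by
        rintro rfl
        rw [hj] at hyi
        exact absurd hyi (by simp)
      have h1 := ih (Function.update y i false) (fun k hk => by
        by_cases hki : k = i
        · rw [hki]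
          simp
        · rw [Function.update_of_ne hki]
          exact hy k (by simp [hki, hk])) (by
        rw [Function.update_of_ne hij.symm]
        exact hj)
      have h2 := H (Function.update y i false) i j hij (by simp) (by
        rw [Function.update_of_ne hij.symm]
        exact hj)
      have e1 : Function.update (Function.update y i false) i true = y := by
        rw [Function.update_idem, ← hyi, Function.update_eq_self]
      rw [e1] at h2
      rw [← h1]
      revert h2
      generalize f (Function.update (Function.update y i false) j true) = a
      generalize f (Function.update y j true) = b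
      generalize f (Function.update y i false) = c
      generalize f y = d
      revert a b c d
      decide

/-- A function which is not affine has an odd second difference.
Proof: otherwise for all `i` the difference `D i x = f (x, x i := 1) ^^ f (x, x i := 0)` does not
change if one changes one coordinate `j ≠ i` of `x` (apply the hypothesis to the point `x` with the
coordinates `i`, `j` set to `false`), so it does not depend on `x`: `D i x = D i 0 =: a i`. Then
`f x = f 0 ^^ (sum of the a i with x i = 1)`, by `Finset` induction on the set of the coordinates
at which `x` is `1`; this is `Affine f`. -/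
theorem odd_of_not_affine (h : ¬ Affine f) : ∃ (x : Fin r → Bool) (i j : Fin r), i ≠ j ∧
    x i = false ∧ x j = false ∧
    (f x ^^ f (Function.update x i true) ^^ f (Function.update x j true) ^^
      f (Function.update (Function.update x i true) j true)) = true := by
  by_contra hc
  apply h
  have H : ∀ (x : Fin r → Bool) (i j : Fin r), i ≠ j → x i = false → x j = false →
      (f x ^^ f (Function.update x i true) ^^ f (Function.update x j true) ^^
        f (Function.update (Function.update x i true) j true)) = false := by
    intro x i j hij hi hj
    by_contra hne
    exact hc ⟨x, i, j, hij, hi, hj, by simpa using hne⟩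
  let a : Fin r → ZMod 2 := fun j =>
    if (f (Function.update (fun _ => false) j true) ^^ f fun _ => false) then 1 else 0
  let b : ZMod 2 := if f (fun _ => false) then 1 else 0
  have key : ∀ (S : Finset (Fin r)) (y : Fin r → Bool), (∀ i, i ∉ S → y i = false) →
      (if f y then 1 else 0 : ZMod 2) = b + ∑ i ∈ S, a i * (if y i then 1 else 0) := by
    intro S
    induction S using Finset.induction_on with
    | empty =>
      intro y hy
      have e : y = fun _ => false := funext fun i => hy i (by simp)
      rw [e]
      simp [b]
    | insert j S hj ih =>
      intro y hy
      rw [Finset.sum_insert hj]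
      cases hyj : y j with
      | false =>
        rw [ih y (fun k hk => by
          by_cases hkj : k = j
          · rw [hkj]
            exact hyj
          · exact hy k (by simp [hkj, hk]))]
        simp
      | true =>
        have h0 : Function.update y j false j = false := by simp
        have h1 := ih (Function.update y j false) (fun k hk => by
          by_cases hkj : k = j
          · rw [hkj]
            simp
          · rw [Function.update_of_ne hkj]
            exact hy k (by simp [hkj, hk]))
        have hs : ∑ i ∈ S, a i * (if Function.update y j false i then 1 else 0 : ZMod 2) =
            ∑ i ∈ S, a i * (if y i then 1 else 0) := by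
          refine Finset.sum_congr rfl fun i hi => ?_
          have hij : i ≠ j := by
            rintro rfl
            exact hj hi
          rw [Function.update_of_ne hij]
        rw [hs] at h1
        have h2 := p4_diff H j Finset.univ (Function.update y j false) (fun i hi => absurd (Finset.mem_univ i) hi) h0
        have e1 : Function.update (Function.update y j false) j true = y := by
          rw [Function.update_idem, ← hyj, Function.update_eq_self]
        rw [e1] at h2
        have h3 : (if f y then 1 else 0 : ZMod 2) = (if f (Function.update y j false) then 1 else 0) + a j := by
          show _ = _ + (if (f (Function.update (fun _ => false) j true) ^^ f fun _ => false) then 1 else 0 : ZMod 2)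
          rw [← h2]
          generalize f y = p
          generalize f (Function.update y j false) = q
          revert p q
          decide
        rw [h3, h1]
        simp only [if_true, mul_one]
        ring
  refine ⟨a, b, fun x => ?_⟩
  exact key Finset.univ x fun i hi => absurd (Finset.mem_univ i) hi

/-- Both constants and a function which is not monotone give the negation.
Proof: `x ≤ y`, `f x = 1`, `f y = 0`; `u a = f (i ↦ 1 if x i; a if ¬ x i, y i; 0 if ¬ y i)`. -/
theorem neg_of_not_mono (h0 : Cl1 B fun _ => false) (h1 : Cl1 B fun _ => true) (hf : Cl B r f)
    (h : ¬ Mono f) : Cl1 B fun a => !a := by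
  simp only [Mono, not_forall] at h
  obtain ⟨x, y, hxy, hx, hy⟩ := h
  have hy' : f y = false := by simpa using hy
  have hc : ∀ i : Fin r, Cl B 1 fun z => if x i then true else if y i then z 0 else false := by
    intro i
    cases hxi : x i with
    | true => exact h1
    | false =>
      cases hyi : y i with
      | true => exact Cl.proj B (0 : Fin 1)
      | false => exact h0
  have h2 := Cl.comp hf hc
  have e : (fun z : Fin 1 → Bool => f fun i => if x i then true else if y i then z 0 else false) =
      fun z => !(z 0) := by
    funext z
    cases hz : z 0 with
    | true =>
      have e1 : (fun i => if x i then true else if y i then true else false) = y := by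
        funext i
        cases hxi : x i with
        | true => simpa using (hxy i hxi).symm
        | false => cases y i <;> rfl
      rw [e1, hy']
      rfl
    | false =>
      have e1 : (fun i => if x i then true else if y i then false else false) = x := by
        funext i
        cases hxi : x i with
        | true => rfl
        | false => cases y i <;> rfl
      rw [e1, hx]
      rfl
  rw [e] at h2
  exact h2

/-- Negation and a function which is not self-dual give both constants.
Proof: `f x = f (!x) = v`; `u a = f (i ↦ a if x i; ¬ a if ¬ x i)` is constantly `v`; apply the
negation. -/
theorem const_of_neg (hn : Cl1 B fun a => !a) (hf : Cl B r f) (h : ¬ SelfDual f) :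
    (Cl1 B fun _ => false) ∧ Cl1 B fun _ => true := by
  simp only [SelfDual, not_forall] at h
  obtain ⟨x, hx⟩ := h
  have hx' : f (fun i => !(x i)) = f x := by
    cases h1 : f x <;> cases h2 : f (fun i => !(x i)) <;> simp_all
  have hc : ∀ i : Fin r, Cl B 1 fun z => if x i then z 0 else !(z 0) := by
    intro i
    cases hxi : x i with
    | true => exact Cl.proj B (0 : Fin 1)
    | false => exact hn
  have h2 := Cl.comp hf hc
  have e : (fun z : Fin 1 → Bool => f fun i => if x i then z 0 else !(z 0)) = fun _ => f x := by
    funext z
    cases hz : z 0 with
    | true =>
      have e1 : (fun i => if x i then true else !true) = x := by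
        funext i
        cases x i <;> rfl
      rw [e1]
    | false =>
      have e1 : (fun i => if x i then false else !false) = fun i => !(x i) := by
        funext i
        cases x i <;> rfl
      rw [e1, hx']
  rw [e] at h2
  have h3 : Cl B 1 fun _ => !(f x) := Cl.app1 hn h2
  cases hv : f x with
  | true =>
    rw [hv] at h2 h3
    exact ⟨h3, h2⟩
  | false =>
    rw [hv] at h2 h3
    exact ⟨h2, h3⟩

theorem p4_xor (hn : Cl1 B fun a => !a) {n : ℕ} {g : BF n} (hg : Cl B n g) (p : Bool) :
    Cl B n fun x => (g x) ^^ p := by
  cases p with
  | false => simpa using hg
  | true =>
    have := Cl.app1 hn hg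
    simpa using this

theorem p4_dec : ∀ p q s a b : Bool, ((((a ^^ p) ^^ p) && ((b ^^ q) ^^ q)) ^^ s ^^ s) = (a && b) := by
  decide

/-- Both constants, negation and a function which is not affine give AND.
Proof: take `x, i, j` from `odd_of_not_affine` and substitute constants for the other coordinates:
`g a b = f (k ↦ a if k = i; b if k = j; x k otherwise)` accepts an odd number of the four points,
so `g a b = ((a ^^ p) && (b ^^ q)) ^^ s` for some bits `p, q, s` (decide over the 16 functions);
AND is obtained by negating arguments and value. -/
theorem and_of_neg (h0 : Cl1 B fun _ => false) (h1 : Cl1 B fun _ => true) (hn : Cl1 B fun a => !a)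
    (hf : Cl B r f) (h : ¬ Affine f) : Cl2 B fun a b => a && b := by
  obtain ⟨x, i, j, hij, hi, hj, hodd⟩ := odd_of_not_affine h
  let g : Bool → Bool → Bool := fun a b => f fun k => if k = i then a else if k = j then b else x k
  have hg : Cl2 B g := by
    refine Cl.comp hf (f := fun k z => if k = i then z 0 else if k = j then z 1 else x k) fun k => ?_
    by_cases hki : k = i
    · simpa [hki] using Cl.proj B (0 : Fin 2)
    · by_cases hkj : k = j
      · have hji : ¬ j = i := fun h => hij h.symm
        simpa [hkj, hji] using Cl.proj B (1 : Fin 2)
      · cases hxk : x k with
        | true => simpa [hki, hkj, hxk] using Cl.minor h1 (fun _ => (0 : Fin 2))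
        | false => simpa [hki, hkj, hxk] using Cl.minor h0 (fun _ => (0 : Fin 2))
  have g00 : g false false = f x := by
    show f _ = _
    congr 1
    funext k
    by_cases hki : k = i
    · simp [hki, hi]
    · by_cases hkj : k = j
      · simp [hkj, hj]
      · simp [hki, hkj]
  have g10 : g true false = f (Function.update x i true) := by
    show f _ = _
    congr 1
    funext k
    by_cases hki : k = i
    · simp [hki]
    · by_cases hkj : k = j
      · have hji : ¬ j = i := fun h => hij h.symm
        simp [hkj, hji, hj]
      · simp [hki, hkj]
  have g01 : g false true = f (Function.update x j true) := by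
    show f _ = _
    congr 1
    funext k
    by_cases hki : k = i
    · simp [hki, hij, hi]
    · by_cases hkj : k = j
      · have hji : ¬ j = i := fun h => hij h.symm
        simp [hkj, hji]
      · simp [hki, hkj]
  have g11 : g true true = f (Function.update (Function.update x i true) j true) := by
    show f _ = _
    congr 1
    funext k
    by_cases hki : k = i
    · simp [hki, hij]
    · by_cases hkj : k = j
      · simp [hkj]
      · simp [hki, hkj]
  rw [← g00, ← g10, ← g01, ← g11] at hodd
  obtain ⟨p, q, s, k1, k2, k3, k4⟩ : ∃ p q s : Bool,
      (g false false = (((false ^^ p) && (false ^^ q)) ^^ s)) ∧ (g true false = (((true ^^ p) && (false ^^ q)) ^^ s)) ∧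
      (g false true = (((false ^^ p) && (true ^^ q)) ^^ s)) ∧ (g true true = (((true ^^ p) && (true ^^ q)) ^^ s)) := by
    revert hodd
    generalize g false false = a
    generalize g true false = b
    generalize g false true = c
    generalize g true true = d
    revert a b c d
    decide
  have hall : ∀ a b : Bool, g a b = (((a ^^ p) && (b ^^ q)) ^^ s) := by
    intro a b
    cases a <;> cases b <;> assumption
  have h5 := p4_xor hn (Cl.app2 hg (p4_xor hn (Cl.proj B (0 : Fin 2)) p) (p4_xor hn (Cl.proj B (1 : Fin 2)) q)) s
  have e : (fun z : Fin 2 → Bool => (g (z 0 ^^ p) (z 1 ^^ q)) ^^ s) = fun z => z 0 && z 1 := by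
    funext z
    rw [hall]
    exact p4_dec p q s (z 0) (z 1)
  rw [e] at h5
  exact h5

end Pool.Agent.MP_ca1109_lc.Post
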