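import Pool.Agent.MP_ca1109_lc.Post.P4

/-!
# Clone lemmas: monotone bases with both constants, bases with one constant
-/

namespace Pool.Agent.MP_ca1109_lc.Post

variable {B : Basis} {r : ℕ} {f : BF r}

theorem p4b_not_and (hm : Mono f) (h : ¬ IsAnd f) :
    ∃ x y, f x = true ∧ f y = true ∧ f (fun i => x i && y i) = false := by
  by_contra hc
  apply h
  have H : ∀ x y, f x = true → f y = true → f (fun i => x i && y i) = true := by
    intro x y hx hy
    by_contra hne
    exact hc ⟨x, y, hx, hy, by simpa using hne⟩
  by_cases hf : ∀ x, f x = false
  · exact Or.inl hf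
  right
  have hf' : ∃ x, f x = true := by
    by_contra hne
    exact hf fun x => by
      by_contra hx
      exact hne ⟨x, by simpa using hx⟩
  obtain ⟨z, hz, hmin⟩ := Finset.exists_min_image (Finset.univ.filter fun x : Fin r → Bool => f x = true)
    (fun x => (Finset.univ.filter fun i => x i = true).card)
    (by
      obtain ⟨x, hx⟩ := hf'
      exact ⟨x, by simp [hx]⟩)
  rw [Finset.mem_filter] at hz
  refine ⟨Finset.univ.filter fun i => z i = true, fun x => ⟨fun hx i hi => ?_, fun hx => ?_⟩⟩
  · rw [Finset.mem_filter] at hi
    by_contra hxi
    have h1 := hmin (fun i => z i && x i) (by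
      rw [Finset.mem_filter]
      exact ⟨Finset.mem_univ _, H z x hz.2 hx⟩)
    have h2 : (Finset.univ.filter fun i => (z i && x i) = true) ⊂ Finset.univ.filter fun i => z i = true := by
      rw [Finset.ssubset_iff_of_subset]
      · refine ⟨i, by simp [hi.2], ?_⟩
        simp only [Finset.mem_filter, Bool.and_eq_true, not_and]
        intro _ _
        exact hxi
      · intro k hk
        simp only [Finset.mem_filter, Bool.and_eq_true] at hk ⊢
        exact ⟨hk.1, hk.2.1⟩
    exact absurd (Finset.card_lt_card h2) (not_lt.2 h1)
  · exact hm z x (fun i hi => hx i (by simp [hi])) hz.2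

theorem p4b_and (a b : Bool) : (if a then (if b then true else false) else if b then false else false) = (a && b) := by
  cases a <;> cases b <;> rfl

/-- Both constants and a monotone function which is not a conjunction give OR.
Proof: there are `x, y` with `f x = f y = 1` and `f (x ∧ y) = 0` (otherwise the set of accepted
points is empty, or closed under `∧` and upwards closed, so `f` is constantly false or the
conjunction over `{i : z i = 1 for all accepted z}`).
`g b c = f (i ↦ 1 if x i, y i; b if x i, ¬ y i; c if ¬ x i, y i; 0 if ¬ x i, ¬ y i)` has
`g 0 0 = f (x ∧ y) = 0`, `g 1 0 = f x = 1`, `g 0 1 = f y = 1`, `g 1 1 = f (x ∨ y) = 1`. -/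
theorem or_of_mono (h0 : Cl1 B fun _ => false) (h1 : Cl1 B fun _ => true) (hf : Cl B r f)
    (hm : Mono f) (h : ¬ IsAnd f) : Cl2 B fun a b => a || b := by
  obtain ⟨x, y, hx, hy, hxy⟩ := p4b_not_and hm h
  have hc : ∀ i : Fin r, Cl B 2 fun z => if x i then (if y i then true else z 0) else if y i then z 1 else false := by
    intro i
    cases hxi : x i with
    | true =>
      cases hyi : y i with
      | true => exact Cl.minor h1 (fun _ => (0 : Fin 2))
      | false => exact Cl.proj B (0 : Fin 2)
    | false =>
      cases hyi : y i with
      | true => exact Cl.proj B (1 : Fin 2)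
      | false => exact Cl.minor h0 (fun _ => (0 : Fin 2))
  have h2 := Cl.comp hf hc
  have e : (fun z : Fin 2 → Bool => f fun i => if x i then (if y i then true else z 0) else if y i then z 1 else false) =
      fun z => z 0 || z 1 := by
    funext z
    cases hz0 : z 0 with
    | true =>
      have hor : f (fun i => if x i then (if y i then true else true) else if y i then z 1 else false) = true := by
        refine hm x _ (fun i hi => ?_) hx
        show (if x i then (if y i then true else true) else if y i then z 1 else false) = true
        rw [hi]
        cases y i <;> rfl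
      rw [hor]
      rfl
    | false =>
      cases hz1 : z 1 with
      | true =>
        have e1 : (fun i => if x i then (if y i then true else false) else if y i then true else false) = y := by
          funext i
          cases x i <;> cases y i <;> rfl
        rw [e1, hy]
        rfl
      | false =>
        have e1 : (fun i => if x i then (if y i then true else false) else if y i then false else false) = fun i => x i && y i := by
          funext i
          exact p4b_and _ _
        rw [e1, hxy]
        rfl
  rw [e] at h2
  exact h2

/-- Both constants and a monotone function which is not a disjunction give AND (dual of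
`or_of_mono`: use `B.dual`, `dl f`). -/
theorem and_of_mono (h0 : Cl1 B fun _ => false) (h1 : Cl1 B fun _ => true) (hf : Cl B r f)
    (hm : Mono f) (h : ¬ IsOr f) : Cl2 B fun a b => a && b := by
  have k0 : Cl1 B.dual fun _ => false := cl1_dual.2 h1
  have k1 : Cl1 B.dual fun _ => true := cl1_dual.2 h0
  have kf : Cl B.dual r (dl f) := by
    rw [cl_dual, dl_dl]
    exact hf
  have h2 := or_of_mono k0 k1 kf (mono_dl.2 hm) (fun hA => h (isAnd_dl.1 hA))
  rw [cl2_dual] at h2
  have e : (fun a b : Bool => !((!a) || (!b))) = fun a b => a && b := by
    funext a b
    cases a <;> cases b <;> rfl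
  rw [e] at h2
  exact h2

theorem p4b_not_or (h1 : f (fun _ => false) = false) (h : ¬ IsOr f) :
    (∃ x y, f x = false ∧ f y = false ∧ f (fun i => x i || y i) = true) ∨
    ∃ x y : Fin r → Bool, (∀ i, x i = true → y i = true) ∧ f x = true ∧ f y = false := by
  by_contra hc
  rw [not_or] at hc
  obtain ⟨hA, hB⟩ := hc
  apply h
  have HA : ∀ x y, f x = false → f y = false → f (fun i => x i || y i) = false := by
    intro x y hx hy
    by_contra hne
    exact hA ⟨x, y, hx, hy, by simpa using hne⟩
  have HB : ∀ x y : Fin r → Bool, (∀ i, x i = true → y i = true) → f y = false → f x = false := by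
    intro x y hxy hy
    by_contra hne
    exact hB ⟨x, y, hxy, by simpa using hne, hy⟩
  right
  obtain ⟨z, hz, hmax⟩ := Finset.exists_max_image (Finset.univ.filter fun x : Fin r → Bool => f x = false)
    (fun x => (Finset.univ.filter fun i => x i = true).card) ⟨fun _ => false, by simp [h1]⟩
  rw [Finset.mem_filter] at hz
  have hsub : ∀ w, f w = false → ∀ i, w i = true → z i = true := by
    intro w hw i hi
    by_contra hzi
    have h2 := hmax (fun i => z i || w i) (by
      rw [Finset.mem_filter]
      exact ⟨Finset.mem_univ _, HA z w hz.2 hw⟩)
    have h3 : (Finset.univ.filter fun i => z i = true) ⊂ Finset.univ.filter fun i => (z i || w i) = true := by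
      rw [Finset.ssubset_iff_of_subset]
      · refine ⟨i, by simp [hi], ?_⟩
        simp only [Finset.mem_filter, not_and]
        intro _
        exact hzi
      · intro k hk
        simp only [Finset.mem_filter, Bool.or_eq_true] at hk ⊢
        exact ⟨hk.1, Or.inl hk.2⟩
    exact absurd (Finset.card_lt_card h3) (not_lt.2 h2)
  refine ⟨Finset.univ.filter fun i => z i = false, fun x => ⟨fun hx => ?_, ?_⟩⟩
  · by_contra hne
    have h2 : ∀ i, x i = true → z i = true := by
      intro i hi
      by_contra hzi
      exact hne ⟨i, by simpa using hzi, hi⟩
    rw [HB x z h2 hz.2] at hx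
    exact absurd hx (by simp)
  · rintro ⟨i, hi, hxi⟩
    rw [Finset.mem_filter] at hi
    by_contra hne
    have h2 := hsub x (by simpa using hne) i hxi
    rw [hi.2] at h2
    exact absurd h2 (by simp)

theorem p4b_l {l : Bool → Bool → Bool} (hl : Cl2 B l) (l00 : l false false = false) (l10 : l true false = true)
    (l11 : l true true = false) : Cl2 B (fun a b => a && b) ∨ Cl2 B (fun a b => a ^^ b) := by
  cases l01 : l false true with
  | true =>
    right
    have e : l = fun a b => a ^^ b := by
      funext a b
      cases a <;> cases b
      · exact l00
      · exact l01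
      · exact l10
      · exact l11
    rw [e] at hl
    exact hl
  | false =>
    left
    have h2 := Cl.app2 hl (Cl.proj B (0 : Fin 2)) (Cl.app2 hl (Cl.proj B (0 : Fin 2)) (Cl.proj B (1 : Fin 2)))
    have e : (fun z : Fin 2 → Bool => l (z 0) (l (z 0) (z 1))) = fun z => z 0 && z 1 := by
      funext z
      generalize z 0 = a
      generalize z 1 = b
      cases a <;> cases b <;> simp [l00, l01, l10, l11]
    rw [e] at h2
    exact h2

/-- The constant `0` and a function with `f (0..0) = 0` which is not a disjunction give AND or XOR.
Proof. The set of rejected points contains the all-zero point. If it is closed under `∨` and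
downwards closed, then `f` is the disjunction over `{i : z i = 0 for all rejected z}`. Hence
(α) there are rejected `x, y` with `x ∨ y` accepted, or (β) there are `x ≤ y`, `x` accepted, `y`
rejected.
(α) Let `g b c d = f (i ↦ b if x i, ¬ y i; c if ¬ x i, y i; d if x i, y i; 0 if ¬ x i, ¬ y i)`. So
`g 0 0 0 = 0`, `g 1 0 1 = f x = 0`, `g 0 1 1 = f y = 0`, `g 1 1 1 = f (x ∨ y) = 1`.
If `g 0 1 0 = 0` then `g b c b = b ∧ c`. If `g 1 0 0 = 0` then `g b c c = b ∧ c`. Otherwise
`l a b = g a 0 b` has `l 0 0 = 0`, `l 1 0 = 1`, `l 1 1 = 0`: if `l 0 1 = 1` it is XOR; if
`l 0 1 = 0` then `l a b = a ∧ ¬ b` and `l a (l a b) = a ∧ b`.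
(β) `l a b = f (i ↦ a if x i; b if ¬ x i, y i; 0 if ¬ y i)` has again `l 0 0 = 0`, `l 1 0 = 1`,
`l 1 1 = 0`; conclude as before. -/
theorem and_or_xor (h0 : Cl1 B fun _ => false) (hf : Cl B r f) (h1 : f (fun _ => false) = false)
    (h : ¬ IsOr f) : Cl2 B (fun a b => a && b) ∨ Cl2 B (fun a b => a ^^ b) := by
  rcases p4b_not_or h1 h with ⟨x, y, hx, hy, hxy⟩ | ⟨x, y, hle, hx, hy⟩
  · let g : Bool → Bool → Bool → Bool := fun b c d =>
      f fun i => if x i then (if y i then d else b) else if y i then c else false
    have hg : Cl3 B g := by
      refine Cl.comp hf (f := fun i z => if x i then (if y i then z 2 else z 0) else if y i then z 1 else false) fun i => ?_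
      cases hxi : x i with
      | true =>
        cases hyi : y i with
        | true => simpa [hxi, hyi] using Cl.proj B (2 : Fin 3)
        | false => simpa [hxi, hyi] using Cl.proj B (0 : Fin 3)
      | false =>
        cases hyi : y i with
        | true => simpa [hxi, hyi] using Cl.proj B (1 : Fin 3)
        | false => simpa [hxi, hyi] using Cl.minor h0 (fun _ => (0 : Fin 3))
    have g000 : g false false false = false := by
      refine (congrArg f (funext fun i => ?_)).trans h1
      cases x i <;> cases y i <;> rfl
    have g101 : g true false true = false := by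
      refine (congrArg f (funext fun i => ?_)).trans hx
      cases x i <;> cases y i <;> rfl
    have g011 : g false true true = false := by
      refine (congrArg f (funext fun i => ?_)).trans hy
      cases x i <;> cases y i <;> rfl
    have g111 : g true true true = true := by
      refine (congrArg f (funext fun i => ?_)).trans hxy
      cases x i <;> cases y i <;> rfl
    cases g010 : g false true false with
    | false =>
      left
      have h2 : Cl B 2 fun z => g (z 0) (z 1) (z 0) :=
        Cl.app3 hg (Cl.proj B (0 : Fin 2)) (Cl.proj B (1 : Fin 2)) (Cl.proj B (0 : Fin 2))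
      have e : (fun z : Fin 2 → Bool => g (z 0) (z 1) (z 0)) = fun z => z 0 && z 1 := by
        funext z
        generalize z 0 = a
        generalize z 1 = b
        cases a <;> cases b
        · exact g000
        · exact g010
        · exact g101
        · exact g111
      rw [e] at h2
      exact h2
    | true =>
      cases g100 : g true false false with
      | false =>
        left
        have h2 : Cl B 2 fun z => g (z 0) (z 1) (z 1) :=
          Cl.app3 hg (Cl.proj B (0 : Fin 2)) (Cl.proj B (1 : Fin 2)) (Cl.proj B (1 : Fin 2))
        have e : (fun z : Fin 2 → Bool => g (z 0) (z 1) (z 1)) = fun z => z 0 && z 1 := by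
          funext z
          generalize z 0 = a
          generalize z 1 = b
          cases a <;> cases b
          · exact g000
          · exact g011
          · exact g100
          · exact g111
        rw [e] at h2
        exact h2
      | true =>
        have h2 : Cl2 B fun a b => g a false b :=
          Cl.app3 hg (Cl.proj B (0 : Fin 2)) (Cl.minor h0 (fun _ => (0 : Fin 2))) (Cl.proj B (1 : Fin 2))
        exact p4b_l h2 g000 g100 g101
  · let l : Bool → Bool → Bool := fun a b => f fun i => if x i then a else if y i then b else false
    have hl : Cl2 B l := by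
      refine Cl.comp hf (f := fun i z => if x i then z 0 else if y i then z 1 else false) fun i => ?_
      cases hxi : x i with
      | true => simpa [hxi] using Cl.proj B (0 : Fin 2)
      | false =>
        cases hyi : y i with
        | true => simpa [hxi, hyi] using Cl.proj B (1 : Fin 2)
        | false => simpa [hxi, hyi] using Cl.minor h0 (fun _ => (0 : Fin 2))
    refine p4b_l hl ?_ ?_ ?_
    · refine (congrArg f (funext fun i => ?_)).trans h1
      cases x i <;> cases y i <;> rfl
    · refine (congrArg f (funext fun i => ?_)).trans hx
      cases x i <;> cases y i <;> rfl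
    · refine (congrArg f (funext fun i => ?_)).trans hy
      cases hxi : x i with
      | true => exact (hle i hxi).symm
      | false => cases y i <;> rfl

/-- The constant `0`, XOR and a function which is not affine give AND.
Proof: take `x, i, j` from `odd_of_not_affine` and let
`g c p q = f (k ↦ p if k = i; q if k = j; c if x k; 0 otherwise)`. Then
`g 1 0 0 ^^ g 1 1 0 ^^ g 1 0 1 ^^ g 1 1 1 = 1`, and
`g c 0 0 ^^ g c c 0 ^^ g c 0 d ^^ g c c d = c ∧ d`: for `c = 0` the terms cancel in pairs, for
`c = 1` and `d = 0` too, and for `c = d = 1` the sum is `1`. -/
theorem and_of_xor (h0 : Cl1 B fun _ => false) (hx : Cl2 B fun a b => a ^^ b) (hf : Cl B r f)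
    (h : ¬ Affine f) : Cl2 B fun a b => a && b := by
  obtain ⟨x, i, j, hij, hi, hj, hodd⟩ := odd_of_not_affine h
  let g : Bool → Bool → Bool → Bool := fun c p q =>
    f fun k => if k = i then p else if k = j then q else if x k then c else false
  have hg : Cl3 B g := by
    refine Cl.comp hf (f := fun k z => if k = i then z 1 else if k = j then z 2 else if x k then z 0 else false) fun k => ?_
    by_cases hki : k = i
    · simpa [hki] using Cl.proj B (1 : Fin 3)
    · by_cases hkj : k = j
      · have hji : ¬ j = i := fun h => hij h.symm
        simpa [hkj, hji] using Cl.proj B (2 : Fin 3)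
      · cases hxk : x k with
        | true => simpa [hki, hkj, hxk] using Cl.proj B (0 : Fin 3)
        | false => simpa [hki, hkj, hxk] using Cl.minor h0 (fun _ => (0 : Fin 3))
  have g00 : g true false false = f x := by
    show f _ = _
    congr 1
    funext k
    by_cases hki : k = i
    · simp [hki, hi]
    · by_cases hkj : k = j
      · simp [hkj, hj]
      · simp [hki, hkj]
  have g10 : g true true false = f (Function.update x i true) := by
    show f _ = _
    congr 1
    funext k
    by_cases hki : k = i
    · simp [hki]
    · by_cases hkj : k = j
      · have hji : ¬ j = i := fun h => hij h.symm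
        simp [hkj, hji, hj]
      · simp [hki, hkj]
  have g01 : g true false true = f (Function.update x j true) := by
    show f _ = _
    congr 1
    funext k
    by_cases hki : k = i
    · simp [hki, hij, hi]
    · by_cases hkj : k = j
      · have hji : ¬ j = i := fun h => hij h.symm
        simp [hkj, hji]
      · simp [hki, hkj]
  have g11 : g true true true = f (Function.update (Function.update x i true) j true) := by
    show f _ = _
    congr 1
    funext k
    by_cases hki : k = i
    · simp [hki, hij]
    · by_cases hkj : k = j
      · simp [hkj]
      · simp [hki, hkj]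
  rw [← g00, ← g10, ← g01, ← g11] at hodd
  have c0 : Cl B 2 fun _ => false := Cl.minor h0 (fun _ => (0 : Fin 2))
  have pc := Cl.proj B (0 : Fin 2)
  have pd := Cl.proj B (1 : Fin 2)
  have h5 : Cl B 2 fun z => ((g (z 0) false false ^^ g (z 0) (z 0) false) ^^ g (z 0) false (z 1)) ^^ g (z 0) (z 0) (z 1) :=
    Cl.app2 hx (Cl.app2 hx (Cl.app2 hx (Cl.app3 hg pc c0 c0) (Cl.app3 hg pc pc c0)) (Cl.app3 hg pc c0 pd)) (Cl.app3 hg pc pc pd)
  have e : (fun z : Fin 2 → Bool => ((g (z 0) false false ^^ g (z 0) (z 0) false) ^^ g (z 0) false (z 1)) ^^ g (z 0) (z 0) (z 1)) =
      fun z => z 0 && z 1 := by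
    funext z
    generalize z 0 = c
    generalize z 1 = d
    cases c <;> cases d
    · generalize g false false false = a
      cases a <;> rfl
    · generalize g false false false = a
      generalize g false false true = b
      cases a <;> cases b <;> rfl
    · generalize g true false false = a
      generalize g true true false = b
      cases a <;> cases b <;> rfl
    · exact hodd
  rw [e] at h5
  exact h5

end Pool.Agent.MP_ca1109_lc.Post
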