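import Pool.Agent.MP_ca1109_lc.Post.P3
import Pool.Agent.MP_ca1109_lc.Post.P4b
import Pool.Agent.MP_ca1109_lc.Post.C1

/-!
# Hard bases
-/

namespace Pool.Agent.MP_ca1109_lc.Post

/-- The basis is contained in none of the four easy classes. -/
structure Hard (B : Basis) : Prop where
  aff : ¬ ∀ i, Affine (B.fn i)
  and : ¬ ∀ i, IsAnd (B.fn i)
  or : ¬ ∀ i, IsOr (B.fn i)
  sd : ¬ ∀ i, SelfDual (B.fn i)

variable {B : Basis}

theorem Hard.dual (h : Hard B) : Hard B.dual :=
  ⟨fun h' => h.aff fun i => affine_dl.1 (h' i), fun h' => h.or fun i => isAnd_dl.1 (h' i),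
    fun h' => h.and fun i => isOr_dl.1 (h' i), fun h' => h.sd fun i => selfDual_dl.1 (h' i)⟩

theorem Cl2.congr {u v : Bool → Bool → Bool} (h : Cl2 B u) (huv : ∀ a b, u a b = v a b) :
    Cl2 B v := by
  have : u = v := by
    funext a b
    exact huv a b
  rwa [← this]

theorem Cl3.congr {u v : Bool → Bool → Bool → Bool} (h : Cl3 B u)
    (huv : ∀ a b c, u a b c = v a b c) : Cl3 B v := by
  have : u = v := by
    funext a b c
    exact huv a b c
  rwa [← this]

theorem Cl1.congr {u v : Bool → Bool} (h : Cl1 B u) (huv : ∀ a, u a = v a) : Cl1 B v := by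
  have : u = v := by
    funext a
    exact huv a
  rwa [← this]

theorem Cl.congr {n : ℕ} {u v : BF n} (h : Cl B n u) (huv : ∀ x, u x = v x) : Cl B n v := by
  have : u = v := by
    funext x
    exact huv x
  rwa [← this]

/-- AND and OR give `x ∧ (y ∨ z)`. -/
theorem h_of_and_or (ha : Cl2 B fun a b => a && b) (ho : Cl2 B fun a b => a || b) :
    Cl3 B fun a b c => a && (b || c) :=
  Cl.app2 ha (Cl.proj B 0) (Cl.app2 ho (Cl.proj B 1) (Cl.proj B 2))

/-- `x ∧ (y ∨ z)` gives AND. -/
theorem and_of_h (hh : Cl3 B fun a b c => a && (b || c)) : Cl2 B fun a b => a && b :=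
  Cl.congr (Cl.app3 hh (Cl.proj B 0) (Cl.proj B 1) (Cl.proj B 1)) fun x => by
    cases x 0 <;> cases x 1 <;> rfl

/-- AND and negation give OR. -/
theorem or_of_neg (hn : Cl1 B fun a => !a) (ha : Cl2 B fun a b => a && b) :
    Cl2 B fun a b => a || b :=
  Cl.congr (Cl.app1 hn (Cl.app2 ha (Cl.app1 hn (Cl.proj B 0)) (Cl.app1 hn (Cl.proj B 1))))
    fun x => by cases x 0 <;> cases x 1 <;> rfl

/-- With the negation. -/
theorem Hard.of_neg (h : Hard B) (hn : Cl1 B fun a => !a) : Cl2 B fun a b => a && b := by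
  obtain ⟨i, hi⟩ := not_forall.1 h.sd
  obtain ⟨j, hj⟩ := not_forall.1 h.aff
  obtain ⟨h0, h1⟩ := const_of_neg hn (Cl.fn B i) hi
  exact and_of_neg h0 h1 hn (Cl.fn B j) hj

/-- With both constants: AND and OR are in the clone. -/
theorem Hard.of_consts (h : Hard B) (h0 : Cl1 B fun _ => false) (h1 : Cl1 B fun _ => true) :
    Cl2 B (fun a b => a && b) ∧ Cl2 B (fun a b => a || b) := by
  by_cases hm : ∀ i, Mono (B.fn i)
  · obtain ⟨i, hi⟩ := not_forall.1 h.and
    obtain ⟨j, hj⟩ := not_forall.1 h.or
    exact ⟨and_of_mono h0 h1 (Cl.fn B j) (hm j) hj, or_of_mono h0 h1 (Cl.fn B i) (hm i) hi⟩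
  · obtain ⟨i, hi⟩ := not_forall.1 hm
    have hn := neg_of_not_mono h0 h1 (Cl.fn B i) hi
    exact ⟨h.of_neg hn, or_of_neg hn (h.of_neg hn)⟩

/-- With the constant `0`. -/
theorem Hard.of_zero (h : Hard B) (h0 : Cl1 B fun _ => false) :
    Cl3 B fun a b c => a && (b || c) := by
  by_cases hz : ∀ i, B.fn i (fun _ => false) = false
  · obtain ⟨i, hi⟩ := not_forall.1 h.or
    obtain ⟨j, hj⟩ := not_forall.1 h.aff
    obtain ⟨k, hk⟩ := not_forall.1 h.and
    have ha : Cl2 B fun a b => a && b := by
      rcases and_or_xor h0 (Cl.fn B i) (hz i) hi with ha | hx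
      · exact ha
      · exact and_of_xor h0 hx (Cl.fn B j) hj
    exact h_of_and_zero ha (Cl.fn B k) (hz k) hk
  · obtain ⟨i, hi⟩ := not_forall.1 hz
    rw [Bool.not_eq_false] at hi
    have hu : Cl1 B fun a => B.fn i fun _ => a := Cl.minor (Cl.fn B i) fun _ => 0
    cases h1 : B.fn i fun _ => true
    · have hn : Cl1 B fun a => !a := hu.congr fun a => by
        cases a
        · exact hi
        · exact h1
      exact h_of_and_or (h.of_neg hn) (or_of_neg hn (h.of_neg hn))
    · have hc : Cl1 B fun _ => true := hu.congr fun a => by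
        cases a
        · exact hi
        · exact h1
      obtain ⟨ha, ho⟩ := h.of_consts h0 hc
      exact h_of_and_or ha ho

/-- Every hard basis generates `x ∧ (y ∨ z)` or `x ∨ (y ∧ z)`. -/
theorem Hard.post (h : Hard B) :
    Cl3 B (fun a b c => a && (b || c)) ∨ Cl3 B (fun a b c => a || (b && c)) := by
  by_cases hid : ∀ i, Idem (B.fn i)
  · obtain ⟨i, hi⟩ := not_forall.1 h.sd
    obtain ⟨j, hj⟩ := not_forall.1 h.and
    obtain ⟨k, hk⟩ := not_forall.1 h.or
    rcases and_or_of_idem (Cl.fn B i) (hid i) hi with ha | ho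
    · exact Or.inl (h_of_and ha (Cl.fn B j) (hid j) hj)
    · exact Or.inr (h_of_or ho (Cl.fn B k) (hid k) hk)
  · obtain ⟨i, hi⟩ := not_forall.1 hid
    rcases unary_of_not_idem (Cl.fn B i) hi with h0 | h1 | hn
    · exact Or.inl (h.of_zero h0)
    · right
      have h2 : Cl1 B.dual fun _ => false := cl1_dual.2 h1
      have h3 := cl3_dual.1 (h.dual.of_zero h2)
      refine h3.congr fun a b c => ?_
      cases a <;> cases b <;> cases c <;> rfl
    · exact Or.inl (h_of_and_or (h.of_neg hn) (or_of_neg hn (h.of_neg hn)))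

/-- `x ∧ (y ∨ z)` and a function which is not intersecting give AND and OR. -/
theorem or_of_h (hh : Cl3 B fun a b c => a && (b || c)) (h1 : ¬ ∀ i, Inter (B.fn i)) :
    Cl2 B (fun a b => a && b) ∧ Cl2 B (fun a b => a || b) := by
  have ha := and_of_h hh
  refine ⟨ha, ?_⟩
  obtain ⟨i, hi⟩ := not_forall.1 h1
  unfold Inter at hi
  push Not at hi
  obtain ⟨x, y, hx, hy, hxy⟩ := hi
  -- the coordinates with `x` get `b`, those with `y` get `c`, the others `b ∧ c`
  set g : Bool → Bool → Bool := fun b c => B.fn i fun j => if x j then b else if y j then c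
    else b && c with hg
  have hgc : Cl2 B g := by
    refine Cl.comp (Cl.fn B i) (f := fun j z => if x j then z 0 else if y j then z 1
      else z 0 && z 1) fun j => ?_
    cases x j
    · cases y j
      · exact Cl.app2 ha (Cl.proj B 0) (Cl.proj B 1)
      · exact Cl.proj B 1
    · exact Cl.proj B 0
  have g10 : g true false = true := by
    refine Eq.trans (congrArg (B.fn i) (funext fun j => ?_)) hx
    cases x j
    · cases y j <;> rfl
    · rfl
  have g01 : g false true = true := by
    refine Eq.trans (congrArg (B.fn i) (funext fun j => ?_)) hy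
    cases hxj : x j
    · cases y j <;> rfl
    · have := hxy j hxj
      cases hyj : y j
      · rfl
      · exact absurd hyj this
  have hpr : ∀ (u v : BF 2), Cl B 2 u → Cl B 2 v → Cl B 2 fun x => g (u x) (v x) :=
    fun u v hu hv => Cl.app2 hgc hu hv
  cases g00 : g false false
  · cases g11 : g true true
    · -- XOR
      refine Cl.congr (hpr _ _ (hpr _ _ (Cl.proj B 0) (Cl.proj B 1))
        (Cl.app2 ha (Cl.proj B 0) (Cl.proj B 1))) fun z => ?_
      cases z 0 <;> cases z 1 <;> simp [g00, g10, g01, g11]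
    · refine hgc.congr fun a b => ?_
      cases a <;> cases b <;> simp [g00, g10, g01, g11]
  · cases g11 : g true true
    · -- NAND
      refine Cl.congr (hpr _ _ (hpr _ _ (Cl.proj B 0) (Cl.proj B 0))
        (hpr _ _ (Cl.proj B 1) (Cl.proj B 1))) fun z => ?_
      cases z 0 <;> cases z 1 <;> simp [g00, g10, g01, g11]
    · -- constant 1
      refine Cl.congr (Cl.app3 hh hgc (Cl.proj B 0) (Cl.proj B 1)) fun z => ?_
      cases z 0 <;> cases z 1 <;> simp [g00, g10, g01, g11]

theorem Hard.not_inter_of_or (ho : Cl3 B (fun a b c => a || (b && c)))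
    (h1 : ∀ i, Inter (B.fn i)) : False := by
  have h2 := BAny.inter h1 ho
  obtain ⟨i, hi, hi'⟩ := h2 ![true, false, false] ![false, true, true] rfl rfl
  fin_cases i
  · simp at hi'
  · simp at hi
  · simp at hi

/-- Hard bases which are neither intersecting nor co-intersecting generate AND and OR. -/
theorem Hard.and_or (h : Hard B) (h1 : ¬ ∀ i, Inter (B.fn i)) (h2 : ¬ ∀ i, CoInter (B.fn i)) :
    Cl2 B (fun a b => a && b) ∧ Cl2 B (fun a b => a || b) := by
  rcases h.post with hh | hh
  · exact or_of_h hh h1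
  · have h3 : Cl3 B.dual fun a b c => a && (b || c) := by
      refine cl3_dual.2 (hh.congr fun a b c => ?_)
      cases a <;> cases b <;> cases c <;> rfl
    obtain ⟨ha, ho⟩ := or_of_h h3 fun h4 => h2 fun i => by
      have := h4 i
      exact inter_dl.1 this
    constructor
    · refine (cl2_dual.1 ho).congr fun a b => ?_
      cases a <;> cases b <;> rfl
    · refine (cl2_dual.1 ha).congr fun a b => ?_
      cases a <;> cases b <;> rfl

/-- Intersecting hard bases generate `x ∧ (y ∨ z)`. -/
theorem Hard.of_inter (h : Hard B) (h1 : ∀ i, Inter (B.fn i)) :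
    Cl3 B fun a b c => a && (b || c) := by
  rcases h.post with hh | hh
  · exact hh
  · exact absurd (Hard.not_inter_of_or hh h1) id

/-- A function which is not monotone, the constant `0`, AND: `x ∧ ¬ y` or the function accepts the
all-zero point. -/
theorem andnot_of_zero (ha : Cl2 B fun a b => a && b) (h0 : Cl1 B fun _ => false) {r : ℕ}
    {f : BF r} (hf : Cl B r f) (hm : ¬ Mono f) :
    (Cl2 B fun a b => a && !b) ∨ f (fun _ => false) = true := by
  unfold Mono at hm
  push Not at hm
  obtain ⟨x, y, hxy, hx, hy⟩ := hm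
  have hy : f y = false := by
    cases h : f y
    · rfl
    · exact absurd h hy
  cases hz : f fun _ => false
  · left
    have hg : Cl2 B fun b c => f fun j => if x j then b else if y j then b && c else false := by
      refine Cl.comp hf (f := fun j z => if x j then z 0 else if y j then z 0 && z 1
        else false) fun j => ?_
      cases x j
      · cases y j
        · exact Cl.app1 h0 (Cl.proj B 0)
        · exact Cl.app2 ha (Cl.proj B 0) (Cl.proj B 1)
      · exact Cl.proj B 0
    refine hg.congr fun b c => ?_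
    cases b
    · refine Eq.trans (congrArg f (funext fun j => ?_)) hz
      cases x j <;> cases y j <;> rfl
    · cases c
      · refine Eq.trans (congrArg f (funext fun j => ?_)) hx
        cases x j <;> cases y j <;> rfl
      · refine Eq.trans (congrArg f (funext fun j => ?_)) hy
        cases hxj : x j
        · cases y j <;> rfl
        · rw [hxy j hxj]
          rfl
  · exact Or.inr rfl

/-- Intersecting hard bases which are neither monotone nor idempotent generate `x ∧ ¬y`. -/
theorem Hard.andnot (h : Hard B) (h1 : ∀ i, Inter (B.fn i)) (h2 : ¬ ∀ i, Mono (B.fn i))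
    (h3 : ¬ ∀ i, Idem (B.fn i)) : Cl2 B fun a b => a && !b := by
  have ha := and_of_h (h.of_inter h1)
  have hz : ∀ i, B.fn i (fun _ => false) = false := fun i => by
    by_contra hc
    rw [Bool.not_eq_false] at hc
    obtain ⟨j, hj, -⟩ := h1 i _ _ hc hc
    simp at hj
  obtain ⟨i, hi⟩ := not_forall.1 h3
  obtain ⟨k, hk⟩ := not_forall.1 h2
  have h0 : Cl1 B fun _ => false := by
    have hu : Cl1 B fun a => B.fn i fun _ => a := Cl.minor (Cl.fn B i) fun _ => 0
    refine hu.congr fun a => ?_
    cases a
    · exact hz i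
    · by_contra hc
      rw [Bool.not_eq_false] at hc
      exact hi ⟨hz i, hc⟩
  rcases andnot_of_zero ha h0 (Cl.fn B k) hk with h4 | h4
  · exact h4
  · rw [hz k] at h4
    exact absurd h4 (by simp)

/-- The constant `0` and a function which is not monotone. -/
theorem Hard.full_zero (ha : Cl2 B fun a b => a && b) (h3 : ¬ ∀ i, Mono (B.fn i))
    (h0 : Cl1 B fun _ => false) : Cl2 B fun a b => a && !b := by
  obtain ⟨k, hk⟩ := not_forall.1 h3
  rcases andnot_of_zero ha h0 (Cl.fn B k) hk with h4 | h4
  · exact h4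
  · have hn : Cl1 B fun a => !a := by
      have hu : Cl1 B fun a => B.fn k fun _ => a := Cl.minor (Cl.fn B k) fun _ => 0
      cases h5 : B.fn k fun _ => true
      · refine hu.congr fun a => ?_
        cases a
        · exact h4
        · exact h5
      · have h1 : Cl1 B fun _ => true := hu.congr fun a => by
          cases a
          · exact h4
          · exact h5
        exact neg_of_not_mono h0 h1 (Cl.fn B k) hk
    exact Cl.app2 ha (Cl.proj B 0) (Cl.app1 hn (Cl.proj B 1))

/-- Hard bases with none of the four properties generate AND, OR and `x ∧ ¬y` or `x ∨ ¬y`. -/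
theorem Hard.full (h : Hard B) (h1 : ¬ ∀ i, Inter (B.fn i)) (h2 : ¬ ∀ i, CoInter (B.fn i))
    (h3 : ¬ ∀ i, Mono (B.fn i)) (h4 : ¬ ∀ i, Idem (B.fn i)) :
    Cl2 B (fun a b => a && !b) ∨ Cl2 B (fun a b => a || !b) := by
  obtain ⟨ha, ho⟩ := h.and_or h1 h2
  obtain ⟨i, hi⟩ := not_forall.1 h4
  rcases unary_of_not_idem (Cl.fn B i) hi with h0 | hc | hn
  · exact Or.inl (Hard.full_zero ha h3 h0)
  · right
    have ha' : Cl2 B.dual fun a b => a && b := by
      refine cl2_dual.2 (ho.congr fun a b => ?_)
      cases a <;> cases b <;> rfl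
    have h5 : Cl2 B.dual fun a b => a && !b :=
      Hard.full_zero ha' (fun h6 => h3 fun j => mono_dl.1 (h6 j)) (cl1_dual.2 hc)
    refine (cl2_dual.1 h5).congr fun a b => ?_
    cases a <;> cases b <;> rfl
  · exact Or.inl (Cl.app2 ha (Cl.proj B 0) (Cl.app1 hn (Cl.proj B 1)))

end Pool.Agent.MP_ca1109_lc.Post
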