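import Pool.Agent.MP_ca1109_lc.Post.P1
import Pool.Agent.MP_ca1109_lc.MonoCirc

/-!
# Simulation of monotone circuits over a basis
-/

namespace Pool.Agent.MP_ca1109_lc.Post

open Set

variable {B : Basis} {K : ℕ}

theorem p6_two {g : BF 2} (hg : BTest B K 2 g) {α : Type*} {base F : Set (α → Bool)} {s : ℕ} (h : BGets B base s F)
    {a b : α → Bool} (ha : a ∈ F) (hb : b ∈ F) : BGets B base (s + K) (insert (fun x => g ![a x, b x]) F) := by
  have h1 := BGets.subst hg h ![a, b] (fun j => by
    refine Fin.cases ?_ (fun j => ?_) j
    · exact ha
    · refine Fin.cases ?_ (fun j => j.elim0) j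
      exact hb)
  have e : (fun x => g fun j => (![a, b] : Fin 2 → α → Bool) j x) = fun x => g ![a x, b x] := by
    funext x
    refine congrArg g (funext fun j => ?_)
    refine Fin.cases rfl (fun j => ?_) j
    refine Fin.cases rfl (fun j => j.elim0) j
  rw [e] at h1
  exact h1

theorem p6_three {g : BF 3} (hg : BTest B K 3 g) {α : Type*} {base F : Set (α → Bool)} {s : ℕ} (h : BGets B base s F)
    {a b c : α → Bool} (ha : a ∈ F) (hb : b ∈ F) (hc : c ∈ F) :
    BGets B base (s + K) (insert (fun x => g ![a x, b x, c x]) F) := by
  have h1 := BGets.subst hg h ![a, b, c] (fun j => by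
    refine Fin.cases ?_ (fun j => ?_) j
    · exact ha
    · refine Fin.cases ?_ (fun j => ?_) j
      · exact hb
      · refine Fin.cases ?_ (fun j => j.elim0) j
        exact hc)
  have e : (fun x => g fun j => (![a, b, c] : Fin 3 → α → Bool) j x) = fun x => g ![a x, b x, c x] := by
    funext x
    refine congrArg g (funext fun j => ?_)
    refine Fin.cases rfl (fun j => ?_) j
    refine Fin.cases rfl (fun j => ?_) j
    refine Fin.cases rfl (fun j => j.elim0) j
  rw [e] at h1
  exact h1

/-- AND and OR gates may be replaced by circuits over `B`.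
Proof: induction on `h`. `base`: `F' = base`, a member of `bas M` is a coordinate or constant.
`and`: let `f, g` be the two functions. If one of them is constant then `f ∧ g` is constant or equal
to `f` or `g`; otherwise one application of `BGets.subst ha` (`K` more gates) adds the function
`fun x => f (φ x) && g (φ x)`. `or`: the same. `not`: impossible. -/
theorem sim_plain (ha : BTest B K 2 fun x => x 0 && x 1) (ho : BTest B K 2 fun x => x 0 || x 1)
    {α : Type*} {base : Set (α → Bool)} {M s : ℕ} (φ : α → Fin M → Bool)
    (hφ : ∀ i, (fun x => φ x i) ∈ base) {F : Set (BF M)} (h : Der false (bas M) s F) :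
    ∃ F', BGets B base (K * s) F' ∧ base ⊆ F' ∧
      ∀ f ∈ F, f ∈ cst (Fin M → Bool) ∨ (fun x => f (φ x)) ∈ F' := by
  induction h with
  | base =>
    refine ⟨base, (BGets.refl B base).weaken subset_rfl (Nat.zero_le _) subset_rfl, subset_rfl, ?_⟩
    rintro f (⟨i, rfl⟩ | hf)
    · exact Or.inr (hφ i)
    · exact Or.inl hf
  | @and s F f g h hf hg ih =>
    obtain ⟨F', h1, h2, h3⟩ := ih
    have h1' : BGets B base (K * (s + 1)) F' := h1.weaken subset_rfl (Nat.mul_le_mul_left K (Nat.le_succ s)) subset_rfl
    have fin : ∀ F'' : Set (α → Bool), BGets B base (K * (s + 1)) F'' → F' ⊆ F'' →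
        ((fun x => f x && g x) ∈ cst (Fin M → Bool) ∨ (fun x => f (φ x) && g (φ x)) ∈ F'') →
        ∃ F', BGets B base (K * (s + 1)) F' ∧ base ⊆ F' ∧
          ∀ f' ∈ insert (fun x => f x && g x) F, f' ∈ cst (Fin M → Bool) ∨ (fun x => f' (φ x)) ∈ F' := by
      intro F'' k1 k2 k3
      refine ⟨F'', k1, h2.trans k2, ?_⟩
      rintro f' (rfl | hf')
      · exact k3
      · exact (h3 f' hf').imp id fun k => k2 k
    rcases h3 f hf with hc | hf'
    · rcases hc with rfl | rfl
      · refine fin F' h1' subset_rfl (Or.inl (Or.inl ?_))
        funext x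
        rfl
      · refine fin F' h1' subset_rfl ?_
        have e : (fun x => (fun _ : Fin M → Bool => true) x && g x) = g := by
          funext x
          exact Bool.true_and _
        rw [e]
        refine (h3 g hg).imp id fun k => ?_
        have e' : (fun x => (fun _ : Fin M → Bool => true) (φ x) && g (φ x)) = fun x => g (φ x) := by
          funext x
          exact Bool.true_and _
        rw [e']
        exact k
    · rcases h3 g hg with hc | hg'
      · rcases hc with rfl | rfl
        · refine fin F' h1' subset_rfl (Or.inl (Or.inl ?_))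
          funext x
          exact Bool.and_false _
        · refine fin F' h1' subset_rfl (Or.inr ?_)
          have e' : (fun x => f (φ x) && (fun _ : Fin M → Bool => true) (φ x)) = fun x => f (φ x) := by
            funext x
            exact Bool.and_true _
          rw [e']
          exact hf'
      · refine fin _ (p6_two ha h1 hf' hg') (subset_insert _ _) (Or.inr (Or.inl rfl))
  | @or s F f g h hf hg ih =>
    obtain ⟨F', h1, h2, h3⟩ := ih
    have h1' : BGets B base (K * (s + 1)) F' := h1.weaken subset_rfl (Nat.mul_le_mul_left K (Nat.le_succ s)) subset_rfl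
    have fin : ∀ F'' : Set (α → Bool), BGets B base (K * (s + 1)) F'' → F' ⊆ F'' →
        ((fun x => f x || g x) ∈ cst (Fin M → Bool) ∨ (fun x => f (φ x) || g (φ x)) ∈ F'') →
        ∃ F', BGets B base (K * (s + 1)) F' ∧ base ⊆ F' ∧
          ∀ f' ∈ insert (fun x => f x || g x) F, f' ∈ cst (Fin M → Bool) ∨ (fun x => f' (φ x)) ∈ F' := by
      intro F'' k1 k2 k3
      refine ⟨F'', k1, h2.trans k2, ?_⟩
      rintro f' (rfl | hf')
      · exact k3
      · exact (h3 f' hf').imp id fun k => k2 k
    rcases h3 f hf with hc | hf'
    · rcases hc with rfl | rfl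
      · refine fin F' h1' subset_rfl ?_
        have e : (fun x => (fun _ : Fin M → Bool => false) x || g x) = g := by
          funext x
          exact Bool.false_or _
        rw [e]
        refine (h3 g hg).imp id fun k => ?_
        have e' : (fun x => (fun _ : Fin M → Bool => false) (φ x) || g (φ x)) = fun x => g (φ x) := by
          funext x
          exact Bool.false_or _
        rw [e']
        exact k
      · refine fin F' h1' subset_rfl (Or.inl (Or.inr ?_))
        funext x
        rfl
    · rcases h3 g hg with hc | hg'
      · rcases hc with rfl | rfl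
        · refine fin F' h1' subset_rfl (Or.inr ?_)
          have e' : (fun x => f (φ x) || (fun _ : Fin M → Bool => false) (φ x)) = fun x => f (φ x) := by
            funext x
            exact Bool.or_false _
          rw [e']
          exact hf'
        · refine fin F' h1' subset_rfl (Or.inl (Or.inr ?_))
          funext x
          exact Bool.or_true _
      · refine fin _ (p6_two ho h1 hf' hg') (subset_insert _ _) (Or.inr (Or.inl rfl))
  | not hn _ _ _ => exact absurd hn (by simp)

/-- With `h(x, y, z) = x ∧ (y ∨ z)` one computes the conjunctions of all functions with a guard `t`.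
Proof: induction on `h`. `base`: the functions `t ∧ x_i = h(t, x_i, x_i)` cost `K` gates each
(`BGets.iUnion`, together `M * K`); `t ∧ 1 = t ∈ base`; the constant `false` is the first
alternative. `and` (functions `f, g`): if one of them is constantly false, so is `f ∧ g`; otherwise
`t ∧ (f ∧ g) = h(t ∧ f, t ∧ g, t ∧ g)`. `or`: if `f` is constantly false then `f ∨ g = g`, if `g`
is constantly false then `f ∨ g = f`; otherwise `t ∧ (f ∨ g) = h(t, t ∧ f, t ∧ g)`. `not`:
impossible. -/
theorem sim_guard (hh : BTest B K 3 fun x => x 0 && (x 1 || x 2))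
    {α : Type*} {base : Set (α → Bool)} {M s : ℕ} (φ : α → Fin M → Bool)
    (hφ : ∀ i, (fun x => φ x i) ∈ base) {t : α → Bool} (ht : t ∈ base) {F : Set (BF M)}
    (h : Der false (bas M) s F) :
    ∃ F', BGets B base (K * (M + s)) F' ∧ base ⊆ F' ∧
      ∀ f ∈ F, f = (fun _ => false) ∨ (fun x => t x && f (φ x)) ∈ F' := by
  induction h with
  | base =>
    have h1 : ∀ i : Fin M, BGets B base K {fun x => t x && φ x i} := by
      intro i
      have h2 := p6_three hh (BGets.refl B base) ht (hφ i) (hφ i)
      refine h2.weaken subset_rfl (by omega) ?_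
      rintro f hf
      rw [mem_singleton_iff] at hf
      left
      rw [hf]
      funext x
      show (t x && φ x i) = (t x && (φ x i || φ x i))
      rw [Bool.or_self]
    have h3 := (BGets.refl B base).union (BGets.iUnion K (fun i : Fin M => ({fun x => t x && φ x i} : Set (α → Bool))) h1)
    refine ⟨_, h3.weaken subset_rfl ?_ subset_rfl, subset_union_left, ?_⟩
    · rw [Fintype.card_fin, Nat.zero_add, Nat.add_zero, Nat.mul_comm]
    · rintro f (⟨i, rfl⟩ | hf)
      · exact Or.inr (Or.inr (mem_iUnion.2 ⟨i, rfl⟩))
      · rcases hf with rfl | rfl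
        · exact Or.inl rfl
        · right
          left
          have e : (fun x => t x && (fun _ : Fin M → Bool => true) (φ x)) = t := by
            funext x
            exact Bool.and_true _
          rw [e]
          exact ht
  | @and s F f g h hf hg ih =>
    obtain ⟨F', h1, h2, h3⟩ := ih
    have h1' : BGets B base (K * (M + (s + 1))) F' := h1.weaken subset_rfl (Nat.mul_le_mul_left K (by omega)) subset_rfl
    have fin : ∀ F'' : Set (α → Bool), BGets B base (K * (M + (s + 1))) F'' → F' ⊆ F'' →
        ((fun x => f x && g x) = (fun _ => false) ∨ (fun x => t x && (f (φ x) && g (φ x))) ∈ F'') →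
        ∃ F', BGets B base (K * (M + (s + 1))) F' ∧ base ⊆ F' ∧
          ∀ f' ∈ insert (fun x => f x && g x) F, f' = (fun _ => false) ∨ (fun x => t x && f' (φ x)) ∈ F' := by
      intro F'' k1 k2 k3
      refine ⟨F'', k1, h2.trans k2, ?_⟩
      rintro f' (rfl | hf')
      · exact k3
      · exact (h3 f' hf').imp id fun k => k2 k
    rcases h3 f hf with rfl | hf'
    · refine fin F' h1' subset_rfl (Or.inl ?_)
      funext x
      rfl
    · rcases h3 g hg with rfl | hg'
      · refine fin F' h1' subset_rfl (Or.inl ?_)
        funext x
        exact Bool.and_false _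
      · refine fin _ (p6_three hh h1 hf' hg' hg') (subset_insert _ _) (Or.inr (Or.inl ?_))
        funext x
        show (t x && (f (φ x) && g (φ x))) = ((t x && f (φ x)) && ((t x && g (φ x)) || (t x && g (φ x))))
        generalize t x = a
        generalize f (φ x) = b
        generalize g (φ x) = c
        revert a b c
        decide
  | @or s F f g h hf hg ih =>
    obtain ⟨F', h1, h2, h3⟩ := ih
    have h1' : BGets B base (K * (M + (s + 1))) F' := h1.weaken subset_rfl (Nat.mul_le_mul_left K (by omega)) subset_rfl
    have fin : ∀ F'' : Set (α → Bool), BGets B base (K * (M + (s + 1))) F'' → F' ⊆ F'' →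
        ((fun x => f x || g x) = (fun _ => false) ∨ (fun x => t x && (f (φ x) || g (φ x))) ∈ F'') →
        ∃ F', BGets B base (K * (M + (s + 1))) F' ∧ base ⊆ F' ∧
          ∀ f' ∈ insert (fun x => f x || g x) F, f' = (fun _ => false) ∨ (fun x => t x && f' (φ x)) ∈ F' := by
      intro F'' k1 k2 k3
      refine ⟨F'', k1, h2.trans k2, ?_⟩
      rintro f' (rfl | hf')
      · exact k3
      · exact (h3 f' hf').imp id fun k => k2 k
    rcases h3 f hf with rfl | hf'
    · refine fin F' h1' subset_rfl ?_
      have e : (fun x => (fun _ : Fin M → Bool => false) x || g x) = g := by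
        funext x
        exact Bool.false_or _
      rw [e]
      refine (h3 g hg).imp id fun k => ?_
      have e' : (fun x => t x && ((fun _ : Fin M → Bool => false) (φ x) || g (φ x))) = fun x => t x && g (φ x) := by
        funext x
        exact congrArg (t x && ·) (Bool.false_or _)
      rw [e']
      exact k
    · rcases h3 g hg with rfl | hg'
      · refine fin F' h1' subset_rfl (Or.inr ?_)
        have e' : (fun x => t x && (f (φ x) || (fun _ : Fin M → Bool => false) (φ x))) = fun x => t x && f (φ x) := by
          funext x
          exact congrArg (t x && ·) (Bool.or_false _)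
        rw [e']
        exact hf'
      · have ht' : t ∈ F' := h2 ht
        refine fin _ (p6_three hh h1 ht' hf' hg') (subset_insert _ _) (Or.inr (Or.inl ?_))
        funext x
        show (t x && (f (φ x) || g (φ x))) = (t x && ((t x && f (φ x)) || (t x && g (φ x))))
        generalize t x = a
        generalize f (φ x) = b
        generalize g (φ x) = c
        revert a b c
        decide
  | not hn _ _ _ => exact absurd hn (by simp)

end Pool.Agent.MP_ca1109_lc.Post
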