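import Pool.Agent.MP_ca1109_lc.Post.P6

/-!
# Guarded tests over a basis
-/

namespace Pool.Agent.MP_ca1109_lc.Post

open Set

variable {B : Basis} {K : ℕ}

/-- The first `M` of `N` bits. -/
def res {M N : ℕ} (h : M ≤ N) (x : Fin N → Bool) : Fin M → Bool := fun i => x (Fin.castLE h i)

variable {M N S : ℕ} {P Q : BF M}

theorem p6b_plain (ha : BTest B K 2 fun x => x 0 && x 1) (ho : BTest B K 2 fun x => x 0 || x 1)
    {α : Type*} {base : Set (α → Bool)} (φ : α → Fin M → Bool)
    (hφ : ∀ i, (fun x => φ x i) ∈ base) (hP : Gets false (bas M) S {P}) :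
    P ∈ cst (Fin M → Bool) ∨ BGets B base (K * S) {fun x => P (φ x)} := by
  obtain ⟨s, hs, F, hF, hD⟩ := hP
  obtain ⟨F', h1, -, h2⟩ := sim_plain ha ho φ hφ hD
  rcases h2 P (hF rfl) with h3 | h3
  · exact Or.inl h3
  · exact Or.inr (h1.weaken subset_rfl (Nat.mul_le_mul_left K hs) (singleton_subset_iff.2 h3))

theorem p6b_guard (hh : BTest B K 3 fun x => x 0 && (x 1 || x 2))
    {α : Type*} {base : Set (α → Bool)} (φ : α → Fin M → Bool)
    (hφ : ∀ i, (fun x => φ x i) ∈ base) {t : α → Bool} (ht : t ∈ base)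
    (hP : Gets false (bas M) S {P}) :
    P = (fun _ => false) ∨ BGets B base (K * (M + S)) {fun x => t x && P (φ x)} := by
  obtain ⟨s, hs, F, hF, hD⟩ := hP
  obtain ⟨F', h1, -, h2⟩ := sim_guard hh φ hφ ht hD
  rcases h2 P (hF rfl) with h3 | h3
  · exact Or.inl h3
  · exact Or.inr (h1.weaken subset_rfl (Nat.mul_le_mul_left K (Nat.add_le_add_left hs M))
      (singleton_subset_iff.2 h3))

theorem p6b_core (hh : BTest B K 3 fun x => x 0 && (x 1 || x 2))
    (hd : BTest B K 2 fun x => x 0 && !(x 1))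
    {α : Type*} {base : Set (α → Bool)} (φ : α → Fin M → Bool)
    (hφ : ∀ i, (fun x => φ x i) ∈ base) {t : α → Bool} (ht : t ∈ base)
    (hP : Gets false (bas M) S {P}) (hQ : Gets false (bas M) S {Q}) :
    Q = (fun _ => false) ∨ BGets B base (K * (M + S) + K * (M + S) + K)
      {fun x => t x && (Q (φ x) && !(P (φ x)))} := by
  rcases p6b_guard hh φ hφ ht hQ with h1 | h1
  · exact Or.inl h1
  right
  rcases p6b_guard hh φ hφ ht hP with h2 | h2
  · refine h1.weaken subset_rfl (by omega) ?_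
    rw [singleton_subset_iff, mem_singleton_iff]
    funext x
    simp [h2]
  · have h3 := BGets.subst hd (h1.union h2) ![fun x => t x && Q (φ x), fun x => t x && P (φ x)]
      (fun j => by
        fin_cases j
        · exact Or.inl rfl
        · exact Or.inr rfl)
    refine h3.weaken subset_rfl le_rfl ?_
    rw [singleton_subset_iff]
    left
    funext x
    show (t x && (Q (φ x) && !(P (φ x)))) = ((t x && Q (φ x)) && !(t x && P (φ x)))
    cases t x <;> cases Q (φ x) <;> cases P (φ x) <;> rfl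

theorem p6b_or (ho : BTest B K 2 fun x => x 0 || x 1) (hN : M ≤ N) :
    ∀ j, j < M → BGets B (inp N) (K * j)
      (inp N ∪ {fun x => decide (∃ i : Fin M, (i : ℕ) ≤ j ∧ res hN x i = true)})
  | 0, h0 => by
    refine (BGets.refl B (inp N)).weaken subset_rfl (by omega) ?_
    refine union_subset subset_rfl ?_
    rw [singleton_subset_iff]
    refine ⟨⟨0, h0.trans_le hN⟩, ?_⟩
    funext x
    show x ⟨0, _⟩ = _
    rw [Bool.eq_iff_iff, decide_eq_true_iff]
    constructor
    · intro h
      exact ⟨⟨0, h0⟩, le_rfl, h⟩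
    · rintro ⟨i, hi, h⟩
      have : i = ⟨0, h0⟩ := Fin.ext (Nat.le_zero.1 hi)
      subst this
      exact h
  | j + 1, hj => by
    have ih := p6b_or ho hN j (by omega)
    have h3 := BGets.subst ho ih
      ![fun x => decide (∃ i : Fin M, (i : ℕ) ≤ j ∧ res hN x i = true),
        fun x => x (Fin.castLE hN ⟨j + 1, hj⟩)]
      (fun i => by
        fin_cases i
        · exact Or.inr rfl
        · exact Or.inl ⟨_, rfl⟩)
    refine h3.weaken subset_rfl (by rw [Nat.mul_succ]) ?_
    refine union_subset (fun u hu => Or.inr (Or.inl hu)) ?_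
    rw [singleton_subset_iff]
    left
    funext x
    show decide (∃ i : Fin M, (i : ℕ) ≤ j + 1 ∧ res hN x i = true) =
      (decide (∃ i : Fin M, (i : ℕ) ≤ j ∧ res hN x i = true) || x (Fin.castLE hN ⟨j + 1, hj⟩))
    rw [Bool.eq_iff_iff, Bool.or_eq_true, decide_eq_true_iff, decide_eq_true_iff]
    constructor
    · rintro ⟨i, hi, h⟩
      rcases Nat.lt_or_ge j i with h4 | h4
      · right
        have : i = ⟨j + 1, hj⟩ := Fin.ext (show (i : ℕ) = j + 1 by omega)
        subst this
        exact h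
      · exact Or.inl ⟨i, h4, h⟩
    · rintro (⟨i, hi, h⟩ | h)
      · exact ⟨i, by omega, h⟩
      · exact ⟨⟨j + 1, hj⟩, le_rfl, h⟩

theorem p6b_res (hN : M ≤ N) (i : Fin M) : (fun x => res hN x i) ∈ inp N :=
  ⟨Fin.castLE hN i, rfl⟩

theorem test_plain (ha : BTest B K 2 fun x => x 0 && x 1) (ho : BTest B K 2 fun x => x 0 || x 1)
    (hN : M ≤ N) (hS : 2 * S + 1 ≤ M) (hP : Gets false (bas M) S {P}) :
    P ∈ cst (Fin M → Bool) ∨ BTest B (4 * K * (M + 1)) N fun x => P (res hN x) := by
  refine (p6b_plain ha ho (res hN) (p6b_res hN) hP).imp id fun h => btest_iff.2 ?_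
  refine h.weaken subset_rfl ?_ subset_rfl
  calc K * S ≤ K * (4 * (M + 1)) := Nat.mul_le_mul_left K (by omega)
    _ = 4 * K * (M + 1) := by ring

/-- The guard is the bit `M`. -/
theorem test_guard (hh : BTest B K 3 fun x => x 0 && (x 1 || x 2)) (hN : M + 1 ≤ N)
    (hS : 2 * S + 1 ≤ M) (hP : Gets false (bas M) S {P}) :
    P = (fun _ => false) ∨
      BTest B (4 * K * (M + 1)) N fun x => x ⟨M, hN⟩ && P (res (Nat.le_of_succ_le hN) x) := by
  refine (p6b_guard hh (res (Nat.le_of_succ_le hN)) (p6b_res _)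
    (t := fun x => x ⟨M, hN⟩) ⟨⟨M, hN⟩, rfl⟩ hP).imp id fun h => btest_iff.2 ?_
  refine h.weaken subset_rfl ?_ subset_rfl
  calc K * (M + S) ≤ K * (4 * (M + 1)) := Nat.mul_le_mul_left K (by omega)
    _ = 4 * K * (M + 1) := by ring

/-- If `P` is constantly false this is the test of `test_guard` for `Q`; otherwise the test is
`(t ∧ Q) ∧ ¬ (t ∧ P)`. -/
theorem test_andnot (hh : BTest B K 3 fun x => x 0 && (x 1 || x 2))
    (hd : BTest B K 2 fun x => x 0 && !(x 1)) (hN : M + 1 ≤ N) (hS : 2 * S + 1 ≤ M)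
    (hP : Gets false (bas M) S {P}) (hQ : Gets false (bas M) S {Q}) :
    Q = (fun _ => false) ∨
      BTest B (4 * K * (M + 1)) N fun x => x ⟨M, hN⟩ &&
        (Q (res (Nat.le_of_succ_le hN) x) && !(P (res (Nat.le_of_succ_le hN) x))) := by
  refine (p6b_core hh hd (res (Nat.le_of_succ_le hN)) (p6b_res _)
    (t := fun x => x ⟨M, hN⟩) ⟨⟨M, hN⟩, rfl⟩ hP hQ).imp id fun h => btest_iff.2 ?_
  refine h.weaken subset_rfl ?_ subset_rfl
  calc K * (M + S) + K * (M + S) + K = K * (2 * (M + S) + 1) := by ring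
    _ ≤ K * (4 * (M + 1)) := Nat.mul_le_mul_left K (by omega)
    _ = 4 * K * (M + 1) := by ring

/-- The same with the guard `t = OR` of the first `M` bits, which costs at most `K * M` gates
(`0 < M`; induction over the first `j + 1` bits, `j < M`). -/
theorem test_full (ho : BTest B K 2 fun x => x 0 || x 1)
    (hh : BTest B K 3 fun x => x 0 && (x 1 || x 2)) (hd : BTest B K 2 fun x => x 0 && !(x 1))
    (hN : M ≤ N) (hS : 2 * S + 1 ≤ M) (hP : Gets false (bas M) S {P})
    (hQ : Gets false (bas M) S {Q}) :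
    Q = (fun _ => false) ∨
      BTest B (4 * K * (M + 1)) N fun x => decide (∃ i, res hN x i = true) &&
        (Q (res hN x) && !(P (res hN x))) := by
  have h1 := p6b_or ho hN (M - 1) (by omega)
  have e1 : (fun x : Fin N → Bool => decide (∃ i : Fin M, (i : ℕ) ≤ M - 1 ∧ res hN x i = true)) =
      fun x => decide (∃ i, res hN x i = true) := by
    funext x
    rw [Bool.eq_iff_iff, decide_eq_true_iff, decide_eq_true_iff]
    constructor
    · rintro ⟨i, -, h⟩
      exact ⟨i, h⟩
    · rintro ⟨i, h⟩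
      exact ⟨i, by omega, h⟩
  rw [e1] at h1
  refine (p6b_core hh hd (base := inp N ∪ (inp N ∪ {fun x => decide (∃ i, res hN x i = true)}))
    (res hN) (fun i => Or.inl (p6b_res hN i)) (t := fun x => decide (∃ i, res hN x i = true))
    (Or.inr (Or.inr rfl)) hP hQ).imp id fun h => btest_iff.2 ?_
  refine (h1.trans' h).weaken subset_rfl ?_ subset_union_right
  calc K * (M - 1) + (K * (M + S) + K * (M + S) + K) = K * ((M - 1) + 2 * (M + S) + 1) := by ring
    _ ≤ K * (4 * (M + 1)) := Nat.mul_le_mul_left K (by omega)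
    _ = 4 * K * (M + 1) := by ring

end Pool.Agent.MP_ca1109_lc.Post
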