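import Pool.Agent.MP_ca1109_lc.Post.P2
import Pool.Agent.MP_ca1109_lc.Post.C1
import Pool.Agent.MP_ca1109_lc.MonoProb

/-!
# Generators with constant outputs
-/

namespace Pool.Agent.MP_ca1109_lc.Post

open Set Pool.Agent.H66 Pool.Agent.MP_ca1109_lc.Mpg

variable {B : Basis} {m : ℕ} {T : BF m}

/-- The complementation of all coordinates. -/
def p9_compl (m : ℕ) : (Fin m → Bool) ≃ (Fin m → Bool) := Equiv.piCongrRight fun _ => Equiv.boolNot

theorem p9_compl_apply (x : Fin m → Bool) : p9_compl m x = fun i => !(x i) := rfl

theorem p9_prob_true {A : Type*} [Fintype A] [Nonempty A] {f : A → Bool} (h : ∀ a, f a = true) :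
    prob f = 1 := by
  have e : f = fun _ => true := funext h
  rw [e]
  exact prob_const_true

theorem p9_prob_false {A : Type*} [Fintype A] [Nonempty A] {f : A → Bool} (h : ∀ a, f a = false) :
    prob f = 0 := by
  have h1 := prob_not f
  have h2 : prob (fun a => !(f a)) = 1 := p9_prob_true fun a => by rw [h a]; rfl
  linarith

/-- Complementation is a bijection between the accepted and the rejected points (`prob_equiv`,
`prob_not`). -/
theorem SelfDual.prob_eq (h : SelfDual T) : prob T = 1 / 2 := by
  have h1 := prob_equiv (p9_compl m) T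
  have h2 : (fun x : Fin m → Bool => T (p9_compl m x)) = fun x => !(T x) := by
    funext x
    rw [p9_compl_apply]
    exact h x
  rw [h2, prob_not] at h1
  linarith

/-- Two complementary points are not both accepted. -/
theorem Inter.prob_le (h : Inter T) : prob T ≤ 1 / 2 := by
  have h1 := prob_equiv (p9_compl m) T
  have h2 : prob (fun x : Fin m → Bool => T (p9_compl m x)) ≤ prob fun x => !(T x) := by
    refine prob_mono fun x hx => ?_
    rw [p9_compl_apply] at hx
    by_contra hc
    have h3 : T x = true := by
      cases h4 : T x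
      · rw [h4] at hc; exact absurd rfl hc
      · rfl
    obtain ⟨i, hi1, hi2⟩ := h _ _ h3 hx
    rw [hi1] at hi2
    exact absurd hi2 (by decide)
  rw [prob_not] at h2
  linarith

/-- The generator `G n s = replicate n (w s)` with seeds of the constant length `d`
(`PolyTime.replicate`, see `mono_half` in `MonoThreshold.lean`): it has `bits n (G n s) = fun _ =>
w s`, `D n = d ≤ d * logb 2 n` for `2 ≤ n`, `D n < n` for `d < n`. -/
theorem logGen_const {𝒯 : ∀ n : ℕ, ((Fin n → Bool) → Bool) → Prop} {d : ℕ} {w : List Bool → Bool}
    (hw : PolyTime w) {e : ℝ}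
    (h : ∀ n T, 0 < n → 𝒯 n T →
      |prob (fun s : Fin d → Bool => T fun _ => w (List.ofFn s)) - prob T| ≤ e) :
    LogGen 𝒯 e := by
  refine ⟨fun _ => d, fun n s => List.replicate n (w s), PolyTime.const d,
    PolyTime.replicate PolyTime.fst (hw.comp PolyTime.snd), fun n s _ => by simp, d, ?_⟩
  filter_upwards [Filter.eventually_ge_atTop (d + 2)] with n hn
  refine ⟨?_, by omega, fun T hT => ?_⟩
  · have h1 : Real.logb 2 2 ≤ Real.logb 2 (n : ℝ) :=
      Real.logb_le_logb_of_le (by norm_num) (by norm_num) (by
        have : 2 ≤ n := by omega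
        exact_mod_cast this)
    rw [Real.logb_self_eq_one (by norm_num)] at h1
    have h2 : (0 : ℝ) ≤ d := Nat.cast_nonneg d
    nlinarith
  · have h1 : ∀ s : Fin d → Bool, T (bits n (List.replicate n (w (List.ofFn s)))) =
        T fun _ => w (List.ofFn s) := by
      intro s
      have h2 : bits n (List.replicate n (w (List.ofFn s))) = fun _ => w (List.ofFn s) := by
        funext i
        simp [bits, List.getD_eq_getElem?_getD, i.2]
      rw [h2]
    simp only [h1]
    exact h n T (by omega) hT

/-- `prob_nonneg`, `prob_le_one`. -/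
theorem gen_any_one (B : Basis) {e : ℝ} (he : 1 ≤ e) : LogGen (BAny B) e := by
  refine logGen_const (d := 0) (w := fun _ => false) (PolyTime.const false) fun n T _ _ => ?_
  have h1 := prob_nonneg (fun s : Fin 0 → Bool => T fun _ => false)
  have h2 := prob_le_one (fun s : Fin 0 → Bool => T fun _ => false)
  have h3 := prob_nonneg T
  have h4 := prob_le_one T
  rw [abs_le]
  constructor <;> linarith

/-- The first bit of the seed. -/
theorem p9_bit0 : PolyTime fun s : List Bool => s.getD 0 false :=
  PolyTime.getD (PolyTime.const 0) PolyTime.id false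

theorem p9_bit1 : PolyTime fun s : List Bool => s.getD 1 false :=
  PolyTime.getD (PolyTime.const 1) PolyTime.id false

theorem p9_ofFn1 (s : Fin 1 → Bool) : (List.ofFn s).getD 0 false = s 0 := by
  simp

theorem p9_ofFn2 (s : Fin 2 → Bool) :
    ((List.ofFn s).getD 0 false && (List.ofFn s).getD 1 false) = (s 0 && s 1) := by
  simp

theorem p9_prob1 : prob (fun s : Fin 1 → Bool => s 0) = 1 / 2 := by
  unfold prob
  have : (Finset.univ.filter fun s : Fin 1 → Bool => s 0 = true).card = 1 := by decide
  rw [this]
  simp

theorem p9_prob2 : prob (fun s : Fin 2 → Bool => s 0 && s 1) = 1 / 4 := by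
  unfold prob
  have : (Finset.univ.filter fun s : Fin 2 → Bool => (s 0 && s 1) = true).card = 1 := by decide
  rw [this]
  simp

theorem p9_const {T : BF m} (h0 : T (fun _ => false) = false) (h1 : T (fun _ => true) = true)
    (b : Bool) : (T fun _ => b) = b := by
  cases b
  · exact h0
  · exact h1

/-- `w s = s 0`, `d = 1`: `T (0..0) ≠ T (1..1)`, both probabilities are `1 / 2`. -/
theorem gen_selfDual (h : ∀ i, SelfDual (B.fn i)) {e : ℝ} (he : 0 ≤ e) : LogGen (BAny B) e := by
  refine logGen_const (d := 1) p9_bit0 fun n T _ hT => ?_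
  have h1 : SelfDual T := BAny.selfDual h hT
  simp only [p9_ofFn1]
  have h2 : SelfDual fun s : Fin 1 → Bool => T fun _ => s 0 := fun s => h1 fun _ => s 0
  rw [h1.prob_eq, SelfDual.prob_eq h2, sub_self, abs_zero]
  exact he

/-- `w s = s 0`, `d = 1`: `T (0..0) = 0` and `T (1..1) = 1`, so that the first probability is
`1 / 2`, or `T` is monotone and constant. -/
theorem gen_half (h : (∀ i, Mono (B.fn i)) ∨ ∀ i, Idem (B.fn i)) {e : ℝ} (he : 1 / 2 ≤ e) :
    LogGen (BAny B) e := by
  refine logGen_const (d := 1) p9_bit0 fun n T _ hT => ?_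
  simp only [p9_ofFn1]
  have h3 := prob_nonneg T
  have h4 := prob_le_one T
  have key : T (fun _ => false) = false → T (fun _ => true) = true →
      |prob (fun s : Fin 1 → Bool => T fun _ => s 0) - prob T| ≤ e := fun h0 h1 => by
    simp only [p9_const h0 h1]
    rw [p9_prob1, abs_le]
    constructor <;> linarith
  rcases h with h | h
  · have hm : Mono T := BAny.mono h hT
    cases h0 : T (fun _ => false)
    · cases h1 : T (fun _ => true)
      · have h5 : ∀ x, T x = false := fun x => by
          by_contra hc
          rw [Bool.not_eq_false] at hc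
          have := hm x (fun _ => true) (fun _ _ => rfl) hc
          rw [h1] at this
          exact absurd this (by decide)
        rw [p9_prob_false (f := T) h5, p9_prob_false (fun s : Fin 1 → Bool => h5 _), sub_self, abs_zero]
        linarith
      · exact key h0 h1
    · have h5 : ∀ x, T x = true := fun x =>
        hm (fun _ => false) x (fun _ h => absurd h (by decide)) h0
      rw [p9_prob_true (f := T) h5, p9_prob_true (fun s : Fin 1 → Bool => h5 _), sub_self, abs_zero]
      linarith
  · have hi : Idem T := BAny.idem h hT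
    exact key hi.1 hi.2

/-- `w s = 0`: `T (0..0) = 0` as `T` is intersecting, and `prob T ≤ 1 / 2`. -/
theorem gen_half_inter (h : ∀ i, Inter (B.fn i)) {e : ℝ} (he : 1 / 2 ≤ e) :
    LogGen (BAny B) e := by
  refine logGen_const (d := 0) (w := fun _ => false) (PolyTime.const false) fun n T _ hT => ?_
  have hi : Inter T := BAny.inter h hT
  have h0 : T (fun _ => false) = false := by
    by_contra hc
    rw [Bool.not_eq_false] at hc
    obtain ⟨i, hi1, -⟩ := hi _ _ hc hc
    exact absurd hi1 (by decide)
  have h3 := prob_nonneg T
  have h4 := Inter.prob_le hi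
  rw [p9_prob_false (fun s : Fin 0 → Bool => h0), abs_le]
  constructor <;> linarith

/-- `w s = s 0 ∧ s 1`, `d = 2`: `T (0..0) = 0`, and `T (1..1) = 1`, in which case the first
probability is `1 / 4` and the second one in `[0, 1/2]`, or `T` is monotone and constantly false. -/
theorem gen_quarter (h : ∀ i, Inter (B.fn i))
    (h' : (∀ i, Mono (B.fn i)) ∨ ∀ i, Idem (B.fn i)) {e : ℝ} (he : 1 / 4 ≤ e) :
    LogGen (BAny B) e := by
  refine logGen_const (d := 2) (w := fun s => s.getD 0 false && s.getD 1 false)
    (PolyTime.and p9_bit0 p9_bit1) fun n T _ hT => ?_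
  simp only [p9_ofFn2]
  have hi : Inter T := BAny.inter h hT
  have h0 : T (fun _ => false) = false := by
    by_contra hc
    rw [Bool.not_eq_false] at hc
    obtain ⟨i, hi1, -⟩ := hi _ _ hc hc
    exact absurd hi1 (by decide)
  have h3 := prob_nonneg T
  have h4 := Inter.prob_le hi
  cases h1 : T (fun _ => true)
  · rcases h' with h' | h'
    · have hm : Mono T := BAny.mono h' hT
      have h5 : ∀ x, T x = false := fun x => by
        by_contra hc
        rw [Bool.not_eq_false] at hc
        have := hm x (fun _ => true) (fun _ _ => rfl) hc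
        rw [h1] at this
        exact absurd this (by decide)
      rw [p9_prob_false (f := T) h5, p9_prob_false (fun s : Fin 2 → Bool => h5 _), sub_self, abs_zero]
      linarith
    · have hid : Idem T := BAny.idem h' hT
      rw [hid.2] at h1
      exact absurd h1 (by decide)
  · simp only [p9_const h0 h1]
    rw [p9_prob2, abs_le]
    constructor <;> linarith

end Pool.Agent.MP_ca1109_lc.Post
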